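import Pool.Agent.GBL.Def

/-!
# Module CircA (size 3): support-minimal vectors

PROOF SKETCH.
* `circ_span`: induction on the size of `support w` (`ι` finite). `w = 0` is clear. If `w ≠ 0`, among the nonzero
  `r ∈ U` with `support r ⊆ support w` choose one with minimal number of elements of the support: it satisfies
  `IsCirc U r`. Take `j ∈ support r`; `w' = w - (w_j / r_j) • r ∈ U` has `support w' ⊆ support w` minus `j`. By induction
  `w'` is in the span of the `r'` with `IsCirc U r'`, `support r' ⊆ support w' ⊆ support w`.
* `circ_unique`: take `j` in the common support, `c = r'_j / r_j`; `r' - c • r ∈ U` has support in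
  `support r` minus `j`; if it were nonzero this would contradict minimality of `r`.
-/

open Function

namespace Pool.Agent.GBL

theorem circ_span {F ι : Type*} [Field F] [Finite ι] (U : Submodule F (ι → F)) (w : ι → F)
    (hw : w ∈ U) :
    w ∈ Submodule.span F {r : ι → F | IsCirc U r ∧ support r ⊆ support w} := by
  classical
  have key : ∀ n : ℕ, ∀ w : ι → F, w ∈ U → (support w).ncard = n →
      w ∈ Submodule.span F {r : ι → F | IsCirc U r ∧ support r ⊆ support w} := by
    intro n
    induction n using Nat.strong_induction_on with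
    | _ n ih =>
      intro w hw hn
      by_cases h0 : w = 0
      · rw [h0]; exact Submodule.zero_mem _
      have hex : ∃ m : ℕ, ∃ r : ι → F, r ∈ U ∧ r ≠ 0 ∧ support r ⊆ support w ∧
          (support r).ncard = m := ⟨_, w, hw, h0, subset_rfl, rfl⟩
      obtain ⟨r, hrU, hr0, hrs, hrm⟩ := Nat.find_spec hex
      have hmin : ∀ r' : ι → F, r' ∈ U → r' ≠ 0 → support r' ⊆ support w →
          (support r).ncard ≤ (support r').ncard := by
        intro r' h1 h2 h3
        rw [hrm]
        exact Nat.find_min' hex ⟨r', h1, h2, h3, rfl⟩
      have hcirc : IsCirc U r := by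
        refine ⟨hrU, hr0, fun r' h1 h2 h3 => ?_⟩
        exact Set.eq_of_subset_of_ncard_le h3 (hmin r' h1 h2 (h3.trans hrs)) (Set.toFinite _)
      obtain ⟨j, hj⟩ := support_nonempty_iff.mpr hr0
      have hrj : r j ≠ 0 := hj
      have hwj : j ∈ support w := hrs hj
      set w' : ι → F := w - (w j / r j) • r with hw'
      have hw'U : w' ∈ U := U.sub_mem hw (U.smul_mem _ hrU)
      have hw's : support w' ⊆ support w := by
        intro i hi
        by_contra hi'
        have h1 : w i = 0 := by simpa using hi'
        have h2 : r i = 0 := by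
          by_contra h3
          exact hi' (hrs h3)
        apply hi
        simp [hw', h1, h2]
      have hw'j : j ∉ support w' := by
        simp [hw', div_mul_cancel₀ _ hrj]
      have hlt : (support w').ncard < n := by
        rw [← hn]
        exact Set.ncard_lt_ncard ⟨hw's, fun h => hw'j (h hwj)⟩ (Set.toFinite _)
      have h1 := ih _ hlt w' hw'U rfl
      have h2 : w' ∈ Submodule.span F {r : ι → F | IsCirc U r ∧ support r ⊆ support w} := by
        refine Submodule.span_mono ?_ h1
        rintro r' ⟨h3, h4⟩
        exact ⟨h3, h4.trans hw's⟩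
      have h3 : r ∈ Submodule.span F {r : ι → F | IsCirc U r ∧ support r ⊆ support w} :=
        Submodule.subset_span ⟨hcirc, hrs⟩
      have h4 : w' + (w j / r j) • r = w := by rw [hw']; abel
      have h5 := Submodule.add_mem _ h2 (Submodule.smul_mem _ (w j / r j) h3)
      rw [h4] at h5
      exact h5
  exact key _ w hw rfl

theorem circ_unique {F ι : Type*} [Field F] (U : Submodule F (ι → F)) (r r' : ι → F)
    (h : IsCirc U r) (h' : IsCirc U r') (hs : support r = support r') :
    ∃ c : F, c ≠ 0 ∧ r' = c • r := by
  obtain ⟨j, hj⟩ := support_nonempty_iff.mpr h.2.1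
  have hrj : r j ≠ 0 := hj
  have hr'j : r' j ≠ 0 := by
    have : j ∈ support r' := hs ▸ hj
    exact this
  refine ⟨r' j / r j, div_ne_zero hr'j hrj, ?_⟩
  by_contra hne
  have h1 : r' - (r' j / r j) • r ∈ U := U.sub_mem h'.1 (U.smul_mem _ h.1)
  have h2 : r' - (r' j / r j) • r ≠ 0 := fun h3 => hne (sub_eq_zero.mp h3)
  have h3 : support (r' - (r' j / r j) • r) ⊆ support r := by
    intro i hi
    by_contra hi'
    have h4 : r i = 0 := by simpa using hi'
    have h5 : r' i = 0 := by
      by_contra h6
      exact hi' (hs ▸ h6)
    apply hi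
    simp [h4, h5]
  have h4 := h.2.2 _ h1 h2 h3
  have h5 : j ∈ support (r' - (r' j / r j) • r) := h4 ▸ hj
  apply h5
  simp [div_mul_cancel₀ _ hrj]

end Pool.Agent.GBL
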