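import Pool.Agent.GBL.CircA

/-!
# Module CircB (size 4): circuits of the annihilator and of the relation space
-/

open Function

namespace Pool.Agent.GBL

private theorem circB_dual {K ι : Type*} [Field K] [Fintype ι] (φ : Module.Dual K (ι → K)) :
    ∃ r : ι → K, ∀ w, φ w = ∑ j, r j * w j := by
  classical
  refine ⟨fun j => φ (Pi.single j 1), fun w => ?_⟩
  conv_lhs => rw [← Finset.univ_sum_single w]
  rw [map_sum]
  refine Finset.sum_congr rfl fun j _ => ?_
  have : (Pi.single j (w j) : ι → K) = w j • Pi.single j (1:K) := by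
    rw [← Pi.single_smul]; simp
  rw [this, map_smul, smul_eq_mul, mul_comm]

theorem circ_card {K ι : Type*} [Field K] [Fintype ι] (C : Submodule K (ι → K)) (r : ι → K)
    (h : IsCirc (ann C) r) : (support r).ncard ≤ Module.finrank K C + 1 := by
  classical
  by_contra hcon
  push Not at hcon
  obtain ⟨hr, hr0, hmin⟩ := h
  obtain ⟨j0, hj0⟩ : ∃ j0, r j0 ≠ 0 := by
    by_contra hall
    push Not at hall
    exact hr0 (funext hall)
  -- J' as a finset
  let J : Finset ι := Finset.univ.filter fun j => r j ≠ 0
  have hJ : (support r).ncard = J.card := by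
    rw [Set.ncard_eq_toFinset_card']
    congr 1
    ext j
    simp [J]
  let J' : Finset ι := J.erase j0
  have hJ' : Module.finrank K C < J'.card := by
    have : J'.card = J.card - 1 := Finset.card_erase_of_mem (by simp [J, hj0])
    omega
  -- the restriction map
  let res : (ι → K) →ₗ[K] (J' → K) := LinearMap.funLeft K K (fun j : J' => (j : ι))
  have hlt : C.map res < ⊤ := by
    rw [lt_top_iff_ne_top]
    intro htop
    have h1 : Module.finrank K (C.map res) ≤ Module.finrank K C := Submodule.finrank_map_le res C
    rw [htop, finrank_top, Module.finrank_fintype_fun_eq_card, Fintype.card_coe] at h1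
    omega
  obtain ⟨φ, hφ0, hφ⟩ := Submodule.exists_le_ker_of_lt_top _ hlt
  obtain ⟨s, hs⟩ := circB_dual φ
  let r' : ι → K := fun j => if hj : j ∈ J' then s ⟨j, hj⟩ else 0
  have hr'C : r' ∈ ann C := by
    intro w hw
    have h1 : φ (res w) = 0 := by
      have := hφ (Submodule.mem_map_of_mem hw)
      simpa using this
    rw [hs] at h1
    rw [← h1]
    have h2 : ∑ j, r' j * w j = ∑ j ∈ J', r' j * w j := by
      symm
      apply Finset.sum_subset (Finset.subset_univ _)
      intro j _ hj
      simp [r', hj]
    rw [h2, ← Finset.sum_coe_sort]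
    refine Finset.sum_congr rfl fun j _ => ?_
    simp [r', res, LinearMap.funLeft_apply]
  have hr'0 : r' ≠ 0 := by
    intro h0
    apply hφ0
    refine LinearMap.ext fun w => ?_
    rw [hs]
    simp only [LinearMap.zero_apply]
    refine Finset.sum_eq_zero fun j _ => ?_
    have := congrFun h0 j
    simp only [r', Pi.zero_apply, Finset.coe_mem, dite_true] at this
    have h3 : s j = 0 := by simpa using this
    rw [h3, zero_mul]
  have hsub : support r' ⊆ support r := by
    intro j hj
    by_contra hj'
    apply hj
    have : j ∉ J' := by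
      intro hm
      have := Finset.mem_of_mem_erase hm
      simp [J] at this
      exact hj' this
    simp [r', this]
  have heq := hmin r' hr'C hr'0 hsub
  have : j0 ∈ support r' := by rw [heq]; exact hj0
  apply this
  simp [r', J']

theorem mem_of_ann {K ι : Type*} [Field K] [Fintype ι] (C : Submodule K (ι → K)) (w : ι → K)
    (h : ∀ r, IsCirc (ann C) r → ∑ j, r j * w j = 0) : w ∈ C := by
  classical
  by_contra hw
  obtain ⟨φ, hφw, hφ⟩ := Submodule.exists_le_ker_of_notMem hw
  obtain ⟨r, hr⟩ := circB_dual φ
  have hrC : r ∈ ann C := by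
    intro v hv
    rw [← hr]
    simpa using hφ hv
  have hsp := circ_span (ann C) r hrC
  have : ∀ v ∈ Submodule.span K {r | IsCirc (ann C) r}, ∑ j, v j * w j = 0 := by
    intro v hv
    induction hv using Submodule.span_induction with
    | mem x hx => exact h x hx
    | zero => simp
    | add x y _ _ hx hy => simp only [Pi.add_apply, add_mul, Finset.sum_add_distrib, hx, hy, add_zero]
    | smul a x _ hx =>
      simp only [Pi.smul_apply, smul_eq_mul, mul_assoc]
      rw [← Finset.mul_sum, hx, mul_zero]
  apply hφw
  rw [hr]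
  exact this r (Submodule.span_mono (fun x hx => hx.1) hsp)

theorem circ_indep {k K ι : Type*} [Field k] [Field K] [Algebra k K] [Fintype ι] (θ : ι → K)
    (e : ι → k) (h : IsCirc (rel k θ) e) (j0 : ι) (hj0 : e j0 ≠ 0) :
    LinearIndependent k (fun j : {j : ι // e j ≠ 0 ∧ j ≠ j0} => θ j) := by
  classical
  obtain ⟨he, he0, hmin⟩ := h
  rw [Fintype.linearIndependent_iff]
  intro g hg
  by_contra hcon
  push Not at hcon
  obtain ⟨i0, hi0⟩ := hcon
  let e' : ι → k := fun j => if hj : e j ≠ 0 ∧ j ≠ j0 then g ⟨j, hj⟩ else 0
  have h1 : e' ∈ rel k θ := by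
    show ∑ j, algebraMap k K (e' j) * θ j = 0
    rw [← hg]
    have h2 : ∑ j, algebraMap k K (e' j) * θ j
        = ∑ j ∈ Finset.univ.filter (fun j => e j ≠ 0 ∧ j ≠ j0), algebraMap k K (e' j) * θ j := by
      symm
      apply Finset.sum_subset (Finset.subset_univ _)
      intro j _ hj
      have hj' : ¬ (e j ≠ 0 ∧ j ≠ j0) := by simpa using hj
      simp only [e', dif_neg hj', map_zero, zero_mul]
    rw [h2]
    rw [Finset.sum_subtype (p := fun j => e j ≠ 0 ∧ j ≠ j0) _ (by intro x; simp)]
    refine Finset.sum_congr rfl fun j _ => ?_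
    have : e' j = g j := by
      simp only [e']
      rw [dif_pos j.2]
    rw [this, Algebra.smul_def]
  have h0 : e' ≠ 0 := by
    intro h0
    apply hi0
    have := congrFun h0 i0
    simp only [e', Pi.zero_apply] at this
    rw [dif_pos i0.2] at this
    exact this
  have hsub : support e' ⊆ support e := by
    intro j hj
    by_contra hj'
    apply hj
    have : ¬ (e j ≠ 0 ∧ j ≠ j0) := by
      rintro ⟨h1, _⟩
      exact hj' h1
    simp only [e', dif_neg this]
  have heq := hmin e' h1 h0 hsub
  have : j0 ∈ support e' := by rw [heq]; exact hj0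
  apply this
  simp [e']

end Pool.Agent.GBL
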