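import Pool.Agent.GBL.ThI
import Pool.Agent.GBL.CircA
import Pool.Agent.GBL.CircB

/-!
# Module Adj (size 4): finitely many ratios along a circuit

`k` algebraically closed of characteristic 0, `K/k` a function field of one variable, `C ⊆ K^ι`,
`(dim C)^2 ≤ d`, `0 < d`. There is a finite `F ⊆ K` with: for `x` with `x^d ∈ C`, `r` a circuit of
`ann C` and `e` a circuit of `rel k (r_j x_j^d)` whose support lies in the support of `(r_j x_j^d)`, the ratios
`x_i/x_j` (`i, j ∈ support e`) lie in `F * k`.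

PROOF SKETCH. For each pair `(J, J')` of subsets of `ι` (finitely many) for which there is a circuit `r` of
`ann C` with support `J`, and `J' ⊆ J`, choose such an `r =: ρ_J`, and let `S_(J,J')` be the finite set given by `thI` for
the index type `J'` and `a = ρ_J` restricted to `J'` (nonzero entries), with `card J' - 1 ≤ card J - 1 ≤ dim C` (`circ_card`). Let
`F` be the union of the sets `{b_i / b_j : b ∈ S_(J,J'), i, j ∈ J'}`.
Given `x, r, e`: `J = support r`, `J' = support e ⊆ J` and `x_j ≠ 0` on `J'`. `r = c • ρ_J`, `c ≠ 0` (`circ_unique`). Choose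
`ε_j ∈ k` with `ε_j^d = e_j`, `j ∈ J'` (`IsAlgClosed.exists_pow_nat_eq`), `ε_j ≠ 0`, and put `x'_j = ε_j x_j` (`j ∈ J'`). Then
`∑_(J') ρ_j x'_j^d = c⁻¹ ∑_(J') e_j r_j x_j^d = 0` (`e ∈ rel`, terms outside `J'` vanish). For `j0 ∈ J'` the family
`(ρ_j x'_j^d)_(j ∈ J', j ≠ j0) = (c⁻¹ e_j (r_j x_j^d))` is independent over `k`: by `circ_indep` the `r_j x_j^d` are, and
multiplying by the nonzero `e_j ∈ k` (units smul: `LinearIndependent.units_smul`) and by the fixed `c⁻¹ ∈ K^*`
(an injective `k`-linear map) keeps independence. So `x'_j = l b_j` with `b ∈ S_(J,J')` and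
`x_i / x_j = (b_i/b_j) (ε_j/ε_i)`.
-/

open scoped IntermediateField
open Function

namespace Pool.Agent.GBL

theorem adj {k K : Type*} [Field k] [IsAlgClosed k] [CharZero k] [Field K] [Algebra k K] (t : K)
    (ht : Transcendental k t) [FiniteDimensional k⟮t⟯ K] {ι : Type*} [Fintype ι]
    (C : Submodule K (ι → K)) {d : ℕ} (hd : (Module.finrank K C) ^ 2 ≤ d) (hd0 : 0 < d) :
    ∃ F : Set K, F.Finite ∧ ∀ x : ι → K, (fun j => x j ^ d) ∈ C →
      ∀ r : ι → K, IsCirc (ann C) r →
      ∀ e : ι → k, IsCirc (rel k (fun j => r j * x j ^ d)) e →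
        support e ⊆ support (fun j => r j * x j ^ d) →
        ∀ i j, e i ≠ 0 → e j ≠ 0 → ∃ f ∈ F, ∃ c : k, x i = x j * (f * algebraMap k K c) := by
  classical
  -- for each pair of subsets, the finite set
  have key : ∀ JJ : Set ι × Set ι, ∃ F : Set K, F.Finite ∧ ∀ x : ι → K, (fun j => x j ^ d) ∈ C →
      ∀ r : ι → K, IsCirc (ann C) r → support r = JJ.1 →
      ∀ e : ι → k, IsCirc (rel k (fun j => r j * x j ^ d)) e → support e = JJ.2 →
        support e ⊆ support (fun j => r j * x j ^ d) →
        ∀ i j, e i ≠ 0 → e j ≠ 0 → ∃ f ∈ F, ∃ c : k, x i = x j * (f * algebraMap k K c) := by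
    rintro ⟨J, J'⟩
    by_cases hex : ∃ ρ : ι → K, IsCirc (ann C) ρ ∧ support ρ = J ∧ J' ⊆ J
    · obtain ⟨ρ, hρ, hρJ, hJJ⟩ := hex
      have hcard : Fintype.card J' - 1 ≤ Module.finrank K C := by
        have h1 := circ_card C ρ hρ
        have h2 : Fintype.card J' ≤ (support ρ).ncard := by
          rw [← Nat.card_eq_fintype_card, Nat.card_coe_set_eq]
          exact Set.ncard_le_ncard (by rw [hρJ]; exact hJJ) (Set.toFinite _)
        omega
      have hd' : (Fintype.card J' - 1) ^ 2 ≤ d := le_trans (Nat.pow_le_pow_left hcard 2) hd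
      obtain ⟨S, hS, hS2⟩ := thI t ht hd' hd0 (fun j : J' => ρ j) (fun j => by
        have : (j : ι) ∈ support ρ := by rw [hρJ]; exact hJJ j.2
        exact this)
      refine ⟨(fun q : (J' → K) × (J' × J') => q.1 q.2.1 / q.1 q.2.2) '' (S ×ˢ Set.univ),
        (hS.prod (Set.toFinite _)).image _, ?_⟩
      intro x hx r hr hrJ e he heJ hsupp i j hi hj
      simp only at hrJ heJ
      obtain ⟨c, hc0, hc⟩ := circ_unique (ann C) ρ r hρ hr (by rw [hρJ, hrJ])
      -- entries
      have hmem : ∀ l : J', e l ≠ 0 := by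
        intro l
        have : (l : ι) ∈ support e := by rw [heJ]; exact l.2
        exact this
      have hrx : ∀ l : J', r l * x l ^ d ≠ 0 := by
        intro l
        have : (l : ι) ∈ support (fun j => r j * x j ^ d) := hsupp (hmem l)
        exact this
      have hx0 : ∀ l : J', x l ≠ 0 := by
        intro l h0
        apply hrx l
        rw [h0, zero_pow hd0.ne', mul_zero]
      have hε : ∀ l : J', ∃ z : k, z ^ d = e l := fun l => IsAlgClosed.exists_pow_nat_eq (e l) hd0
      choose ε hε using hε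
      have hε0 : ∀ l : J', ε l ≠ 0 := by
        intro l h0
        apply hmem l
        rw [← hε l, h0, zero_pow hd0.ne']
      have hεK : ∀ l : J', algebraMap k K (ε l) ≠ 0 := by
        intro l
        rw [Ne, map_eq_zero]
        exact hε0 l
      have hterm : ∀ l : J', ρ l * (algebraMap k K (ε l) * x l) ^ d =
          c⁻¹ * (algebraMap k K (e l) * (r l * x l ^ d)) := by
        intro l
        rw [mul_pow, ← map_pow, hε l, hc]
        simp only [Pi.smul_apply, smul_eq_mul]
        field_simp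
      have hsum : ∑ l : J', ρ l * (algebraMap k K (ε l) * x l) ^ d = 0 := by
        simp only [hterm]
        rw [← Finset.mul_sum]
        have h1 : ∑ j, algebraMap k K (e j) * (r j * x j ^ d) = 0 := he.1
        have h2 : ∑ l : J', algebraMap k K (e l) * (r l * x l ^ d) =
            ∑ j, algebraMap k K (e j) * (r j * x j ^ d) := by
          rw [← Finset.sum_subtype (Finset.univ.filter (fun j => j ∈ J')) (fun j => by simp)
            (fun j => algebraMap k K (e j) * (r j * x j ^ d))]
          apply Finset.sum_subset (Finset.subset_univ _)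
          intro l _ hl
          have hl2 : l ∉ J' := by simpa using hl
          rw [← heJ, notMem_support] at hl2
          rw [hl2, map_zero, zero_mul]
        rw [h2, h1, mul_zero]
      have hli : ∃ j0 : J', LinearIndependent k
          (fun j : {j : J' // j ≠ j0} => ρ j * (algebraMap k K (ε j) * x j) ^ d) := by
        have hiJ : i ∈ J' := by rw [← heJ]; exact hi
        refine ⟨⟨i, hiJ⟩, ?_⟩
        have h1 := circ_indep (fun j => r j * x j ^ d) e he i hi
        have h2 : LinearIndependent k (fun j : {j : J' // j ≠ ⟨i, hiJ⟩} => r j * x j ^ d) := by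
          let g : {j : J' // j ≠ ⟨i, hiJ⟩} → {j : ι // e j ≠ 0 ∧ j ≠ i} := fun j =>
            ⟨(j : J'), hmem j, fun h => j.2 (Subtype.ext h)⟩
          have hg : Function.Injective g := by
            intro a b hab
            have := congrArg Subtype.val hab
            exact Subtype.ext (Subtype.ext this)
          exact h1.comp g hg
        have h3 : LinearIndependent k (fun j : {j : J' // j ≠ ⟨i, hiJ⟩} =>
            (Units.mk0 (e j) (hmem j)) • (r j * x j ^ d)) :=
          h2.units_smul (fun j : {j : J' // j ≠ ⟨i, hiJ⟩} => Units.mk0 (e j) (hmem j))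
        have h4 := h3.map' (LinearMap.mulLeft k (c⁻¹)) (by
          rw [LinearMap.ker_eq_bot]
          exact mul_right_injective₀ (inv_ne_zero hc0))
        have h5 : (fun j : {j : J' // j ≠ ⟨i, hiJ⟩} =>
            ρ j * (algebraMap k K (ε j) * x j) ^ d) = (LinearMap.mulLeft k (c⁻¹)) ∘
            (fun j : {j : J' // j ≠ ⟨i, hiJ⟩} => (Units.mk0 (e j) (hmem j)) • (r j * x j ^ d)) := by
          funext j
          simp only [Function.comp, LinearMap.mulLeft_apply]
          rw [hterm j]
          congr 1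
          rw [Units.smul_def, Algebra.smul_def]
          rfl
        rw [h5]
        exact h4
      obtain ⟨b, hb, l, hl⟩ := hS2 (fun j : J' => algebraMap k K (ε j) * x j)
        (fun j => mul_ne_zero (hεK j) (hx0 j)) hsum hli
      have hiJ : i ∈ J' := by rw [← heJ]; exact hi
      have hjJ : j ∈ J' := by rw [← heJ]; exact hj
      have hli1 := hl ⟨i, hiJ⟩
      have hlj1 := hl ⟨j, hjJ⟩
      simp only at hli1 hlj1
      have hl0 : l ≠ 0 := by
        intro h0
        rw [h0, zero_mul] at hli1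
        exact mul_ne_zero (hεK ⟨i, hiJ⟩) (hx0 ⟨i, hiJ⟩) hli1
      have hbj : b ⟨j, hjJ⟩ ≠ 0 := by
        intro h0
        rw [h0, mul_zero] at hlj1
        exact mul_ne_zero (hεK ⟨j, hjJ⟩) (hx0 ⟨j, hjJ⟩) hlj1
      refine ⟨b ⟨i, hiJ⟩ / b ⟨j, hjJ⟩, ⟨(b, (⟨i, hiJ⟩, ⟨j, hjJ⟩)), ⟨hb, Set.mem_univ _⟩, rfl⟩,
        ε ⟨j, hjJ⟩ / ε ⟨i, hiJ⟩, ?_⟩
      have e1 := hεK ⟨i, hiJ⟩
      have e2 := hεK ⟨j, hjJ⟩
      rw [map_div₀]
      have h5 : x i = l * b ⟨i, hiJ⟩ / algebraMap k K (ε ⟨i, hiJ⟩) := by
        rw [← hli1]; field_simp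
      have h6 : x j = l * b ⟨j, hjJ⟩ / algebraMap k K (ε ⟨j, hjJ⟩) := by
        rw [← hlj1]; field_simp
      rw [h5, h6]
      field_simp
    · refine ⟨∅, Set.finite_empty, ?_⟩
      intro x hx r hr hrJ e he heJ hsupp i j hi hj
      exfalso
      apply hex
      refine ⟨r, hr, hrJ, ?_⟩
      simp only at hrJ heJ
      rw [← heJ, ← hrJ]
      intro l hl
      have := hsupp hl
      rw [mem_support] at this ⊢
      exact left_ne_zero_of_mul this
  choose F hF hF2 using key
  refine ⟨⋃ JJ, F JJ, Set.finite_iUnion hF, ?_⟩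
  intro x hx r hr e he hsupp i j hi hj
  obtain ⟨f, hf, c, hc⟩ := hF2 (support r, support e) x hx r hr rfl e he rfl hsupp i j hi hj
  exact ⟨f, Set.mem_iUnion.2 ⟨_, hf⟩, c, hc⟩

end Pool.Agent.GBL
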