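import Pool.Agent.GBL.Def

/-!
# Module Den (size 3): clearing denominators

`k` of characteristic 0, `t ∈ K` transcendental over `k`, `K` finite over `k(t)`. Write `R = k[t]`
(`Algebra.adjoin k {t}`). Given a `k`-derivation `D` of `K` and finitely many `a_j ∈ K` there is `A ∈ R`,
`A ≠ 0`, such that all `A a_j` are integral over `R` and `A * D f` is integral over `R` for all `f` integral
over `R`.

PROOF SKETCH. `R` is isomorphic to `k[X]` (`t` transcendental; e.g. `Polynomial.aeval t` restricted to its
range), so it is a principal ideal domain, integrally closed and Noetherian, with fraction field `k(t)`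
(`IntermediateField.adjoin k {t}`; see `IntermediateField.algebraAdjoinAdjoin...` in
`Mathlib/FieldTheory/IntermediateField/Adjoin/Algebra.lean` for the instance
`IsFractionRing (Algebra.adjoin F S) (IntermediateField.adjoin F S)`), `K/k(t)` is finite separable. So
(i) for each `a ∈ K` there is `A ≠ 0` in `R` with `A a` integral over `R` (`exists_integral_multiple`);
(ii) the integral closure `O` of `R` in `K` is a finitely generated `R`-module
(`IsIntegralClosure.isNoetherian` / `IsIntegralClosure.finite`): generators `w_1..w_n`. Take `A ≠ 0` in `R` with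
`A a_j`, `A * D w_i`, `A * D t` integral over `R` (product of the single ones). For `f = ∑ r_i w_i`, `r_i = p_i(t)`:
`A * D f = ∑ p_i'(t) * (A * D t) * w_i + ∑ r_i * (A * D w_i)` is integral over `R`
(`Derivation.map_aeval`: `D (aeval t p) = aeval t p' • D t`).
-/

open scoped IntermediateField

namespace Pool.Agent.GBL

open scoped IntermediateField.algebraAdjoinAdjoin in
theorem den {k K : Type*} [Field k] [CharZero k] [Field K] [Algebra k K] (t : K)
    (ht : Transcendental k t) [FiniteDimensional k⟮t⟯ K] (D : Derivation k K K) {n : ℕ}
    (a : Fin n → K) :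
    ∃ A ∈ Algebra.adjoin k {t}, A ≠ 0 ∧ (∀ j, IsIntegral (Algebra.adjoin k {t}) (A * a j)) ∧
      ∀ f : K, IsIntegral (Algebra.adjoin k {t}) f → IsIntegral (Algebra.adjoin k {t}) (A * D f) := by
  classical
  have h1 : Algebra.IsAlgebraic k⟮t⟯ K := inferInstance
  have h2 : Algebra.IsAlgebraic (Algebra.adjoin k {t}) K :=
    Algebra.IsAlgebraic.trans (Algebra.adjoin k {t}) k⟮t⟯ K
  let e := Polynomial.algEquivOfTranscendental k t ht
  have h3 : IsPrincipalIdealRing (Algebra.adjoin k {t}) :=
    IsPrincipalIdealRing.of_surjective e.toRingEquiv.toRingHom e.surjective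
  have h4 : CharZero k⟮t⟯ := charZero_of_injective_algebraMap (algebraMap k k⟮t⟯).injective
  have h5 : Algebra.IsSeparable k⟮t⟯ K := inferInstance
  have hfin : Module.Finite (Algebra.adjoin k {t}) (integralClosure (Algebra.adjoin k {t}) K) :=
    IsIntegralClosure.finite (Algebra.adjoin k {t}) k⟮t⟯ K
      (integralClosure (Algebra.adjoin k {t}) K)
  obtain ⟨s, hs⟩ := hfin.fg_top
  obtain ⟨y, hy0, hy⟩ := Algebra.IsAlgebraic.exists_integral_multiples (Algebra.adjoin k {t})
    (Finset.univ.image a ∪ s.image (fun w : integralClosure (Algebra.adjoin k {t}) K => D (w : K)) ∪ {D t})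
  refine ⟨y, y.2, fun h => hy0 (Subtype.ext h), ?_, ?_⟩
  · intro j
    have h := hy (a j) (by simp)
    exact h
  · intro f hf
    have hR : ∀ r : Algebra.adjoin k {t}, IsIntegral (Algebra.adjoin k {t}) ((y : K) * D (r : K)) := by
      intro r
      obtain ⟨p, hp⟩ := Algebra.adjoin_mem_exists_aeval _ _ r.2
      have hDt := hy (D t) (by simp)
      have h6 : (y : K) * D (r : K) =
          (algebraMap (Algebra.adjoin k {t}) K
            (Polynomial.aeval (⟨t, Algebra.self_mem_adjoin_singleton k t⟩ :
              Algebra.adjoin k {t}) (Polynomial.derivative p))) * ((y : K) * D t) := by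
        rw [← hp, Derivation.map_aeval]
        have h7 : (algebraMap (Algebra.adjoin k {t}) K
            (Polynomial.aeval (⟨t, Algebra.self_mem_adjoin_singleton k t⟩ :
              Algebra.adjoin k {t}) (Polynomial.derivative p))) =
            Polynomial.aeval t (Polynomial.derivative p) := by
          rw [← Polynomial.aeval_algebraMap_apply]
          rfl
        rw [h7, smul_eq_mul]
        ring
      rw [h6]
      exact isIntegral_algebraMap.mul hDt
    have hmem : (⟨f, hf⟩ : integralClosure (Algebra.adjoin k {t}) K) ∈
        Submodule.span (Algebra.adjoin k {t})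
          (s : Set (integralClosure (Algebra.adjoin k {t}) K)) := by
      rw [hs]; exact Submodule.mem_top
    have key : ∀ g : integralClosure (Algebra.adjoin k {t}) K,
        g ∈ Submodule.span (Algebra.adjoin k {t})
          (s : Set (integralClosure (Algebra.adjoin k {t}) K)) →
        IsIntegral (Algebra.adjoin k {t}) ((y : K) * D (g : K)) := by
      intro g hg
      induction hg using Submodule.span_induction with
      | mem x hx =>
        have h := hy (D (x : K)) (by
          apply Finset.mem_union_left
          apply Finset.mem_union_right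
          exact Finset.mem_image_of_mem _ hx)
        exact h
      | zero =>
        have h0 : ((0 : integralClosure (Algebra.adjoin k {t}) K) : K) = 0 := rfl
        rw [h0, map_zero, mul_zero]
        exact isIntegral_zero
      | add g1 g2 _ _ i1 i2 =>
        have h0 : ((g1 + g2 : integralClosure (Algebra.adjoin k {t}) K) : K) = g1 + g2 := rfl
        rw [h0, map_add, mul_add]
        exact i1.add i2
      | smul r g1 _ i1 =>
        have h0 : ((r • g1 : integralClosure (Algebra.adjoin k {t}) K) : K) = (r : K) * g1 := rfl
        rw [h0, Derivation.leibniz]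
        have h8 : (y : K) * ((r : K) • D (g1 : K) + (g1 : K) • D (r : K)) =
            (algebraMap (Algebra.adjoin k {t}) K r) * ((y : K) * D (g1 : K)) +
            (g1 : K) * ((y : K) * D (r : K)) := by
          rw [smul_eq_mul, smul_eq_mul]
          have : algebraMap (Algebra.adjoin k {t}) K r = (r : K) := rfl
          rw [this]
          ring
        rw [h8]
        exact (isIntegral_algebraMap.mul i1).add (IsIntegral.mul g1.2 (hR r))
    exact key _ hmem

end Pool.Agent.GBL
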