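import Pool.Agent.GBL.Def

/-!
# Module LG (size 4): from all `D`-stable valuation rings to the integral closure

`k` of characteristic 0, `t ∈ K` transcendental over `k`, `K` finite over `k(t)`, `R = k[t]`
(`Algebra.adjoin k {t}`), `O` the integral closure of `R` in `K`, `D` a derivation of `K` with `D O ⊆ O`. If
`f ∈ K` lies in every `D`-stable valuation ring `V ⊇ O` of `K` then `f ∈ O`.

PROOF SKETCH. `R ≅ k[X]` is a principal ideal domain (Dedekind), `K` is a finite separable extension of its
fraction field `k(t)`, so `O` is a Dedekind domain with fraction field `K`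
(`integralClosure.isDedekindDomain`, `integralClosure.isFractionRing_of_finite_extension`). For a maximal
ideal `P` of `O` let `O_P = {a * s⁻¹ : a, s ∈ O, s ∉ P} ⊆ K` (e.g. `Localization.subalgebra.ofField K P.primeCompl _`,
see `Localization.subalgebra.mem_range_mapToFractionRing_iff_ofField`). It is a valuation ring of `K`: the
localization of a Dedekind domain at a prime is a discrete valuation ring
(`IsLocalization.AtPrime.isDiscreteValuationRing_of_dedekind_domain`; if `P = ⊥` it is the field `K`), hence for
each `x ∈ K` one has `x ∈ O_P` or `x⁻¹ ∈ O_P` (`ValuationRing.isInteger_or_isInteger`), and it is `D`-stable: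
`D (a s⁻¹) = (D a * s - a * D s) * (s^2)⁻¹`. So `f ∈ O_P` for all maximal `P`, and `⋂_P O_P = O`
(`MaximalSpectrum.iInf_localization_eq_bot`; or directly: the ideal `{s ∈ O : s f ∈ O}` is contained in no
maximal ideal, so contains 1).
(Alternatively use `HeightOneSpectrum` valuations and `mem_integers_of_valuation_le_one`.)
-/

open scoped IntermediateField

namespace Pool.Agent.GBL

open IsDedekindDomain in
/-- the valuation rings of a Dedekind domain `O` with `D O ⊆ O` are `D`-stable -/
private theorem LG_stable {k K O : Type*} [Field k] [Field K] [Algebra k K] [CommRing O]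
    [IsDedekindDomain O] [Algebra O K] [IsFractionRing O K] (D : Derivation k K K)
    (hD : ∀ a : O, ∃ b : O, D (algebraMap O K a) = algebraMap O K b) (v : HeightOneSpectrum O)
    (g : K) (hg : v.valuation K g ≤ 1) : v.valuation K (D g) ≤ 1 := by
  obtain ⟨n, d, hnd⟩ := v.exists_primeCompl_mul_eq_of_integer g hg
  have h1 : v.valuation K (algebraMap O K d) = 1 :=
    (HeightOneSpectrum.valuation_eq_one_iff_notMem v).2 d.2
  obtain ⟨n', hn'⟩ := hD n
  obtain ⟨d', hd'⟩ := hD (d : O)
  have h2 : D (g * algebraMap O K d) = D (algebraMap O K n) := by rw [hnd]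
  rw [Derivation.leibniz, hn', hd', smul_eq_mul, smul_eq_mul] at h2
  have h3 : D g * algebraMap O K d = algebraMap O K n' - g * algebraMap O K d' := by
    linear_combination h2
  have h4 : v.valuation K (D g) = v.valuation K (D g * algebraMap O K d) := by
    rw [map_mul, h1, mul_one]
  rw [h4, h3]
  refine (Valuation.map_sub _ _ _).trans (max_le (v.valuation_le_one n') ?_)
  rw [map_mul]
  exact mul_le_one' hg (v.valuation_le_one d')

open IsDedekindDomain in
open scoped IntermediateField.algebraAdjoinAdjoin in
theorem lg {k K : Type*} [Field k] [CharZero k] [Field K] [Algebra k K] (t : K)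
    (ht : Transcendental k t) [FiniteDimensional k⟮t⟯ K] (D : Derivation k K K)
    (hD : ∀ f : K, IsIntegral (Algebra.adjoin k {t}) f → IsIntegral (Algebra.adjoin k {t}) (D f))
    (f : K)
    (hf : ∀ V : ValuationSubring K, (∀ g : K, IsIntegral (Algebra.adjoin k {t}) g → g ∈ V) →
      (∀ g ∈ V, D g ∈ V) → f ∈ V) :
    IsIntegral (Algebra.adjoin k {t}) f := by
  let e : Polynomial k ≃ₐ[k] Algebra.adjoin k {t} := Polynomial.algEquivOfTranscendental k t ht
  have h1 : IsPrincipalIdealRing (Algebra.adjoin k {t}) :=
    IsPrincipalIdealRing.of_surjective e.toRingEquiv.toRingHom e.surjective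
  have h2 : IsDedekindDomain (Algebra.adjoin k {t}) := inferInstance
  have h3 : IsDedekindDomain (integralClosure (Algebra.adjoin k {t}) K) :=
    integralClosure.isDedekindDomain (Algebra.adjoin k {t}) k⟮t⟯ K
  have h4 : IsFractionRing (integralClosure (Algebra.adjoin k {t}) K) K :=
    integralClosure.isFractionRing_of_finite_extension k⟮t⟯ K
  have h5 : ∀ v : HeightOneSpectrum (integralClosure (Algebra.adjoin k {t}) K),
      v.valuation K f ≤ 1 := by
    intro v
    have h6 := hf (v.valuation K).valuationSubring (fun g hg => by
        rw [Valuation.mem_valuationSubring_iff]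
        exact v.valuation_le_one (⟨g, hg⟩ : integralClosure (Algebra.adjoin k {t}) K))
      (fun g hg => by
        rw [Valuation.mem_valuationSubring_iff] at hg ⊢
        exact LG_stable D (fun a => ⟨⟨D a.1, hD a.1 a.2⟩, rfl⟩) v g hg)
    rwa [Valuation.mem_valuationSubring_iff] at h6
  obtain ⟨y, rfl⟩ := HeightOneSpectrum.mem_integers_of_valuation_le_one _ _ h5
  exact y.2

end Pool.Agent.GBL
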