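import Pool.Agent.GBL.Def

/-!
# Module WrB: further rules for the Wronskian
-/

namespace Pool.Agent.GBL

theorem wr_const_mul {A B : Type*} [CommRing A] [CommRing B] [Algebra A B] (D : Derivation A B B)
    {m : ℕ} (c θ : Fin m → B) (hc : ∀ j, D (c j) = 0) :
    wr D (fun j => c j * θ j) = (∏ j, c j) * wr D θ := by
  have h1 : ∀ (i : ℕ) (j : Fin m), D^[i] (c j * θ j) = c j * D^[i] (θ j) := by
    intro i j
    induction i with
    | zero => rfl
    | succ i ih =>
      rw [Function.iterate_succ_apply', ih, Derivation.leibniz, hc j, smul_zero, add_zero,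
        smul_eq_mul, Function.iterate_succ_apply']
  unfold wr
  have h2 : (Matrix.of fun i j : Fin m => D^[(i : ℕ)] (c j * θ j)) =
      Matrix.of fun i j : Fin m => c j * (Matrix.of fun i j : Fin m => D^[(i : ℕ)] (θ j)) i j := by
    ext i j
    simp [h1]
  rw [h2, Matrix.det_mul_row]

private theorem wrB_div_aux {A B : Type*} [CommRing A] [CommRing B] [Algebra A B]
    (D : Derivation A B B) (O : Subring B) (hO : ∀ x ∈ O, D x ∈ O) (d : ℕ) (a y : B)
    (ha : a ∈ O) (hy : y ∈ O) (i : ℕ) : ∀ s, s + i = d →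
    ∃ r ∈ O, D^[i] (a * y ^ d) = y ^ s * r := by
  induction i with
  | zero =>
    intro s hs
    have : s = d := by omega
    subst this
    exact ⟨a, ha, by simp [mul_comm]⟩
  | succ i ih =>
    intro s hs
    obtain ⟨r, hr, h⟩ := ih (s + 1) (by omega)
    refine ⟨((s : B) + 1) * D y * r + y * D r, ?_, ?_⟩
    · refine O.add_mem (O.mul_mem (O.mul_mem (O.add_mem (natCast_mem O s) O.one_mem) (hO _ hy)) hr)
        (O.mul_mem hy (hO _ hr))
    · rw [Function.iterate_succ_apply', h, Derivation.leibniz, Derivation.leibniz_pow]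
      simp only [smul_eq_mul, nsmul_eq_mul, Nat.add_sub_cancel]
      push_cast
      ring

theorem wr_div {A B : Type*} [CommRing A] [CommRing B] [Algebra A B] (D : Derivation A B B)
    (O : Subring B) (hO : ∀ x ∈ O, D x ∈ O) {m d : ℕ} (hmd : m ≤ d + 1) (a y : Fin m → B)
    (ha : ∀ j, a j ∈ O) (hy : ∀ j, y j ∈ O) :
    ∃ r ∈ O, wr D (fun j => a j * y j ^ d) = (∏ j, y j ^ (d + 1 - m)) * r := by
  have h1 : ∀ i j : Fin m, ∃ r : O, D^[(i : ℕ)] (a j * y j ^ d) = y j ^ (d + 1 - m) * r := by
    intro i j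
    obtain ⟨r, hr, h⟩ := wrB_div_aux D O hO d (a j) (y j) (ha j) (hy j) i (d - i)
      (by have := i.2; omega)
    refine ⟨⟨y j ^ (d - i - (d + 1 - m)) * r, O.mul_mem (O.pow_mem (hy j) _) hr⟩, ?_⟩
    rw [h, ← mul_assoc, ← pow_add]
    congr 2
    have := i.2
    omega
  choose r hr using h1
  refine ⟨(Matrix.of fun i j => ((r i j : O) : B)).det, ?_, ?_⟩
  · have : (Matrix.of fun i j => ((r i j : O) : B)) = O.subtype.mapMatrix (Matrix.of r) := by
      ext i j
      simp
    rw [this, ← RingHom.map_det]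
    exact Subtype.property _
  · unfold wr
    rw [← Matrix.det_mul_row]
    congr 1
    ext i j
    simp [hr]

theorem wr_omit {A B : Type*} [CommRing A] [CommRing B] [Algebra A B] (D : Derivation A B B)
    {m : ℕ} (θ : Fin (m + 1) → B) (h : ∑ j, θ j = 0) (j0 : Fin (m + 1)) :
    wr D (fun j : Fin m => θ (j0.succAbove j)) = wr D (fun j : Fin m => θ j.succ) ∨
    wr D (fun j : Fin m => θ (j0.succAbove j)) = - wr D (fun j : Fin m => θ j.succ) := by
  have h0 : ∀ i : ℕ, ∑ j, D^[i] (θ j) = 0 := by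
    intro i
    induction i with
    | zero => simpa using h
    | succ i ih =>
      simp only [Function.iterate_succ_apply']
      rw [← map_sum, ih, map_zero]
  have h1 := Matrix.submatrix_succAbove_det_eq_negOnePow_submatrix_succAbove_det'
    (Matrix.of fun (i : Fin m) (j : Fin (m + 1)) => D^[(i : ℕ)] (θ j)) (fun i => h0 i) j0 0
  have h2 : wr D (fun j : Fin m => θ (j0.succAbove j)) =
      ((Matrix.of fun (i : Fin m) (j : Fin (m + 1)) => D^[(i : ℕ)] (θ j)).submatrix id
        (Fin.succAbove j0)).det := rfl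
  have h3 : wr D (fun j : Fin m => θ j.succ) =
      ((Matrix.of fun (i : Fin m) (j : Fin (m + 1)) => D^[(i : ℕ)] (θ j)).submatrix id
        (Fin.succAbove 0)).det := by
    unfold wr
    congr 1
  rw [h2, h3, h1]
  rcases Int.even_or_odd ((j0 : ℤ) - ((0 : Fin (m + 1)) : ℤ)) with he | ho
  · left
    rw [Int.negOnePow_even _ he, one_smul]
  · right
    rw [Int.negOnePow_odd _ ho]
    simp

theorem wr_map {B B' : Type*} [CommRing B] [CommRing B'] (h : B →+* B') (D : B → B) (D' : B' → B')
    (hh : ∀ x, h (D x) = D' (h x)) {m : ℕ} (θ : Fin m → B) :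
    h (wr D θ) = wr D' (fun j => h (θ j)) := by
  have h1 : ∀ (i : ℕ) (x : B), h (D^[i] x) = D'^[i] (h x) := by
    intro i
    induction i with
    | zero => intro x; rfl
    | succ i ih =>
      intro x
      rw [Function.iterate_succ_apply', hh, ih, Function.iterate_succ_apply']
  unfold wr
  rw [RingHom.map_det]
  congr 1
  ext i j
  simp [h1]

theorem sys_map {B B' : Type*} [CommRing B] [CommRing B'] (h : B →+* B') (D : B → B)
    (D' : B' → B') (hh : ∀ x, h (D x) = D' (h x)) {m d : ℕ} (a y : Fin (m + 1) → B)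
    (hs : Sys D m d a y) : Sys D' m d (fun j => h (a j)) (fun j => h (y j)) := by
  obtain ⟨h1, h2⟩ := hs
  refine ⟨?_, ?_⟩
  · have := congrArg h h1
    simpa using this
  · have := congrArg h h2
    rw [map_mul, wr_map h D D' hh, map_pow, map_prod] at this
    simpa using this

end Pool.Agent.GBL
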