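import Pool.Agent.GBL.WrA
import Pool.Agent.GBL.WrB

/-!
# Module Loc (size 3): the local bound

`V` a valuation ring of the field `K`, stable under the derivation `D`, `a_j ∈ V`, `x_j ≠ 0`, `x_0 = 1`,
`∑ a_j x_j^d = 0`, `d ≥ m^2`, `e = d + 1 - m`, `W = wr D (a_1 x_1^d, ..., a_m x_m^d)`, `G * ∏_j x_j^e = W`.
Then `G * x_i ∈ V` for all `i` (in particular `G ∈ V`, `i = 0`).

PROOF SKETCH. Choose `j0` with `y_j := x_j / x_(j0) ∈ V` for all `j` (possible since `V` is a valuation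
ring: take `j0` maximal for `V.valuation`, `ValuationSubring.valuation_le_one_iff`). `y_(j0) = 1`.
By `wr_omit` (applied to `θ_j = a_j x_j^d`) `W = ± W'`, `W' = wr D (θ_j)_(j ≠ j0)`. Since
`θ_j = x_(j0)^d * (a_j y_j^d)`, `wr_smul` gives `W' = x_(j0)^(d m) * wr D (a_j y_j^d)_(j ≠ j0)`, and
`wr_div` (with `O = V.toSubring`) gives `wr D (a_j y_j^d)_(j≠j0) = (∏_(j≠j0) y_j^e) * r`, `r ∈ V`; here
`∏_(j≠j0) y_j^e = ∏_j y_j^e = ∏_j x_j^e / x_(j0)^((m+1) e)` (`Fin.prod_univ_succAbove`). So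
`G * ∏ x_j^e = ± x_(j0)^(d m) * ∏ x_j^e * r / x_(j0)^((m+1) e)`, and `(m+1) e = d m + q`, `q = d + 1 - m^2 ≥ 1`.
Cancel: `G = ± r / x_(j0)^q`. Finally `1 / x_(j0) = y_0 ∈ V` and
`G x_i = ± r * y_0^(q-1) * y_i ∈ V`.
-/

namespace Pool.Agent.GBL

private theorem Loc_max {K : Type*} [Field K] (V : ValuationSubring K) {m : ℕ}
    (x : Fin (m + 1) → K) (hx : ∀ j, x j ≠ 0) : ∃ j0, ∀ j, x j / x j0 ∈ V := by
  obtain ⟨j0, hj0⟩ := Finite.exists_max (fun j => V.valuation (x j))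
  refine ⟨j0, fun j => ?_⟩
  rw [← V.valuation_le_one_iff, map_div₀]
  have h0 : V.valuation (x j0) ≠ 0 := by
    rw [Ne, Valuation.zero_iff]; exact hx j0
  have hpos : 0 < V.valuation (x j0) := zero_lt_iff.mpr h0
  rw [div_le_one₀ hpos]
  exact hj0 j

theorem loc {A K : Type*} [CommRing A] [Field K] [Algebra A K] (D : Derivation A K K)
    (V : ValuationSubring K) (hDV : ∀ x ∈ V, D x ∈ V) {m d : ℕ} (hd : m ^ 2 ≤ d)
    (a x : Fin (m + 1) → K) (ha : ∀ j, a j ∈ V) (hx : ∀ j, x j ≠ 0) (hx0 : x 0 = 1)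
    (hsum : ∑ j, a j * x j ^ d = 0) (G : K)
    (hG : G * ∏ j, x j ^ (d + 1 - m) = wr D (fun j : Fin m => a j.succ * x j.succ ^ d))
    (i : Fin (m + 1)) : G * x i ∈ V := by
  obtain ⟨j0, hj0⟩ := Loc_max V x hx
  have hm : m ≤ d := le_trans (by nlinarith [Nat.zero_le m] : m ≤ m ^ 2) hd
  obtain ⟨q, hq⟩ : ∃ q, d = m ^ 2 + q := ⟨d - m ^ 2, by omega⟩
  have hexp : (d + 1 - m) * (m + 1) = d * m + (q + 1) := by
    obtain ⟨e, he⟩ : ∃ e, d = m + e := ⟨d - m, by omega⟩
    have h1 : d + 1 - m = e + 1 := by omega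
    rw [h1]
    have h2 : m + e = m ^ 2 + q := by omega
    rw [he]
    nlinarith
  set z : K := x j0 with hz
  have hz0 : z ≠ 0 := hx j0
  obtain ⟨r, hr, hwr⟩ := wr_div D V.toSubring (fun w hw => hDV w hw) (m := m) (d := d)
    (by omega) (fun j => a (j0.succAbove j)) (fun j => x (j0.succAbove j) / z)
    (fun j => ha _) (fun j => hj0 _)
  have hW' : wr D (fun j : Fin m => a (j0.succAbove j) * x (j0.succAbove j) ^ d) =
      (z ^ d) ^ m * ((∏ j : Fin m, (x (j0.succAbove j) / z) ^ (d + 1 - m)) * r) := by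
    rw [← hwr, ← wr_smul]
    congr 1
    funext j
    rw [div_pow]
    field_simp
  have hprod : ∏ j, x j ^ (d + 1 - m) =
      z ^ (d * m + (q + 1)) * ∏ j : Fin m, (x (j0.succAbove j) / z) ^ (d + 1 - m) := by
    rw [Fin.prod_univ_succAbove _ j0]
    have h1 : ∀ j : Fin m, x (j0.succAbove j) ^ (d + 1 - m) =
        z ^ (d + 1 - m) * (x (j0.succAbove j) / z) ^ (d + 1 - m) := by
      intro j
      rw [← mul_pow, mul_div_cancel₀ _ hz0]
    rw [Finset.prod_congr rfl (fun j _ => h1 j), Finset.prod_mul_distrib, Finset.prod_const,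
      Finset.card_univ, Fintype.card_fin, ← hexp]
    rw [← mul_assoc, ← pow_mul, ← pow_add]
    congr 2
    ring
  have hP : (∏ j : Fin m, (x (j0.succAbove j) / z) ^ (d + 1 - m)) ≠ 0 :=
    Finset.prod_ne_zero_iff.mpr fun j _ => pow_ne_zero _ (div_ne_zero (hx _) hz0)
  -- the key relation
  have hkey : G * z ^ (q + 1) = r ∨ G * z ^ (q + 1) = -r := by
    have hcase := wr_omit D (fun j => a j * x j ^ d) hsum j0
    rw [hW', ← hG, hprod] at hcase
    set P := ∏ j : Fin m, (x (j0.succAbove j) / z) ^ (d + 1 - m) with hPdef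
    have hzd : z ^ (d * m) ≠ 0 := pow_ne_zero _ hz0
    have hc : z ^ (d * m) * P ≠ 0 := mul_ne_zero hzd hP
    rcases hcase with h | h
    · left
      apply mul_left_cancel₀ hc
      rw [pow_add] at h
      rw [← pow_mul] at h
      linear_combination -h
    · right
      apply mul_left_cancel₀ hc
      rw [pow_add] at h
      rw [← pow_mul] at h
      linear_combination h
  have hy0 : 1 / z ∈ V := by
    have := hj0 0
    rwa [hx0] at this
  have hyi : x i / z ∈ V := hj0 i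
  have hmem : ∀ s ∈ V, G * z ^ (q + 1) = s → G * x i ∈ V := by
    intro s hs h
    have h1 : G * x i = s * (1 / z) ^ q * (x i / z) := by
      rw [← h, pow_succ, one_div, inv_pow]
      field_simp
    rw [h1]
    exact V.mul_mem _ _ (V.mul_mem _ _ hs (pow_mem hy0 q)) hyi
  rcases hkey with h | h
  · exact hmem r hr h
  · exact hmem (-r) (V.neg_mem _ hr) h

end Pool.Agent.GBL
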