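import Pool.Agent.GBL.WrA
import Pool.Agent.GBL.Loc
import Pool.Agent.GBL.Den
import Pool.Agent.GBL.LG

/-!
# Module Bd (size 3): the global bound

PROOF SKETCH. Let `A` be as in `den` (for `D` and the `a_j`), `D' = A • D`, `a'_j = A * a_j`. Let
`B = A^(m(m-1)/2 + m)`, which is in `Algebra.adjoin k {t}` and nonzero. Given `x` and `G`, put `G' = B * G`. Then
`wr D' (a'_j x_j^d) = A^(m(m-1)/2) * wr D (A * (a_j x_j^d)) = A^(m(m-1)/2) * A^m * wr D (a_j x_j^d)`
(`wr_smul_der`, `wr_smul`), so `G' * ∏ x_j^e = wr D' (a'_j x_j^d)`. Also `∑ a'_j x_j^d = 0`. By `den`,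
`D'` maps elements integral over `k[t]` to such elements. Now apply `lg` to `D'` and `f = B * (G * x_i)`: for each
`D'`-stable valuation ring `V` containing all integral elements, the `a'_j` are in `V`, and `loc` gives
`G' * x_i ∈ V`.
-/

open scoped IntermediateField

namespace Pool.Agent.GBL

theorem bd {k K : Type*} [Field k] [CharZero k] [Field K] [Algebra k K] (t : K)
    (ht : Transcendental k t) [FiniteDimensional k⟮t⟯ K] (D : Derivation k K K) {m d : ℕ}
    (hd : m ^ 2 ≤ d) (a : Fin (m + 1) → K) :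
    ∃ B ∈ Algebra.adjoin k {t}, B ≠ 0 ∧ ∀ x : Fin (m + 1) → K, (∀ j, x j ≠ 0) → x 0 = 1 →
      ∑ j, a j * x j ^ d = 0 →
      ∀ G : K, G * ∏ j, x j ^ (d + 1 - m) = wr D (fun j : Fin m => a j.succ * x j.succ ^ d) →
      ∀ i, IsIntegral (Algebra.adjoin k {t}) (B * (G * x i)) := by
  obtain ⟨A, hA, hA0, hAa, hAD⟩ := den t ht D a
  refine ⟨A ^ (m * (m - 1) / 2 + m), pow_mem hA _, pow_ne_zero _ hA0, ?_⟩
  intro x hx hx0 hsum G hG i
  have happ : ∀ f : K, (A • D : Derivation k K K) f = A * D f := fun f => rfl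
  apply lg t ht (A • D : Derivation k K K)
  · intro f hf
    rw [happ]
    exact hAD f hf
  · intro V hV hDV
    have hsum' : ∑ j, (A * a j) * x j ^ d = 0 := by
      have h1 : ∑ j, (A * a j) * x j ^ d = A * ∑ j, a j * x j ^ d := by
        rw [Finset.mul_sum]
        apply Finset.sum_congr rfl
        intro j _
        ring
      rw [h1, hsum, mul_zero]
    have hG' : (A ^ (m * (m - 1) / 2 + m) * G) * ∏ j, x j ^ (d + 1 - m) =
        wr (A • D : Derivation k K K) (fun j : Fin m => (A * a j.succ) * x j.succ ^ d) := by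
      rw [wr_smul_der]
      have h2 : (fun j : Fin m => (A * a j.succ) * x j.succ ^ d) =
          fun j : Fin m => A * (a j.succ * x j.succ ^ d) := by
        funext j
        ring
      rw [h2, wr_smul, ← hG, pow_add]
      ring
    have h3 := loc (A • D : Derivation k K K) V hDV hd (fun j => A * a j) x
      (fun j => hV _ (hAa j)) hx hx0 hsum' (A ^ (m * (m - 1) / 2 + m) * G) hG' i
    rw [← mul_assoc]
    exact h3

end Pool.Agent.GBL
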