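import Pool.Agent.GBL.Def

/-!
# Module Blk (size 3): from primitive points to all points

Assume ratio finiteness `RF k C d`. Then there is a finite set `S` of pairs `(b, T)`, `b ∈ K^ι`, `T` a `k`-subspace of
`k^ι` with `b^d T ⊆ C`, such that every `x` with `x^d ∈ C` has the form `x_j = l_j (b_j c_j)` with `(b, T) ∈ S`, `c ∈ k^ι`,
`l ∈ K^ι`, and for each value `v` the part of `c^d` on `{j : l_j = v}` is in `T`; and if `x` is primitive then `l` may be
taken constant.

PROOF SKETCH. Let `F` be the finite set of `RF`; `B` the finite set of all `b : ι → K` with values in `F ∪ {0}`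
(`Set.Finite.pi`), `T_b = {w ∈ k^ι : w_j = 0 where b_j = 0, and (b_j^d w_j)_j ∈ C}` (a `k`-subspace), `S = {(b, T_b) : b ∈ B}`.
Let `x^d ∈ C`. Call `Q ⊆ ι` good if `Q.indicator (x^d) ∈ C`; unions of disjoint good sets, differences of nested
good sets are good. Claim: for each good `Q` the statement (*) holds: there are `b ∈ B`, `c ∈ k^ι`, `l ∈ K^ι` with
`x_j = l_j b_j c_j` for `j ∈ Q`, `b_j = 0`, `c_j = 0` for `j ∉ Q` or `x_j = 0`, each `{j ∈ Q, x_j ≠ 0, l_j = v}` being a union of disjoint good sets. Strong
induction on `card (Q ∩ support x)`. If `x 1_Q` is primitive: `x 1_Q = 0` is trivial; otherwise fix `j0` with `x_(j0) ≠ 0`,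
`j0 ∈ Q`, and let `l = x_(j0)`, `b_j = f`, `c_j = c` from `RF` for the pair `(j, j0)` (`x 1_Q` in place of `x`), for `j ∈ Q ∩ support x`. If it is not
primitive there is `Q'` with `Q' ∩ Q` good, with `x` not identically 0 on `Q ∩ Q'` and on `Q - Q'` (`Q'.indicator` of
`(x 1_Q)^d`; `d > 0`), and both parts are good with smaller support: glue the data of the parts.
Since for `v ≠ 0` `b^d (c^d 1_{l=v}) = v^(-d) x^d 1_{l=v, b≠0..} ∈ C`, one gets `c^d 1_{l=v} ∈ T_b`; to have this also for `v = 0`
choose `c_j = 0` where `x_j = 0` and `l_j ≠ 0` elsewhere (`l_j = x_(j0) ≠ 0` in the construction). If `x` itself is primitive the construction has one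
block.
-/

open Function

namespace Pool.Agent.GBL

/-- The `k`-space attached to `b`. -/
private def blkT (k : Type*) {K ι : Type*} [Field k] [Field K] [Algebra k K]
    (C : Submodule K (ι → K)) (d : ℕ) (b : ι → K) : Submodule k (ι → k) where
  carrier := {w | (∀ j, b j = 0 → w j = 0) ∧ (fun j => b j ^ d * algebraMap k K (w j)) ∈ C}
  add_mem' := by
    rintro u v ⟨hu1, hu2⟩ ⟨hv1, hv2⟩
    refine ⟨fun j hj => by rw [Pi.add_apply, hu1 j hj, hv1 j hj, add_zero], ?_⟩
    have : (fun j => b j ^ d * algebraMap k K ((u + v) j)) =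
        (fun j => b j ^ d * algebraMap k K (u j)) + (fun j => b j ^ d * algebraMap k K (v j)) := by
      funext j; simp only [Pi.add_apply, map_add, mul_add]
    rw [this]
    exact C.add_mem hu2 hv2
  zero_mem' := by
    refine ⟨fun j _ => rfl, ?_⟩
    have : (fun j => b j ^ d * algebraMap k K ((0 : ι → k) j)) = 0 := by
      funext j; simp
    rw [this]
    exact C.zero_mem
  smul_mem' := by
    rintro a u ⟨hu1, hu2⟩
    refine ⟨fun j hj => by rw [Pi.smul_apply, hu1 j hj, smul_zero], ?_⟩
    have : (fun j => b j ^ d * algebraMap k K ((a • u) j)) =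
        (algebraMap k K a) • (fun j => b j ^ d * algebraMap k K (u j)) := by
      funext j; simp only [Pi.smul_apply, smul_eq_mul, map_mul]; ring
    rw [this]
    exact C.smul_mem _ hu2

private theorem blk_prim {k K : Type*} [Field k] [Field K] [Algebra k K] {ι : Type*}
    (C : Submodule K (ι → K)) (d : ℕ) (hd0 : 0 < d) (F : Set K)
    (hF : ∀ x : ι → K, (fun j => x j ^ d) ∈ C → Prim C d x →
      ∀ i j, x i ≠ 0 → x j ≠ 0 → ∃ f ∈ F, ∃ c : k, x i = x j * (f * algebraMap k K c))
    (y : ι → K) (hy : (fun j => y j ^ d) ∈ C) (hP : Prim C d y) :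
    ∃ (b : ι → K) (c : ι → k) (l : K), (∀ j, b j ∈ F ∪ {0}) ∧
      (∀ j, y j = l * (b j * algebraMap k K (c j))) ∧ (∀ j, y j = 0 → c j = 0) ∧
      (∀ j, b j = 0 → c j = 0) ∧ (fun j => b j ^ d * algebraMap k K (c j ^ d)) ∈ C := by
  classical
  by_cases h0 : ∀ j, y j = 0
  · refine ⟨fun _ => 0, fun _ => 0, 0, fun j => Or.inr rfl, fun j => by simp [h0 j],
      fun _ _ => rfl, fun _ _ => rfl, ?_⟩
    have : (fun j : ι => (0 : K) ^ d * algebraMap k K ((0 : k) ^ d)) = 0 := by
      funext j; simp [hd0.ne']
    rw [this]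
    exact C.zero_mem
  · push Not at h0
    obtain ⟨j0, hj0⟩ := h0
    have h1 : ∀ j, ∃ (f : K) (c : k), (y j ≠ 0 → f ∈ F ∧ y j = y j0 * (f * algebraMap k K c)) ∧
        (y j = 0 → f = 0 ∧ c = 0) := by
      intro j
      by_cases hj : y j = 0
      · exact ⟨0, 0, fun h => absurd hj h, fun _ => ⟨rfl, rfl⟩⟩
      · obtain ⟨f, hf, c, hc⟩ := hF y hy hP j j0 hj hj0
        exact ⟨f, c, fun _ => ⟨hf, hc⟩, fun h => absurd h hj⟩
    choose b c h2 h3 using h1
    have h4 : ∀ j, y j = y j0 * (b j * algebraMap k K (c j)) := by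
      intro j
      by_cases hj : y j = 0
      · rw [(h3 j hj).1, (h3 j hj).2, hj]; simp
      · exact (h2 j hj).2
    refine ⟨b, c, y j0, ?_, h4, fun j hj => (h3 j hj).2, ?_, ?_⟩
    · intro j
      by_cases hj : y j = 0
      · exact Or.inr (h3 j hj).1
      · exact Or.inl (h2 j hj).1
    · intro j hb
      by_cases hj : y j = 0
      · exact (h3 j hj).2
      · exfalso
        apply hj
        rw [h4 j, hb]; simp
    · have : (fun j => b j ^ d * algebraMap k K (c j ^ d)) = ((y j0 ^ d)⁻¹) • (fun j => y j ^ d) := by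
        funext j
        rw [Pi.smul_apply, smul_eq_mul]
        have h5 := h4 j
        have h6 : y j ^ d = y j0 ^ d * (b j ^ d * algebraMap k K (c j ^ d)) := by
          rw [h5, mul_pow, mul_pow, map_pow]
        show b j ^ d * algebraMap k K (c j ^ d) = (y j0 ^ d)⁻¹ * (y j ^ d)
        rw [h6, ← mul_assoc, inv_mul_cancel₀ (pow_ne_zero d hj0), one_mul]
      rw [this]
      exact C.smul_mem _ hy

private theorem blk_all {k K : Type*} [Field k] [Field K] [Algebra k K] {ι : Type*} [Fintype ι]
    (C : Submodule K (ι → K)) (d : ℕ) (hd0 : 0 < d) (F : Set K)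
    (hF : ∀ x : ι → K, (fun j => x j ^ d) ∈ C → Prim C d x →
      ∀ i j, x i ≠ 0 → x j ≠ 0 → ∃ f ∈ F, ∃ c : k, x i = x j * (f * algebraMap k K c)) :
    ∀ (n : ℕ) (y : ι → K), (support y).ncard ≤ n → (fun j => y j ^ d) ∈ C →
    ∃ (b : ι → K) (c : ι → k) (l : ι → K), (∀ j, b j ∈ F ∪ {0}) ∧
      (∀ j, y j = l j * (b j * algebraMap k K (c j))) ∧ (∀ j, y j = 0 → c j = 0) ∧
      (∀ j, b j = 0 → c j = 0) ∧
      ∀ v : K, (fun j => b j ^ d * algebraMap k K ({j | l j = v}.indicator (fun j => c j ^ d) j)) ∈ C := by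
  classical
  intro n
  induction n with
  | zero =>
    intro y hn hy
    have hsupp : support y = ∅ := by
      rw [← Set.ncard_eq_zero (Set.toFinite _)]; omega
    have h0 : ∀ j, y j = 0 := by
      intro j
      by_contra hj
      have : j ∈ support y := hj
      rw [hsupp] at this
      exact this
    refine ⟨fun _ => 0, fun _ => 0, fun _ => 0, fun j => Or.inr rfl, fun j => by simp [h0 j],
      fun _ _ => rfl, fun _ _ => rfl, fun v => ?_⟩
    have : (fun j : ι => (0 : K) ^ d * algebraMap k K
        ({j : ι | (0 : K) = v}.indicator (fun _ => (0 : k) ^ d) j)) = 0 := by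
      funext j; simp [hd0.ne']
    rw [this]
    exact C.zero_mem
  | succ n ih =>
    intro y hn hy
    by_cases hP : Prim C d y
    · obtain ⟨b, c, l, h1, h2, h3, h4, h5⟩ := blk_prim C d hd0 F hF y hy hP
      refine ⟨b, c, fun _ => l, h1, h2, h3, h4, fun v => ?_⟩
      by_cases hv : l = v
      · have : (fun j => b j ^ d * algebraMap k K
            ({j : ι | l = v}.indicator (fun j => c j ^ d) j)) =
            (fun j => b j ^ d * algebraMap k K (c j ^ d)) := by
          funext j
          rw [Set.indicator_of_mem]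
          exact hv
        rw [this]
        exact h5
      · have : (fun j => b j ^ d * algebraMap k K
            ({j : ι | l = v}.indicator (fun j => c j ^ d) j)) = 0 := by
          funext j
          rw [Set.indicator_of_notMem]
          · simp
          · exact hv
        rw [this]
        exact C.zero_mem
    · unfold Prim at hP
      push Not at hP
      obtain ⟨Q, hQ, ⟨i1, hi1, hyi1⟩, ⟨i2, hi2, hyi2⟩⟩ := hP
      have e1 : (fun j => (Q.indicator y j) ^ d) = Q.indicator (fun j => y j ^ d) := by
        funext j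
        by_cases hj : j ∈ Q
        · rw [Set.indicator_of_mem hj, Set.indicator_of_mem hj]
        · rw [Set.indicator_of_notMem hj, Set.indicator_of_notMem hj, zero_pow hd0.ne']
      have e2 : (fun j => (Qᶜ.indicator y j) ^ d) =
          (fun j => y j ^ d) - Q.indicator (fun j => y j ^ d) := by
        funext j
        by_cases hj : j ∈ Q
        · rw [Set.indicator_of_notMem (by simpa using hj), Pi.sub_apply,
            Set.indicator_of_mem hj, zero_pow hd0.ne', sub_self]
        · rw [Set.indicator_of_mem (by simpa using hj), Pi.sub_apply,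
            Set.indicator_of_notMem hj, sub_zero]
      have m1 : (fun j => (Q.indicator y j) ^ d) ∈ C := by rw [e1]; exact hQ
      have m2 : (fun j => (Qᶜ.indicator y j) ^ d) ∈ C := by rw [e2]; exact C.sub_mem hy hQ
      have s1 : (support (Q.indicator y)).ncard ≤ n := by
        have : support (Q.indicator y) ⊂ support y := by
          rw [Set.ssubset_iff_of_subset (by rw [Set.support_indicator]; exact Set.inter_subset_right)]
          exact ⟨i2, hyi2, by rw [Set.support_indicator]; exact fun h => hi2 h.1⟩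
        have := Set.ncard_lt_ncard this (Set.toFinite _)
        omega
      have s2 : (support (Qᶜ.indicator y)).ncard ≤ n := by
        have : support (Qᶜ.indicator y) ⊂ support y := by
          rw [Set.ssubset_iff_of_subset (by rw [Set.support_indicator]; exact Set.inter_subset_right)]
          exact ⟨i1, hyi1, by rw [Set.support_indicator]; exact fun h => h.1 hi1⟩
        have := Set.ncard_lt_ncard this (Set.toFinite _)
        omega
      obtain ⟨b1, c1, l1, a1, a2, a3, a4, a5⟩ := ih _ s1 m1
      obtain ⟨b2, c2, l2, t1, t2, t3, t4, t5⟩ := ih _ s2 m2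
      refine ⟨fun j => if j ∈ Q then b1 j else b2 j, fun j => if j ∈ Q then c1 j else c2 j,
        fun j => if j ∈ Q then l1 j else l2 j, ?_, ?_, ?_, ?_, ?_⟩
      · intro j
        by_cases hj : j ∈ Q
        · simpa only [hj, if_true] using a1 j
        · simpa only [hj, if_false] using t1 j
      · intro j
        by_cases hj : j ∈ Q
        · simp only [hj, if_true]
          rw [← a2 j, Set.indicator_of_mem hj]
        · simp only [hj, if_false]
          rw [← t2 j, Set.indicator_of_mem (by simpa using hj)]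
      · intro j hyj
        by_cases hj : j ∈ Q
        · simp only [hj, if_true]
          exact a3 j (by rw [Set.indicator_of_mem hj]; exact hyj)
        · simp only [hj, if_false]
          exact t3 j (by rw [Set.indicator_of_mem (by simpa using hj)]; exact hyj)
      · intro j hb
        by_cases hj : j ∈ Q
        · simp only [hj, if_true] at hb ⊢
          exact a4 j hb
        · simp only [hj, if_false] at hb ⊢
          exact t4 j hb
      · intro v
        have key : (fun j => (if j ∈ Q then b1 j else b2 j) ^ d * algebraMap k K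
            ({j | (if j ∈ Q then l1 j else l2 j) = v}.indicator
              (fun j => (if j ∈ Q then c1 j else c2 j) ^ d) j)) =
            (fun j => b1 j ^ d * algebraMap k K ({j | l1 j = v}.indicator (fun j => c1 j ^ d) j)) +
            (fun j => b2 j ^ d * algebraMap k K ({j | l2 j = v}.indicator (fun j => c2 j ^ d) j)) := by
          funext j
          rw [Pi.add_apply]
          simp only [Set.indicator_apply, Set.mem_setOf_eq]
          by_cases hj : j ∈ Q
          · have hc2 : c2 j = 0 := t3 j (by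
              rw [Set.indicator_of_notMem (by simpa using hj)])
            simp only [hj, if_true, hc2, zero_pow hd0.ne', ite_self, map_zero, mul_zero, add_zero]
          · have hc1 : c1 j = 0 := a3 j (by rw [Set.indicator_of_notMem hj])
            simp only [hj, if_false, hc1, zero_pow hd0.ne', ite_self, map_zero, mul_zero, zero_add]
        rw [key]
        exact C.add_mem (a5 v) (t5 v)

theorem blk {k K : Type*} [Field k] [Field K] [Algebra k K] {ι : Type*} [Fintype ι]
    (C : Submodule K (ι → K)) (d : ℕ) (hd0 : 0 < d) (h : RF k C d) :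
    ∃ S : Set ((ι → K) × Submodule k (ι → k)), S.Finite ∧
      (∀ p ∈ S, ∀ w ∈ p.2, (∀ j, p.1 j = 0 → w j = 0) ∧
        (fun j => p.1 j ^ d * algebraMap k K (w j)) ∈ C) ∧
      (∀ x : ι → K, (fun j => x j ^ d) ∈ C → ∃ p ∈ S, ∃ (l : ι → K) (c : ι → k),
        (∀ j, x j = l j * (p.1 j * algebraMap k K (c j))) ∧
        ∀ v : K, {j | l j = v}.indicator (fun j => c j ^ d) ∈ p.2) ∧
      (∀ x : ι → K, (fun j => x j ^ d) ∈ C → Prim C d x → ∃ p ∈ S, ∃ (l : K) (c : ι → k),
        (∀ j, x j = l * (p.1 j * algebraMap k K (c j))) ∧ (fun j => c j ^ d) ∈ p.2) := by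
  classical
  obtain ⟨F, hFfin, hF⟩ := h
  refine ⟨(fun b => (b, blkT k C d b)) '' {b : ι → K | ∀ j, b j ∈ F ∪ {0}}, ?_, ?_, ?_, ?_⟩
  · apply Set.Finite.image
    have h1 : (F ∪ {0}).Finite := hFfin.union (Set.finite_singleton 0)
    exact Set.Finite.pi' (fun _ => h1)
  · rintro _ ⟨b, _, rfl⟩ w hw
    exact hw
  · intro x hx
    obtain ⟨b, c, l, h1, h2, h3, h4, h5⟩ := blk_all C d hd0 F hF _ x le_rfl hx
    refine ⟨(b, blkT k C d b), ⟨b, h1, rfl⟩, l, c, h2, fun v => ⟨?_, h5 v⟩⟩
    intro j hj
    simp only [Set.indicator_apply, h4 j hj, zero_pow hd0.ne', ite_self]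
  · intro x hx hP
    obtain ⟨b, c, l, h1, h2, h3, h4, h5⟩ := blk_prim C d hd0 F hF x hx hP
    refine ⟨(b, blkT k C d b), ⟨b, h1, rfl⟩, l, c, h2, ?_, h5⟩
    intro j hj
    show c j ^ d = 0
    rw [h4 j hj, zero_pow hd0.ne']

end Pool.Agent.GBL
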