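import Pool.Agent.GBL.Main1
import Pool.Agent.GBL.Blk

/-!
# Geometric Bombieri-Lang for diagonal varieties over function fields

`K / k` is a finitely generated extension of fields of characteristic `0` with `k` algebraically closed in `K`.
A *diagonal variety* in the projective space of `K^ι` is cut out by equations
`∑_j a_ij x_j^d = 0`, i.e. it is the set of `x` with `x^d = (x_j^d)_j ∈ C` for a `K`-subspace `C` of `K^ι`;
its dimension is `dim C - 1`.
-/

open Function

namespace Pool.Agent.GBL.DiagonalVarieties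

open Pool.Agent.GBL

/-- A point that is not primitive lies on a line contained in the variety. -/
theorem line_of_not_prim {K ι : Type*} [Field K] (C : Submodule K (ι → K)) {d : ℕ} (hd0 : 0 < d)
    (x : ι → K) (hx : (fun j => x j ^ d) ∈ C) (h : ¬ Prim C d x) :
    ∃ y z : ι → K, LinearIndependent K ![y, z] ∧ x = y + z ∧
      ∀ u v : K, (fun j => (u * y j + v * z j) ^ d) ∈ C := by
  classical
  unfold Prim at h
  push Not at h
  obtain ⟨Q, hQ, ⟨i, hiQ, hi⟩, ⟨j, hjQ, hj⟩⟩ := h
  refine ⟨Q.indicator x, Qᶜ.indicator x, ?_, ?_, ?_⟩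
  · rw [LinearIndependent.pair_iff]
    intro s t hst
    constructor
    · have := congrFun hst i
      simp [hiQ] at this
      exact this.resolve_right hi
    · have := congrFun hst j
      simp [hjQ] at this
      exact this.resolve_right hj
  · rw [Set.indicator_self_add_compl]
  · intro u v
    have h1 : (fun j => (u * Q.indicator x j + v * Qᶜ.indicator x j) ^ d) =
        (u ^ d - v ^ d) • Q.indicator (fun j => x j ^ d) + v ^ d • (fun j => x j ^ d) := by
      funext l
      by_cases hl : l ∈ Q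
      · simp [hl, mul_pow]; ring
      · simp [hl, mul_pow]
    rw [h1]
    exact C.add_mem (C.smul_mem _ hQ) (C.smul_mem _ hx)

theorem result {k K : Type*} [Field k] [CharZero k] [Field K] [Algebra k K]
    [Algebra.EssFiniteType k K]
    (hk : ∀ x : K, IsAlgebraic k x → ∃ c : k, algebraMap k K c = x)
    {ι : Type*} [Finite ι] (C : Submodule K (ι → K)) {d : ℕ} (hd0 : 0 < d)
    (hd : (Module.finrank K C) ^ 2 ≤ d) :
    ∃ S : Set ((ι → K) × Submodule k (ι → k)), S.Finite ∧
      (∀ p ∈ S, ∀ w ∈ p.2, (∀ j, p.1 j = 0 → w j = 0) ∧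
        (fun j => p.1 j ^ d * algebraMap k K (w j)) ∈ C) ∧
      (∀ x : ι → K, (fun j => x j ^ d) ∈ C →
        (∃ y z : ι → K, LinearIndependent K ![y, z] ∧ x = y + z ∧
          ∀ u v : K, (fun j => (u * y j + v * z j) ^ d) ∈ C) ∨
        ∃ p ∈ S, ∃ (l : K) (c : ι → k), (∀ j, x j = l * (p.1 j * algebraMap k K (c j))) ∧
          (fun j => c j ^ d) ∈ p.2) ∧
      (∀ x : ι → K, (fun j => x j ^ d) ∈ C ↔ ∃ p ∈ S, ∃ (l : ι → K) (c : ι → k),
        (∀ j, x j = l j * (p.1 j * algebraMap k K (c j))) ∧
        ∀ v : K, {j | l j = v}.indicator (fun j => c j ^ d) ∈ p.2) := by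
  classical
  haveI := Fintype.ofFinite ι
  obtain ⟨S, hS, h1, h2, h3⟩ := blk C d hd0 (rf_all hk C hd hd0)
  refine ⟨S, hS, h1, ?_, ?_⟩
  · intro x hx
    by_cases hp : Prim C d x
    · exact Or.inr (h3 x hx hp)
    · exact Or.inl (line_of_not_prim C hd0 x hx hp)
  · intro x
    refine ⟨h2 x, ?_⟩
    rintro ⟨p, hp, l, c, hx, hc⟩
    have h4 : (fun j => x j ^ d) = ∑ v ∈ Finset.univ.image l,
        v ^ d • (fun j => p.1 j ^ d * algebraMap k K
          ({j | l j = v}.indicator (fun j => c j ^ d) j)) := by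
      funext j
      rw [Finset.sum_apply, Finset.sum_eq_single (l j)]
      · simp [hx j, mul_pow]
      · intro v _ hv
        simp [Set.indicator, Ne.symm hv]
      · intro h
        exact absurd (Finset.mem_image_of_mem l (Finset.mem_univ j)) h
    rw [h4]
    exact C.sum_mem fun v _ => C.smul_mem _ (h1 p hp _ (hc v)).2

end Pool.Agent.GBL.DiagonalVarieties
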