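import Mathlib

/-!
Common definitions for the squad GBL (geometric Bombieri-Lang for diagonal varieties over
function fields, MP_46885d_ag).
-/

open scoped TensorProduct IntermediateField
open Function

namespace Pool.Agent.GBL

/-- The Wronskian determinant `det (D^i θ_j)` of `θ` for the map `D`. -/
noncomputable def wr {B : Type*} [CommRing B] (D : B → B) {m : ℕ} (θ : Fin m → B) : B :=
  Matrix.det (Matrix.of fun i j : Fin m => D^[(i : ℕ)] (θ j))

/-- The normalised system: `∑ a_j y_j^d = 0` and
`W(a_1 y_1^d, ..., a_m y_m^d) * y_0^(d - m^2) = (y_0 ... y_m)^(d + 1 - m)`. -/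
def Sys {B : Type*} [CommRing B] (D : B → B) (m d : ℕ) (a y : Fin (m + 1) → B) : Prop :=
  ∑ j, a j * y j ^ d = 0 ∧
  wr D (fun j : Fin m => a j.succ * y j.succ ^ d) * y 0 ^ (d - m ^ 2) =
    ∏ j, y j ^ (d + 1 - m)

/-- The base change `1 ⊗ D` of a derivation of `K` over `k` to `R ⊗ K`. -/
noncomputable def bD {k K : Type*} [Field k] [Field K] [Algebra k K]
    (R : Type*) [CommRing R] [Algebra k R] (D : Derivation k K K) :
    Derivation R (R ⊗[k] K) (R ⊗[k] K) :=
  Derivation.mk' ((D : K →ₗ[k] K).baseChange R) (by
    intro a b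
    induction a using TensorProduct.induction_on with
    | zero => simp
    | add a1 a2 h1 h2 => rw [add_mul, map_add, h1, h2, map_add]; simp only [add_smul, smul_add]; abel
    | tmul r x =>
      induction b using TensorProduct.induction_on with
      | zero => simp
      | add b1 b2 h1 h2 => rw [mul_add, map_add, h1, h2, map_add]; simp only [add_smul, smul_add]; abel
      | tmul s y =>
        simp only [Algebra.TensorProduct.tmul_mul_tmul, LinearMap.baseChange_tmul, smul_eq_mul,
          Derivation.coeFn_coe, Derivation.leibniz, TensorProduct.tmul_add]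
        rw [mul_comm s r])

@[simp] theorem bD_tmul {k K : Type*} [Field k] [Field K] [Algebra k K]
    (R : Type*) [CommRing R] [Algebra k R] (D : Derivation k K K) (r : R) (x : K) :
    bD R D (r ⊗ₜ[k] x) = r ⊗ₜ[k] D x := rfl

/-- Support-minimal nonzero vectors of a subspace of coordinate space. -/
def IsCirc {F ι : Type*} [Field F] (U : Submodule F (ι → F)) (r : ι → F) : Prop :=
  r ∈ U ∧ r ≠ 0 ∧ ∀ r' ∈ U, r' ≠ 0 → support r' ⊆ support r → support r' = support r

/-- The space of linear relations satisfied by all vectors of `C`. -/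
def ann {K ι : Type*} [Field K] [Fintype ι] (C : Submodule K (ι → K)) : Submodule K (ι → K) where
  carrier := {r | ∀ w ∈ C, ∑ j, r j * w j = 0}
  add_mem' := by
    intro r s hr hs w hw
    simp only [Pi.add_apply, add_mul, Finset.sum_add_distrib]
    rw [hr w hw, hs w hw, add_zero]
  zero_mem' := by intro w _; simp
  smul_mem' := by
    intro c r hr w hw
    simp only [Pi.smul_apply, smul_eq_mul, mul_assoc]
    rw [← Finset.mul_sum, hr w hw, mul_zero]

/-- The space of `k`-linear relations of the family `θ`. -/
def rel (k : Type*) {K ι : Type*} [Field k] [Field K] [Algebra k K] [Fintype ι] (θ : ι → K) :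
    Submodule k (ι → k) where
  carrier := {e | ∑ j, algebraMap k K (e j) * θ j = 0}
  add_mem' := by
    intro r s hr hs
    simp only [Set.mem_setOf_eq, Pi.add_apply, map_add, add_mul, Finset.sum_add_distrib] at *
    rw [hr, hs, add_zero]
  zero_mem' := by simp
  smul_mem' := by
    intro c r hr
    simp only [Set.mem_setOf_eq, Pi.smul_apply, smul_eq_mul, map_mul, mul_assoc] at *
    rw [← Finset.mul_sum, hr, mul_zero]

/-- The point `x` is primitive: if the part of `x^d` on `Q` lies in `C` then `x` vanishes on `Q`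
or outside `Q`. -/
def Prim {K ι : Type*} [Field K] (C : Submodule K (ι → K)) (d : ℕ) (x : ι → K) : Prop :=
  ∀ Q : Set ι, Q.indicator (fun j => x j ^ d) ∈ C → (∀ j ∈ Q, x j = 0) ∨ (∀ j ∉ Q, x j = 0)

/-- Ratio finiteness: the ratios of nonzero coordinates of primitive points `x` with `x^d ∈ C`
lie in finitely many classes modulo the constants. -/
def RF (k : Type*) {K ι : Type*} [Field k] [Field K] [Algebra k K]
    (C : Submodule K (ι → K)) (d : ℕ) : Prop :=
  ∃ F : Set K, F.Finite ∧ ∀ x : ι → K, (fun j => x j ^ d) ∈ C → Prim C d x →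
    ∀ i j, x i ≠ 0 → x j ≠ 0 → ∃ f ∈ F, ∃ c : k, x i = x j * (f * algebraMap k K c)

end Pool.Agent.GBL
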