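import Pool.Agent.GBL.Def

/-!
# Module Der (size 4): a derivation with field of constants `k`
-/

open scoped IntermediateField TensorProduct
open Polynomial

namespace Pool.Agent.GBL

private theorem der_exists {k K : Type*} [Field k] [CharZero k] [Field K] [Algebra k K] (t : K)
    (ht : Transcendental k t) [FiniteDimensional k⟮t⟯ K] :
    ∃ D : Derivation k K K, D t = 1 := by
  classical
  open scoped IntermediateField.algebraAdjoinAdjoin in
  have hinj : Function.Injective (aeval t : k[X] →ₐ[k] K) := transcendental_iff_injective.mp ht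
  let e : Algebra.adjoin k {t} ≃ₐ[k] k[X] :=
    ((AlgEquiv.ofInjective _ hinj).trans (Subalgebra.equivOfEq _ _
      (Algebra.adjoin_singleton_eq_range_aeval k t).symm)).symm
  have he : ∀ x : Algebra.adjoin k {t}, aeval t (e x) = (x : K) := by
    intro x
    obtain ⟨p, rfl⟩ := e.symm.surjective x
    rw [AlgEquiv.apply_symm_apply]
    rfl
  let d0 : Derivation k (Algebra.adjoin k {t}) K := Derivation.mk'
    ((aeval t : k[X] →ₐ[k] K).toLinearMap ∘ₗ Polynomial.derivative ∘ₗ e.toLinearMap) (by
      intro a b
      simp only [LinearMap.comp_apply, AlgEquiv.toLinearMap_apply, AlgHom.toLinearMap_apply,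
        map_mul, Polynomial.derivative_mul, map_add]
      rw [he, he]
      show _ = (a : K) * _ + (b : K) * _
      ring)
  have hd0 : d0 ⟨t, Algebra.self_mem_adjoin_singleton k t⟩ = 1 := by
    have h1 : e ⟨t, Algebra.self_mem_adjoin_singleton k t⟩ = X := by
      apply hinj
      rw [he, aeval_X]
    show aeval t (Polynomial.derivative (e ⟨t, Algebra.self_mem_adjoin_singleton k t⟩)) = 1
    rw [h1]
    simp
  have : CharZero k⟮t⟯ := charZero_of_injective_algebraMap (algebraMap k k⟮t⟯).injective
  have i1 : Algebra.FormallyEtale (Algebra.adjoin k {t}) k⟮t⟯ :=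
    Algebra.FormallyEtale.of_isLocalization (nonZeroDivisors (Algebra.adjoin k {t}))
  have i2 : Algebra.FormallyEtale k⟮t⟯ K := Algebra.FormallyEtale.of_isSeparable _ _
  have i3 : Algebra.FormallyEtale (Algebra.adjoin k {t}) K :=
    Algebra.FormallyEtale.comp (Algebra.adjoin k {t}) k⟮t⟯ K
  let φ : Ω[K⁄k] →ₗ[K] K := (LinearMap.liftBaseChange K d0.liftKaehlerDifferential) ∘ₗ
    (KaehlerDifferential.tensorKaehlerEquivOfFormallyEtale k (Algebra.adjoin k {t})
      K).symm.toLinearMap
  refine ⟨φ.compDer (KaehlerDifferential.D k K), ?_⟩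
  have h2 := KaehlerDifferential.tensorKaehlerEquivOfFormallyEtale_symm_D_algebraMap k
    (Algebra.adjoin k {t}) K ⟨t, Algebra.self_mem_adjoin_singleton k t⟩
  show LinearMap.liftBaseChange K d0.liftKaehlerDifferential
    ((KaehlerDifferential.tensorKaehlerEquivOfFormallyEtale k (Algebra.adjoin k {t}) K).symm
      (KaehlerDifferential.D k K t)) = 1
  erw [h2]
  rw [LinearMap.liftBaseChange_tmul, Derivation.liftKaehlerDifferential_comp_D, hd0, one_smul]

private theorem der_exch {k K : Type*} [Field k] [Field K] [Algebra k K] (t : K)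
    (ht : Transcendental k t) [FiniteDimensional k⟮t⟯ K] (x : K) (hx : Transcendental k x) :
    IsAlgebraic k⟮x⟯ t := by
  classical
  open scoped IntermediateField.algebraAdjoinAdjoin in
  have h1 : Algebra.IsAlgebraic (Algebra.adjoin k {t}) K :=
    Algebra.IsAlgebraic.trans (Algebra.adjoin k {t}) k⟮t⟯ K
  have h2 : Algebra.trdeg k K ≤ 1 := by
    have := Algebra.IsAlgebraic.trdeg_le_cardinalMk k ({t} : Set K)
    simpa using this
  have h3 : AlgebraicIndependent k (fun _ : Unit => x) :=
    algebraicIndependent_unique_type_iff.mpr hx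
  have h4 : IsTranscendenceBasis k (fun _ : Unit => x) :=
    h3.isTranscendenceBasis_of_lift_trdeg_le_of_finite (by simpa using h2)
  have h5 := h4.isAlgebraic
  have h6 : IsAlgebraic (Algebra.adjoin k {x}) t := by
    have := h5.isAlgebraic t
    rwa [show Set.range (fun _ : Unit => x) = {x} from Set.range_const] at this
  refine h6.extendScalars (S := k⟮x⟯) ?_
  intro a b hab
  exact Subtype.ext (congrArg (fun z : k⟮x⟯ => (z : K)) hab)

private theorem der_main {k K : Type*} [Field k] [CharZero k] [Field K] [Algebra k K] (t x : K)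
    (D : Derivation k K K) (hD : D t = 1) (hx : D x = 0) (h : IsAlgebraic k⟮x⟯ t) : False := by
  classical
  have hconst : ∀ y ∈ k⟮x⟯, D y = 0 := by
    intro y hy
    induction hy using IntermediateField.adjoin_induction with
    | mem z hz => rw [Set.mem_singleton_iff.mp hz]; exact hx
    | algebraMap c => exact D.map_algebraMap c
    | add a b _ _ ha hb => rw [map_add, ha, hb, add_zero]
    | inv a _ ha =>
      rw [Derivation.leibniz_inv, ha, smul_zero]
    | mul a b _ _ ha hb => rw [Derivation.leibniz, ha, hb, smul_zero, smul_zero, add_zero]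
  let D' : Derivation k⟮x⟯ K K := Derivation.mk'
    { toFun := D
      map_add' := fun a b => map_add D a b
      map_smul' := by
        intro c y
        show D ((c : K) * y) = (c : K) * D y
        rw [Derivation.leibniz, hconst c c.2, smul_zero, add_zero, smul_eq_mul] }
    (fun a b => D.leibniz a b)
  have hD' : D' t = 1 := hD
  have h1 := D'.map_aeval (minpoly k⟮x⟯ t) t
  rw [minpoly.aeval, map_zero, hD', smul_eq_mul, mul_one] at h1
  have : CharZero k⟮x⟯ := charZero_of_injective_algebraMap (algebraMap k k⟮x⟯).injective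
  have h2 : (minpoly k⟮x⟯ t).Separable := (minpoly.irreducible h.isIntegral).separable
  exact h2.aeval_derivative_ne_zero (minpoly.aeval _ _) h1.symm

theorem der {k K : Type*} [Field k] [CharZero k] [Field K] [Algebra k K] (t : K)
    (ht : Transcendental k t) [FiniteDimensional k⟮t⟯ K]
    (hk : ∀ x : K, IsAlgebraic k x → ∃ c : k, algebraMap k K c = x) :
    ∃ D : Derivation k K K, ∀ x, D x = 0 → ∃ c : k, algebraMap k K c = x := by
  obtain ⟨D, hD⟩ := der_exists t ht
  refine ⟨D, fun x hx => hk x ?_⟩
  by_contra hcon
  exact der_main t x D hD hx (der_exch t ht x hcon)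

end Pool.Agent.GBL
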