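import Pool.Agent.GBL.Def

/-!
# Module Desc (size 3): descent of ratio finiteness

`K ⊆ K1` fields, `k ⊆ K`, `k1 ⊆ K1` subfields with `K ∩ k1 ⊆ k`; `C ⊆ K^ι`, `C1` its `K1`-span in `K1^ι`. If ratio
finiteness holds for `(k1, K1, C1)` then it holds for `(k, K, C)`. Moreover `dim C1 ≤ dim C`.

PROOF SKETCH. (0) For `w ∈ K^ι`: `w ∈ C1` (as a vector of `K1^ι`) implies `w ∈ C`: otherwise there is a linear functional
`∑ r_j (·)_j` on `K^ι` vanishing on `C`, not at `w`; it extends to `K1^ι` with the same coefficients, vanishes on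
`C1`, and not at `w`. (1) If `x ∈ K^ι` is primitive for `C` then it is primitive for `C1`
(`Q.indicator (x^d)` is a vector of `K^ι`; use (0)). (2) Let `F1 ⊆ K1` be the finite set for `C1`. For each `f ∈ F1`
such that some `g ∈ K`, `g ≠ 0`, is of the form `f * c`, `c ∈ k1`, choose such a `g =: g_f`; let `F` be the set of the
`g_f`, finite. For `x` primitive with `x^d ∈ C`, `x_i, x_j ≠ 0`, the element `g = x_i / x_j ∈ K` is `f * c` with `f ∈ F1`, `c ∈ k1`,
`c ≠ 0`; `g_f = f * c'`, `c' ≠ 0`; so `g / g_f = c / c' ∈ K ∩ k1 ⊆ k`.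
`finrank_span_le`: the span is generated by the image of a basis of `C`.
-/

namespace Pool.Agent.GBL

/-- the `K1`-span of the image of `C` in `K1^ι` -/
def extC {K K1 ι : Type*} [Field K] [Field K1] [Algebra K K1] (C : Submodule K (ι → K)) :
    Submodule K1 (ι → K1) :=
  Submodule.span K1 ((fun (w : ι → K) (j : ι) => algebraMap K K1 (w j)) '' (C : Set (ι → K)))

private theorem desc_mem {K K1 ι : Type*} [Field K] [Field K1] [Algebra K K1] [Fintype ι]
    (C : Submodule K (ι → K)) (w : ι → K)
    (hw : (fun j => algebraMap K K1 (w j)) ∈ extC (K1 := K1) C) : w ∈ C := by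
  classical
  by_contra hn
  obtain ⟨f, hf, hf2⟩ := Submodule.exists_dual_map_eq_bot_of_notMem hn inferInstance
  have hf3 : ∀ v ∈ C, f v = 0 := by
    intro v hv
    have h0 : f v ∈ C.map f := Submodule.mem_map_of_mem hv
    rw [hf2] at h0
    exact (Submodule.mem_bot K).1 h0
  have hfs : ∀ v : ι → K, f v = ∑ j, v j * f (Pi.single j 1) := by
    intro v
    have := LinearMap.pi_apply_eq_sum_univ f v
    rw [this]
    apply Finset.sum_congr rfl
    intro j _
    rw [smul_eq_mul]
    congr 2
    funext i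
    simp [Pi.single_apply, eq_comm]
  let g : (ι → K1) →ₗ[K1] K1 :=
    ∑ j, (algebraMap K K1 (f (Pi.single j 1))) • (LinearMap.proj j : (ι → K1) →ₗ[K1] K1)
  have hg : ∀ v : ι → K, g (fun j => algebraMap K K1 (v j)) = algebraMap K K1 (f v) := by
    intro v
    rw [hfs v, map_sum]
    simp only [g, LinearMap.sum_apply, LinearMap.smul_apply, LinearMap.proj_apply, smul_eq_mul,
      map_mul]
    apply Finset.sum_congr rfl
    intro j _
    rw [mul_comm]
  have hle : extC (K1 := K1) C ≤ LinearMap.ker g := by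
    unfold extC
    rw [Submodule.span_le]
    rintro _ ⟨v, hv, rfl⟩
    simp only [SetLike.mem_coe, LinearMap.mem_ker]
    rw [hg v, hf3 v hv, map_zero]
  have h1 := hle hw
  rw [LinearMap.mem_ker, hg w] at h1
  apply hf
  exact (map_eq_zero (algebraMap K K1)).1 h1

theorem desc {k K k1 K1 : Type*} [Field k] [Field K] [Field k1] [Field K1] [Algebra k K]
    [Algebra k1 K1] [Algebra K K1] {ι : Type*} [Fintype ι]
    (hcap : ∀ x : K, (∃ c : k1, algebraMap k1 K1 c = algebraMap K K1 x) →
      ∃ c : k, algebraMap k K c = x)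
    (C : Submodule K (ι → K)) (d : ℕ) (h : RF k1 (extC (K1 := K1) C) d) : RF k C d := by
  classical
  obtain ⟨F1, hF1, hF⟩ := h
  let P : K1 → Prop := fun f => ∃ g : K, g ≠ 0 ∧ ∃ c : k1, algebraMap K K1 g = f * algebraMap k1 K1 c
  let G : K1 → K := fun f => if h : P f then h.choose else 0
  have hG : ∀ f, P f → G f ≠ 0 ∧ ∃ c : k1, algebraMap K K1 (G f) = f * algebraMap k1 K1 c := by
    intro f hf
    have : G f = hf.choose := dif_pos hf
    rw [this]
    exact hf.choose_spec
  refine ⟨G '' F1, hF1.image G, ?_⟩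
  intro x hx hprim i j hi hj
  have hx1 : (fun j => (algebraMap K K1 (x j)) ^ d) ∈ extC (K1 := K1) C := by
    apply Submodule.subset_span
    refine ⟨fun j => x j ^ d, hx, ?_⟩
    funext j
    simp
  have hprim1 : Prim (extC (K1 := K1) C) d (fun j => algebraMap K K1 (x j)) := by
    intro Q hQ
    have h2 : Q.indicator (fun j => x j ^ d) ∈ C := by
      apply desc_mem (K1 := K1)
      have h3 : (fun j => algebraMap K K1 (Q.indicator (fun j => x j ^ d) j)) =
          Q.indicator (fun j => (algebraMap K K1 (x j)) ^ d) := by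
        funext j
        by_cases hjQ : j ∈ Q
        · simp [Set.indicator_of_mem hjQ]
        · simp [Set.indicator_of_notMem hjQ]
      rw [h3]
      exact hQ
    rcases hprim Q h2 with h4 | h4
    · left
      intro j hj
      simp [h4 j hj]
    · right
      intro j hj
      simp [h4 j hj]
  obtain ⟨f, hf, c, hc⟩ := hF (fun j => algebraMap K K1 (x j)) hx1 hprim1 i j
    (by simpa using hi) (by simpa using hj)
  have hj1 : algebraMap K K1 (x j) ≠ 0 := by simpa using hj
  have hg : algebraMap K K1 (x i / x j) = f * algebraMap k1 K1 c := by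
    rw [map_div₀, hc]
    field_simp
  have hg0 : x i / x j ≠ 0 := div_ne_zero hi hj
  have hPf : P f := ⟨x i / x j, hg0, c, hg⟩
  obtain ⟨hGf, c', hc'⟩ := hG f hPf
  have hGf1 : algebraMap K K1 (G f) ≠ 0 := by simpa using hGf
  have hc'0 : algebraMap k1 K1 c' ≠ 0 := by
    intro h0
    rw [h0, mul_zero] at hc'
    exact hGf1 hc'
  have hf0 : f ≠ 0 := by
    intro h0
    have h9 : f * algebraMap k1 K1 c' = 0 := by rw [h0, zero_mul]
    rw [h9] at hc'
    exact hGf1 hc'
  obtain ⟨c2, hc2⟩ := hcap (x i / x j / G f) ⟨c / c', by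
    rw [map_div₀, map_div₀ (algebraMap K K1) (x i / x j), hg, hc']
    field_simp⟩
  refine ⟨G f, ⟨f, hf, rfl⟩, c2, ?_⟩
  rw [hc2]
  field_simp

theorem finrank_extC_le {K K1 : Type*} [Field K] [Field K1] [Algebra K K1] {ι : Type*} [Fintype ι]
    (C : Submodule K (ι → K)) :
    Module.finrank K1 (extC (K1 := K1) C) ≤ Module.finrank K C := by
  classical
  let b := Module.finBasis K C
  let v : Fin (Module.finrank K C) → (ι → K1) := fun i j => algebraMap K K1 ((b i : ι → K) j)
  have hle : extC (K1 := K1) C ≤ Submodule.span K1 (Set.range v) := by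
    unfold extC
    rw [Submodule.span_le]
    rintro _ ⟨w, hw, rfl⟩
    have h1 : w = ∑ i, (b.repr ⟨w, hw⟩ i) • (b i : ι → K) := by
      have := congrArg (fun z : C => (z : ι → K)) (b.sum_repr ⟨w, hw⟩)
      simp only [AddSubmonoidClass.coe_finsetSum, SetLike.val_smul] at this
      exact this.symm
    have h2 : (fun j => algebraMap K K1 (w j)) =
        ∑ i, (algebraMap K K1 (b.repr ⟨w, hw⟩ i)) • v i := by
      funext j
      conv_lhs => rw [h1]
      simp [v, Finset.sum_apply, Algebra.smul_def]
    simp only [SetLike.mem_coe]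
    rw [h2]
    apply Submodule.sum_mem
    intro i _
    apply Submodule.smul_mem
    exact Submodule.subset_span ⟨i, rfl⟩
  calc Module.finrank K1 (extC (K1 := K1) C)
      ≤ Module.finrank K1 (Submodule.span K1 (Set.range v)) := Submodule.finrank_mono hle
    _ ≤ Fintype.card (Fin (Module.finrank K C)) := finrank_range_le_card v
    _ = Module.finrank K C := by simp

end Pool.Agent.GBL
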