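import Pool.Agent.GBL.Def

/-!
# Module FvA (size 3): rational functions with bounded poles

`t ∈ K` transcendental over `k`, `P ∈ k[t]`, `Q ∈ k[1/t]` nonzero. The `g ∈ K` with `P g ∈ k[t]` and
`Q g ∈ k[1/t]` lie in a finite-dimensional `k`-subspace of `K`.

PROOF SKETCH. Elements of `Algebra.adjoin k {t}` are the `p(t) = aeval t p`, `p ∈ k[X]`
(`Algebra.adjoin_singleton_eq_range_aeval`). Let `P = p(t)`, `Q = q(1/t)`. If `P g = h(t)` and `Q g = s(1/t)` then
`q(1/t) h(t) = s(1/t) p(t)`. Multiply by `t^(deg q + deg s)`: `t^(deg q) q(1/t) = q~(t)` with `q~ = q.reverse`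
(`Polynomial.eval₂_reverse_mul_pow` or `Polynomial.aeval` version), so
`X^(deg s) q~ h = X^(deg q) s~ p` in `k[X]` (`t` is transcendental, so `aeval t` is injective). If `h ≠ 0`,
compare degrees: `deg h ≤ deg q + deg s~ + deg p - deg s ≤ deg q + deg p` (`Polynomial.natDegree_reverse_le`
or `reverse_natDegree_le`). So `deg h ≤ N := deg q + deg p` and `g = P⁻¹ h(t)` lies in the image `V` of
`Polynomial.degreeLT k (N+1)` under the `k`-linear map `h ↦ P⁻¹ * aeval t h`, a finite-dimensional space.
-/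

namespace Pool.Agent.GBL

open Polynomial in
private theorem fvA_rev {k K : Type*} [Field k] [Field K] [Algebra k K] (t : K) (ht : t ≠ 0)
    (s : k[X]) : t ^ s.natDegree * aeval t⁻¹ s = aeval t s.reverse := by
  letI : Invertible (t⁻¹) := invertibleOfNonzero (inv_ne_zero ht)
  have h := eval₂_reverse_mul_pow (algebraMap k K) (t⁻¹) s
  rw [invOf_eq_inv, inv_inv] at h
  rw [aeval_def, aeval_def, ← h]
  rw [inv_pow]
  field_simp

open Polynomial in
theorem fvA {k K : Type*} [Field k] [Field K] [Algebra k K] (t : K)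
    (ht : Transcendental k t) (P Q : K) (hP : P ∈ Algebra.adjoin k {t}) (hP0 : P ≠ 0)
    (hQ : Q ∈ Algebra.adjoin k {t⁻¹}) (hQ0 : Q ≠ 0) :
    ∃ V : Submodule k K, FiniteDimensional k V ∧ ∀ g : K, P * g ∈ Algebra.adjoin k {t} →
      Q * g ∈ Algebra.adjoin k {t⁻¹} → g ∈ V := by
  have ht0 : t ≠ 0 := by
    rintro rfl
    exact ht (isAlgebraic_zero)
  have hinj : Function.Injective (aeval t : k[X] →ₐ[k] K) := transcendental_iff_injective.1 ht
  rw [Algebra.adjoin_singleton_eq_range_aeval] at hP hQ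
  obtain ⟨p, rfl⟩ := hP
  obtain ⟨q, rfl⟩ := hQ
  have hp0 : p ≠ 0 := by rintro rfl; simp at hP0
  have hq0 : q ≠ 0 := by rintro rfl; simp at hQ0
  let L : k[X] →ₗ[k] K := (LinearMap.mulLeft k ((aeval t p : K)⁻¹)).comp
    (aeval t : k[X] →ₐ[k] K).toLinearMap
  refine ⟨(degreeLT k (q.natDegree + p.natDegree + 1)).map L, inferInstance, ?_⟩
  intro g hg1 hg2
  rw [Algebra.adjoin_singleton_eq_range_aeval] at hg1 hg2
  obtain ⟨h, hh⟩ := hg1
  obtain ⟨s, hs⟩ := hg2
  refine ⟨h, ?_, ?_⟩
  · by_cases hh0 : h = 0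
    · rw [hh0]; exact Submodule.zero_mem _
    · have key : X ^ s.natDegree * q.reverse * h = X ^ q.natDegree * s.reverse * p := by
        apply hinj
        simp only [map_mul, map_pow, aeval_X]
        rw [← fvA_rev t ht0 q, ← fvA_rev t ht0 s]
        have h1 : (aeval t h : K) = aeval t p * g := hh
        have h2 : (aeval t⁻¹ s : K) = aeval t⁻¹ q * g := hs
        rw [h1, h2]
        ring
      have hqr : q.reverse ≠ 0 := by rwa [Ne, reverse_eq_zero]
      have hXs : (X ^ s.natDegree : k[X]) ≠ 0 := pow_ne_zero _ X_ne_zero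
      have hlhs : (X ^ s.natDegree * q.reverse * h).natDegree =
          s.natDegree + q.reverse.natDegree + h.natDegree := by
        rw [natDegree_mul (mul_ne_zero hXs hqr) hh0, natDegree_mul hXs hqr, natDegree_X_pow]
      have hrhs : (X ^ q.natDegree * s.reverse * p).natDegree ≤
          q.natDegree + s.natDegree + p.natDegree := by
        refine natDegree_mul_le.trans (Nat.add_le_add_right ?_ _)
        refine natDegree_mul_le.trans ?_
        rw [natDegree_X_pow]
        exact Nat.add_le_add_left (reverse_natDegree_le s) _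
      rw [← key, hlhs] at hrhs
      have : h.natDegree < q.natDegree + p.natDegree + 1 := by omega
      rw [SetLike.mem_coe, mem_degreeLT]
      exact lt_of_le_of_lt degree_le_natDegree (by exact_mod_cast this)
  · have h1 : (aeval t h : K) = aeval t p * g := hh
    have h3 : (aeval t p : K) ≠ 0 := hP0
    change (aeval t p : K)⁻¹ * aeval t h = g
    rw [h1, ← mul_assoc, inv_mul_cancel₀ h3, one_mul]

end Pool.Agent.GBL
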