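import Pool.Agent.GBL.FvA

/-!
# Module FvB (size 4): algebraic functions with bounded poles

`k` of characteristic 0, `t ∈ K` transcendental over `k`, `K` finite over `k(t)`, `P ∈ k[t]`, `Q ∈ k[1/t]`
nonzero. The `f ∈ K` with `P f` integral over `k[t]` and `Q f` integral over `k[1/t]` lie in a
finite-dimensional `k`-subspace of `K`.

PROOF SKETCH. `L = k⟮t⟯ = k(t)` is the fraction field of `R = k[t]` and of `R' = k[1/t]` (both isomorphic to
`k[X]`: integrally closed). Let `w_1..w_n` be a basis of `K/L`. There are nonzero `C ∈ R`, `C' ∈ R'` such that all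
`C w_i` are integral over `R` and all `C' w_i` are integral over `R'` (`exists_integral_multiple`). For `f` as in
the statement put `g_i = Tr_{K/L} (f w_i) ∈ L ⊆ K`. Then `P C g_i = Tr ((P f) (C w_i))` is the trace of an element
integral over `R`, so it is integral over `R` (`Algebra.isIntegral_trace`) and lies in `L`, so it is in `R`
(integrally closed). Likewise `Q C' g_i ∈ R'`. By `fvA` (with `P C`, `Q C'`) all `g_i` lie in a
finite-dimensional `k`-subspace `V_0` of `K`. The map `T : K → K^n`, `f ↦ (Tr (f w_i))_i` (values in `L ⊆ K`) is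
`k`-linear and injective, because the trace form of the separable extension `K/L` is nondegenerate
(`traceForm_nondegenerate`, characteristic 0). So take `V = T⁻¹ (V_0^n)`
(`Submodule.comap T (Submodule.pi Set.univ (fun _ => V_0))`), finite-dimensional as it embeds in `V_0^n`.
-/

open scoped IntermediateField

namespace Pool.Agent.GBL

open scoped IntermediateField.algebraAdjoinAdjoin in
/-- multiples integral over `k[s]` -/
private theorem FvB_mult {k K : Type*} [Field k] [Field K] [Algebra k K] (s : K)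
    [FiniteDimensional k⟮s⟯ K] (S : Finset K) :
    ∃ C ∈ Algebra.adjoin k {s}, C ≠ 0 ∧ ∀ z ∈ S, IsIntegral (Algebra.adjoin k {s}) (C * z) := by
  have h1 : Algebra.IsAlgebraic (Algebra.adjoin k {s}) K :=
    Algebra.IsAlgebraic.trans (Algebra.adjoin k {s}) k⟮s⟯ K
  obtain ⟨y, hy, h⟩ := Algebra.IsAlgebraic.exists_integral_multiples (Algebra.adjoin k {s}) S
  refine ⟨(y : K), y.2, fun h0 => hy (Subtype.ext h0), fun z hz => ?_⟩
  have := h z hz
  rwa [Algebra.smul_def] at this

open scoped IntermediateField.algebraAdjoinAdjoin in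
/-- `k[s]` is integrally closed in `k(s)` -/
private theorem FvB_closed {k K : Type*} [Field k] [Field K] [Algebra k K] (s : K)
    (hs : Transcendental k s) (g : K) (hg : g ∈ k⟮s⟯)
    (hi : IsIntegral (Algebra.adjoin k {s}) g) : g ∈ Algebra.adjoin k {s} := by
  let e : Polynomial k ≃ₐ[k] Algebra.adjoin k {s} := Polynomial.algEquivOfTranscendental k s hs
  have h1 : IsPrincipalIdealRing (Algebra.adjoin k {s}) :=
    IsPrincipalIdealRing.of_surjective e.toRingEquiv.toRingHom e.surjective
  have h2 : IsIntegrallyClosed (Algebra.adjoin k {s}) := inferInstance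
  have h3 : IsIntegral (Algebra.adjoin k {s}) (⟨g, hg⟩ : k⟮s⟯) := by
    rw [← isIntegral_algebraMap_iff (A := k⟮s⟯) (B := K) (algebraMap k⟮s⟯ K).injective]
    exact hi
  obtain ⟨y, hy⟩ := (IsIntegrallyClosed.isIntegral_iff (K := k⟮s⟯)).1 h3
  have h4 : ((y : Algebra.adjoin k {s}) : K) = g := congrArg Subtype.val hy
  rw [← h4]
  exact y.2

/-- the trace of an element integral over `k[s]`, where `k(s) = k(t)` -/
private theorem FvB_trace {k K : Type*} [Field k] [Field K] [Algebra k K] (s t : K)
    (hst : k⟮s⟯ = k⟮t⟯) (hs : Transcendental k s) [FiniteDimensional k⟮t⟯ K] {x : K}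
    (hx : IsIntegral (Algebra.adjoin k {s}) x) :
    ((Algebra.trace k⟮t⟯ K x : k⟮t⟯) : K) ∈ Algebra.adjoin k {s} := by
  have hS : Algebra.adjoin k {s} ≤ k⟮t⟯.toSubalgebra := by
    rw [← hst]
    exact IntermediateField.algebra_adjoin_le_adjoin k {s}
  let _ : Algebra (Algebra.adjoin k {s}) k⟮t⟯ := (Subalgebra.inclusion hS).toAlgebra
  have : IsScalarTower (Algebra.adjoin k {s}) k⟮t⟯ K :=
    IsScalarTower.of_algebraMap_eq fun _ => rfl
  have h1 : IsIntegral (Algebra.adjoin k {s}) (Algebra.trace k⟮t⟯ K x) :=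
    Algebra.isIntegral_trace hx
  have h2 : IsIntegral (Algebra.adjoin k {s}) (algebraMap k⟮t⟯ K (Algebra.trace k⟮t⟯ K x)) :=
    h1.algebraMap
  apply FvB_closed s hs _ _ h2
  rw [hst]
  exact (Algebra.trace k⟮t⟯ K x).2

/-- the multiple `a * Tr (f w)` is in `k[s]` if `a = P C` with `P f`, `C w` integral -/
private theorem FvB_step {k K : Type*} [Field k] [Field K] [Algebra k K] (s t : K)
    (hst : k⟮s⟯ = k⟮t⟯) (hs : Transcendental k s) [FiniteDimensional k⟮t⟯ K] {P C f w : K}
    (hP : P ∈ Algebra.adjoin k {s}) (hC : C ∈ Algebra.adjoin k {s})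
    (hf : IsIntegral (Algebra.adjoin k {s}) (P * f))
    (hw : IsIntegral (Algebra.adjoin k {s}) (C * w)) :
    P * C * ((Algebra.trace k⟮t⟯ K (f * w) : k⟮t⟯) : K) ∈ Algebra.adjoin k {s} := by
  have hS : Algebra.adjoin k {s} ≤ k⟮t⟯.toSubalgebra := by
    rw [← hst]
    exact IntermediateField.algebra_adjoin_le_adjoin k {s}
  have ha : P * C ∈ k⟮t⟯ := hS (mul_mem hP hC)
  have h1 := FvB_trace s t hst hs (hf.mul hw)
  have h2 : P * f * (C * w) = (⟨P * C, ha⟩ : k⟮t⟯) • (f * w) := by
    rw [Algebra.smul_def]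
    show P * f * (C * w) = P * C * (f * w)
    ring
  rw [h2, map_smul, smul_eq_mul] at h1
  exact h1

theorem fvB {k K : Type*} [Field k] [CharZero k] [Field K] [Algebra k K] (t : K)
    (ht : Transcendental k t) [FiniteDimensional k⟮t⟯ K] (P Q : K)
    (hP : P ∈ Algebra.adjoin k {t}) (hP0 : P ≠ 0)
    (hQ : Q ∈ Algebra.adjoin k {t⁻¹}) (hQ0 : Q ≠ 0) :
    ∃ V : Submodule k K, FiniteDimensional k V ∧ ∀ f : K,
      IsIntegral (Algebra.adjoin k {t}) (P * f) → IsIntegral (Algebra.adjoin k {t⁻¹}) (Q * f) →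
      f ∈ V := by
  have hti : k⟮t⁻¹⟯ = k⟮t⟯ := by
    apply le_antisymm
    · rw [IntermediateField.adjoin_simple_le_iff]
      exact inv_mem (IntermediateField.mem_adjoin_simple_self k t)
    · rw [IntermediateField.adjoin_simple_le_iff]
      have := inv_mem (IntermediateField.mem_adjoin_simple_self k t⁻¹)
      rwa [inv_inv] at this
  have ht' : Transcendental k t⁻¹ := by
    intro h
    apply ht
    have := h.inv
    rwa [inv_inv] at this
  have hfd' : FiniteDimensional k⟮t⁻¹⟯ K := by rw [hti]; infer_instance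
  classical
  let w := Module.finBasis k⟮t⟯ K
  obtain ⟨C, hC, hC0, hCw⟩ := FvB_mult (k := k) t (Finset.univ.image fun i => w i)
  obtain ⟨C', hC', hC0', hCw'⟩ := FvB_mult (k := k) t⁻¹ (Finset.univ.image fun i => w i)
  obtain ⟨V₀, hV₀, hV⟩ := fvA t ht (P * C) (Q * C') (mul_mem hP hC) (mul_ne_zero hP0 hC0)
    (mul_mem hQ hC') (mul_ne_zero hQ0 hC0')
  let val : k⟮t⟯ →ₗ[k] K := k⟮t⟯.val.toLinearMap
  let tr : K →ₗ[k] k⟮t⟯ := (Algebra.trace k⟮t⟯ K).restrictScalars k
  let T : K →ₗ[k] (Fin (Module.finrank k⟮t⟯ K) → K) :=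
    LinearMap.pi fun i => val.comp (tr.comp (LinearMap.mulRight k (w i)))
  have hT : ∀ f i, T f i = ((Algebra.trace k⟮t⟯ K (f * w i) : k⟮t⟯) : K) := fun f i => rfl
  have hTinj : Function.Injective T := by
    rw [← LinearMap.ker_eq_bot, LinearMap.ker_eq_bot']
    intro f hf
    have h1 : ∀ i, Algebra.trace k⟮t⟯ K (f * w i) = 0 := fun i => by
      have h2 := congrFun hf i
      rw [hT] at h2
      exact Subtype.ext h2
    have h2 : ∀ x, Algebra.traceForm k⟮t⟯ K f x = 0 := by
      intro x
      have h3 : Algebra.traceForm k⟮t⟯ K f = 0 := by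
        apply w.ext
        intro i
        rw [Algebra.traceForm_apply, h1, LinearMap.zero_apply]
      rw [h3, LinearMap.zero_apply]
    exact (traceForm_nondegenerate k⟮t⟯ K).1 f h2
  refine ⟨Submodule.comap T (Submodule.pi Set.univ fun _ => V₀), ?_, fun f hf hf' => ?_⟩
  · let Φ : (Submodule.comap T (Submodule.pi Set.univ fun _ => V₀)) →ₗ[k]
        (Fin (Module.finrank k⟮t⟯ K) → V₀) :=
      { toFun := fun f i => ⟨T f.1 i, f.2 i (Set.mem_univ i)⟩
        map_add' := fun f g => by
          funext i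
          apply Subtype.ext
          show T (f.1 + g.1) i = T f.1 i + T g.1 i
          rw [map_add]
          rfl
        map_smul' := fun c f => by
          funext i
          apply Subtype.ext
          show T (c • f.1) i = c • T f.1 i
          rw [map_smul]
          rfl }
    apply FiniteDimensional.of_injective Φ
    intro f g hfg
    apply Subtype.ext
    apply hTinj
    funext i
    have h5 : (Φ f i : K) = (Φ g i : K) := by rw [congrFun hfg i]
    exact h5
  · intro i _
    rw [hT]
    apply hV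
    · exact FvB_step t t rfl ht hP hC hf (hCw _ (Finset.mem_image_of_mem _ (Finset.mem_univ i)))
    · exact FvB_step t⁻¹ t hti ht' hQ hC' hf'
        (hCw' _ (Finset.mem_image_of_mem _ (Finset.mem_univ i)))

end Pool.Agent.GBL
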