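import Pool.Agent.GBL.Def

/-!
# Module Gen (size 3): a generic point of an infinite set of points

`k` a field, `I` finite, `Y` an infinite set of points of `k^I`. In the product ring `k^Y` let `c_i` be the
`i`-th coordinate function. There is a maximal ideal `M` of `k^Y` such that some `c_i` is not congruent to
a constant modulo `M`, and such that for each `J ⊆ I` such that every point of `Y` has a nonzero coordinate in
`J`, some `c_i`, `i ∈ J`, is not in `M`.

PROOF SKETCH. The functions `f : Y → k` with finite support form a proper ideal (`Y` infinite; or: the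
ideal spanned by the `Pi.single y 1` does not contain 1). Let `M` be a maximal ideal containing it
(`Ideal.exists_le_maximal`).
(1) Suppose for each `i` there is `a_i ∈ k` with `f_i := c_i - a_i ∈ M`. All `f_i` vanish together at no point of
`Y` different from `a`. Choose for each `y ≠ a` in `Y` an index `i(y)` with `f_(i(y))(y) ≠ 0`, and let
`g_i(y) = 1/f_i(y)` if `y ≠ a` and `i = i(y)`, and 0 otherwise. Then `∑_i g_i f_i ∈ M` is 1 at all `y ≠ a` and 0 at `a`
(if `a ∈ Y`). Adding the function with finite support `Pi.single a 1` (if `a ∈ Y`) gives `1 ∈ M`, contradiction.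
(2) Same with `f_i = c_i`, `i ∈ J`: if all are in `M`, then `1 = ∑_(i∈J) g_i c_i ∈ M`.
-/

namespace Pool.Agent.GBL

private theorem gen_aux {k I Z : Type*} [Field k] [Fintype I] (M : Ideal (Z → k)) (hM : M ≠ ⊤)
    (hfin : ∀ f : Z → k, (Function.support f).Finite → f ∈ M) (f : I → Z → k) (J : Set I)
    (S : Set Z) (hS : Sᶜ.Finite) (hf : ∀ y ∈ S, ∃ i ∈ J, f i y ≠ 0) : ∃ i ∈ J, f i ∉ M := by
  classical
  by_contra hcon
  push Not at hcon
  choose i hiJ hi using hf
  let g : I → Z → k := fun j y =>
    if h : y ∈ S then (if i y h = j then (f j y)⁻¹ else 0) else 0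
  have h1 : ∑ j, g j * f j ∈ M := by
    refine M.sum_mem fun j _ => ?_
    by_cases hj : j ∈ J
    · exact M.mul_mem_left _ (hcon j hj)
    · have h0 : g j = 0 := by
        ext y
        simp only [g, Pi.zero_apply]
        split_ifs with h h'
        · exact absurd (h' ▸ hiJ y h) hj
        · rfl
        · rfl
      rw [h0, zero_mul]
      exact M.zero_mem
  have h2 : (1 - ∑ j, g j * f j) ∈ M := by
    apply hfin
    refine hS.subset ?_
    intro y hy hyS
    apply hy
    have h3 : (∑ j, g j * f j) y = 1 := by
      rw [Finset.sum_apply, Finset.sum_eq_single (i y hyS)]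
      · simp only [Pi.mul_apply, g, hyS, dif_pos, if_true]
        exact inv_mul_cancel₀ (hi y hyS)
      · intro j _ hj
        simp only [Pi.mul_apply, g, hyS, dif_pos, if_neg (Ne.symm hj), zero_mul]
      · intro h
        exact absurd (Finset.mem_univ _) h
    rw [Pi.sub_apply, h3, Pi.one_apply, sub_self]
  apply hM
  rw [Ideal.eq_top_iff_one]
  have h4 := M.add_mem h2 h1
  rwa [sub_add_cancel] at h4

theorem gen {k I : Type*} [Field k] [Finite I] (Y : Set (I → k)) (hY : Y.Infinite) :
    ∃ M : Ideal (Y → k), M.IsMaximal ∧
      (∃ i, ∀ c : k, (fun y : Y => y.1 i - c) ∉ M) ∧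
      (∀ J : Set I, (∀ y ∈ Y, ∃ i ∈ J, y i ≠ 0) → ∃ i ∈ J, (fun y : Y => y.1 i) ∉ M) := by
  classical
  have := Fintype.ofFinite I
  let I0 : Ideal (Y → k) :=
    { carrier := {f | (Function.support f).Finite}
      add_mem' := by
        intro a b ha hb
        exact (ha.union hb).subset (Function.support_add a b)
      zero_mem' := by simp
      smul_mem' := by
        intro c f hf
        refine Set.Finite.subset hf ?_
        intro y hy h0
        apply hy
        simp only [smul_eq_mul, Pi.mul_apply]
        rw [h0, mul_zero] }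
  have hI0 : I0 ≠ ⊤ := by
    intro h
    rw [Ideal.eq_top_iff_one] at h
    have h1 : (Function.support (1 : Y → k)).Finite := h
    have h2 : Function.support (1 : Y → k) = Set.univ := by
      ext y
      simp
    rw [h2, Set.finite_univ_iff] at h1
    exact hY h1
  obtain ⟨M, hM, hIM⟩ := Ideal.exists_le_maximal I0 hI0
  have hfin : ∀ f : Y → k, (Function.support f).Finite → f ∈ M := fun f hf => hIM hf
  refine ⟨M, hM, ?_, ?_⟩
  · by_contra hcon
    push Not at hcon
    choose a ha using hcon
    obtain ⟨i, -, hi⟩ := gen_aux M hM.ne_top hfin (fun i (y : Y) => y.1 i - a i) Set.univ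
      {y : Y | y.1 ≠ a} (by
        refine Set.Subsingleton.finite ?_
        intro y hy z hz
        simp only [Set.mem_compl_iff, Set.mem_setOf_eq, not_not] at hy hz
        exact Subtype.ext (hy.trans hz.symm)) (by
        intro y hy
        by_contra hcon
        push Not at hcon
        apply hy
        ext i
        exact sub_eq_zero.mp (hcon i (Set.mem_univ i)))
    exact hi (ha i)
  · intro J hJ
    exact gen_aux M hM.ne_top hfin (fun i (y : Y) => y.1 i) J Set.univ (by simp) (by
      intro y _
      exact hJ y.1 y.2)

end Pool.Agent.GBL
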