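import Pool.Agent.GBL.Def

/-!
# Module GenT (size 2): tensor product with a product ring

`k` a field, `K` a field extension, `X` a type. An element of `(X → k) ⊗ K` all of whose evaluations in
`K` at the points of `X` vanish is 0; and evaluation is compatible with `1 ⊗ D`.

PROOF SKETCH. `evT_inj`: let `b` be a basis of `K` over `k`; `Algebra.TensorProduct.basis (X → k) b` is a basis of
`(X → k) ⊗ K` over `X → k`. Write `z = ∑ r_i • (1 ⊗ b_i) = ∑ r_i ⊗ b_i` (finite sum), so
`evT x z = ∑ r_i(x) b_i`, and `evT x z = 0` gives `r_i(x) = 0` for all `i`. So all `r_i = 0`.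
`evT_bD`: `TensorProduct.induction_on`.
-/

open scoped TensorProduct

namespace Pool.Agent.GBL

/-- evaluation at `x`, `f ⊗ b ↦ f x * b` -/
noncomputable def evT (k K : Type*) {X : Type*} [Field k] [Field K] [Algebra k K] (x : X) :
    (X → k) ⊗[k] K →ₐ[k] K :=
  Algebra.TensorProduct.lift ((Algebra.ofId k K).comp (Pi.evalAlgHom k (fun _ : X => k) x))
    (AlgHom.id k K) (fun _ _ => Commute.all _ _)

@[simp] theorem evT_tmul {k K X : Type*} [Field k] [Field K] [Algebra k K] (x : X) (f : X → k)
    (b : K) : evT k K x (f ⊗ₜ[k] b) = algebraMap k K (f x) * b := by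
  simp [evT, Algebra.ofId_apply]

theorem evT_inj {k K X : Type*} [Field k] [Field K] [Algebra k K] (z : (X → k) ⊗[k] K)
    (hz : ∀ x : X, evT k K x z = 0) : z = 0 := by
  classical
  let b := Module.Basis.ofVectorSpace k K
  let B := Algebra.TensorProduct.basis (X → k) b
  set c := B.repr z with hc
  have hzc : ∑ i ∈ c.support, c i • B i = z := by
    have := B.linearCombination_repr z
    rw [Finsupp.linearCombination_apply] at this
    exact this
  have hev : ∀ x : X, ∑ i ∈ c.support, (c i x) • b i = 0 := by
    intro x
    have h1 := hz x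
    rw [← hzc, map_sum] at h1
    rw [← h1]
    refine Finset.sum_congr rfl fun i _ => ?_
    have h2 : c i • B i = (c i) ⊗ₜ[k] (b i) := by
      rw [Algebra.TensorProduct.basis_apply, TensorProduct.smul_tmul', smul_eq_mul, mul_one]
    rw [h2, evT_tmul, Algebra.smul_def]
  have hc0 : c = 0 := by
    ext i x
    by_cases hi : i ∈ c.support
    · exact linearIndependent_iff'.1 b.linearIndependent c.support (fun i => c i x) (hev x) i hi
    · rw [Finsupp.notMem_support_iff.1 hi]
      rfl
  rw [← hzc, hc0]
  simp

theorem evT_bD {k K X : Type*} [Field k] [Field K] [Algebra k K] (D : Derivation k K K) (x : X)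
    (z : (X → k) ⊗[k] K) : evT k K x (bD (X → k) D z) = D (evT k K x z) := by
  induction z using TensorProduct.induction_on with
  | zero => simp
  | add a b ha hb => rw [map_add, map_add, map_add, map_add, ha, hb]
  | tmul f b =>
    rw [bD_tmul, evT_tmul, evT_tmul, Derivation.leibniz]
    simp

end Pool.Agent.GBL
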