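import Pool.Agent.GBL.Main1
import Pool.Agent.GBL.Blk

/-!
# Kummer covers: varieties cut out by polynomials in `d`-th powers of the coordinates
-/

open Function

namespace Pool.Agent.GBL

/-- Dichotomy for a subgroup `Λ` of `ℤ^ι` and two indices: some multiple of `e_i - e_j` lies in `Λ`,
or some integral weight vanishes on `Λ` and distinguishes `i` and `j`. -/
theorem kum_dich {ι : Type*} [Fintype ι] [DecidableEq ι] (Λ : Submodule ℤ (ι → ℤ)) (i j : ι) :
    (∃ a : ℤ, a ≠ 0 ∧ a • (Pi.single i (1 : ℤ) - Pi.single j (1 : ℤ) : ι → ℤ) ∈ Λ) ∨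
    ∃ w : ι → ℤ, w i ≠ w j ∧ ∀ v ∈ Λ, ∑ l, v l * w l = 0 := by
  classical
  set u : ι → ℤ := Pi.single i (1 : ℤ) - Pi.single j (1 : ℤ) with hu
  let Q := (ι → ℤ) ⧸ Λ
  let T : Submodule ℤ Q := Submodule.torsion ℤ Q
  let M := Q ⧸ T
  let π : (ι → ℤ) →ₗ[ℤ] M := T.mkQ.comp Λ.mkQ
  by_cases h : π u = 0
  · left
    have h1 : Λ.mkQ u ∈ T := (Submodule.Quotient.mk_eq_zero T).1 h
    obtain ⟨a, ha⟩ := (Submodule.mem_torsion_iff (R := ℤ) (M := Q) (Λ.mkQ u)).1 h1
    refine ⟨(a : ℤ), nonZeroDivisors.coe_ne_zero a, ?_⟩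
    have h2 : Λ.mkQ ((a : ℤ) • u) = 0 := by
      rw [map_smul]
      exact ha
    exact (Submodule.Quotient.mk_eq_zero Λ).1 h2
  · right
    have : Module.Finite ℤ M := inferInstance
    have : Module.IsTorsionFree ℤ M := inferInstance
    have : Module.Free ℤ M := inferInstance
    let b := Module.Free.chooseBasis ℤ M
    have h1 : b.repr (π u) ≠ 0 := by
      intro h2
      exact h (by simpa using h2)
    obtain ⟨m, hm⟩ := Finsupp.ne_iff.1 h1
    let f : (ι → ℤ) →ₗ[ℤ] ℤ := (b.coord m).comp π
    have hf : ∀ v : ι → ℤ, f v = ∑ l, v l * f (Pi.single l 1) := by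
      intro v
      conv_lhs => rw [← Finset.univ_sum_single v]
      rw [map_sum]
      refine Finset.sum_congr rfl fun l _ => ?_
      have : (Pi.single l (v l) : ι → ℤ) = v l • (Pi.single l (1 : ℤ) : ι → ℤ) := by
        rw [← Pi.single_smul, smul_eq_mul, mul_one]
      rw [this, map_smul, smul_eq_mul]
    refine ⟨fun l => f (Pi.single l 1), ?_, ?_⟩
    · intro h2
      apply hm
      have h3 : f u = 0 := by
        rw [hu, map_sub]
        simp only at h2
        rw [h2, sub_self]
      simpa [f] using h3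
    · intro v hv
      rw [← hf]
      have h3 : Λ.mkQ v = 0 := (Submodule.Quotient.mk_eq_zero Λ).2 hv
      have : π v = 0 := by
        simp only [π, LinearMap.comp_apply]
        rw [h3, map_zero]
      simp [f, this]

/-- The monomial `x^α`. -/
def kmon {K ι : Type*} [CommMonoid K] [Fintype ι] (x : ι → K) (α : ι →₀ ℕ) : K := ∏ l, x l ^ α l

/-- The hyperplane of values of the monomials of `f` given by the coefficients of `f`. -/
def kumC {K ι : Type*} [Field K] (f : MvPolynomial ι K) : Submodule K ({α // α ∈ f.support} → K) where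
  carrier := {z | ∑ α : {α // α ∈ f.support}, f.coeff α.1 * z α = 0}
  add_mem' := by
    intro y z hy hz
    simp only [Set.mem_ofPred_eq, Pi.add_apply, mul_add, Finset.sum_add_distrib] at *
    rw [hy, hz, add_zero]
  zero_mem' := by simp
  smul_mem' := by
    intro c z hz
    simp only [Set.mem_ofPred_eq, Pi.smul_apply, smul_eq_mul] at *
    have : ∀ α : {α // α ∈ f.support}, f.coeff α.1 * (c * z α) = c * (f.coeff α.1 * z α) :=
      fun α => by ring
    simp only [this]
    rw [← Finset.mul_sum, hz, mul_zero]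

theorem mem_kumC {K ι : Type*} [Field K] [Fintype ι] (f : MvPolynomial ι K) (x : ι → K) (d : ℕ) :
    MvPolynomial.eval (fun j => x j ^ d) f = 0 ↔
      (fun α : {α // α ∈ f.support} => kmon x α.1 ^ d) ∈ kumC f := by
  have h : MvPolynomial.eval (fun j => x j ^ d) f =
      ∑ α : {α // α ∈ f.support}, f.coeff α.1 * kmon x α.1 ^ d := by
    rw [MvPolynomial.eval_eq', Finset.sum_coe_sort f.support
      (fun α => f.coeff α * kmon x α ^ d)]
    refine Finset.sum_congr rfl fun α _ => ?_
    congr 1
    simp only [kmon]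
    rw [← Finset.prod_pow]
    refine Finset.prod_congr rfl fun l _ => ?_
    rw [← pow_mul, ← pow_mul, mul_comm]
  rw [h]
  rfl

theorem finrank_kumC {K ι : Type*} [Field K] (f : MvPolynomial ι K) {N : ℕ}
    (hf : f.support.card ≤ N + 1) : Module.finrank K (kumC f) ≤ N := by
  classical
  by_cases h0 : f.support = ∅
  · have h1 : Module.finrank K (kumC f) ≤ Module.finrank K ({α // α ∈ f.support} → K) :=
      Submodule.finrank_le _
    have h2 : f.support.card = 0 := by rw [h0, Finset.card_empty]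
    rw [Module.finrank_fintype_fun_eq_card, Fintype.card_coe, h2] at h1
    omega
  · obtain ⟨α, hα⟩ := Finset.nonempty_iff_ne_empty.2 h0
    have h1 : Module.finrank K (kumC f) < Module.finrank K ({α // α ∈ f.support} → K) := by
      apply Submodule.finrank_lt
      intro h2
      have h3 : (Pi.single (⟨α, hα⟩ : {α // α ∈ f.support}) (1 : K)) ∈ kumC f := by
        rw [h2]; trivial
      change ∑ β : {α // α ∈ f.support}, f.coeff β.1 *
        (Pi.single (⟨α, hα⟩ : {α // α ∈ f.support}) (1 : K) : _ → K) β = 0 at h3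
      rw [Finset.sum_eq_single (⟨α, hα⟩ : {α // α ∈ f.support})] at h3
      · simp only [Pi.single_eq_same, mul_one] at h3
        exact (MvPolynomial.mem_support_iff.1 hα) h3
      · intro β _ hβ
        rw [Pi.single_eq_of_ne hβ, mul_zero]
      · intro h
        exact absurd (Finset.mem_univ _) h
    rw [Module.finrank_fintype_fun_eq_card, Fintype.card_coe] at h1
    omega

theorem kmon_ne_zero {K ι : Type*} [Field K] [Fintype ι] {x : ι → K} {α : ι →₀ ℕ} :
    kmon x α ≠ 0 ↔ ∀ l, α l ≠ 0 → x l ≠ 0 := by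
  unfold kmon
  rw [Finset.prod_ne_zero_iff]
  constructor
  · intro h l hl h0
    exact h l (Finset.mem_univ l) (by rw [h0, zero_pow hl])
  · intro h l _
    by_cases hl : α l = 0
    · rw [hl, pow_zero]; exact one_ne_zero
    · exact pow_ne_zero _ (h l hl)

/-- The rational points of a one-parameter subgroup orbit satisfy the equation, if the weight is
constant on the blocks. -/
theorem kum_orbit {k K ι : Type*} [Field k] [Field K] [Algebra k K] [Fintype ι]
    (f : MvPolynomial ι K) {d : ℕ} (hd0 : 0 < d) (x : ι → K)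
    (p : {α // α ∈ f.support} → K) (T : Submodule k ({α // α ∈ f.support} → k))
    (hT : ∀ w ∈ T, (fun α => p α ^ d * algebraMap k K (w α)) ∈ kumC f)
    (l : {α // α ∈ f.support} → K) (c : {α // α ∈ f.support} → k)
    (h1 : ∀ α, kmon x α.1 = l α * (p α * algebraMap k K (c α)))
    (h2 : ∀ v : K, {α | l α = v}.indicator (fun α => c α ^ d) ∈ T)
    (w : ι → ℤ) (hw : ∀ α β : {α // α ∈ f.support}, l α = l β → kmon x α.1 ≠ 0 →
      kmon x β.1 ≠ 0 → ∑ j, (α.1 j : ℤ) * w j = ∑ j, (β.1 j : ℤ) * w j)
    (t : K) (ht : t ≠ 0) :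
    MvPolynomial.eval (fun j => (t ^ w j * x j) ^ d) f = 0 := by
  classical
  rw [mem_kumC f (fun j => t ^ w j * x j) d]
  have hm : ∀ α : ι →₀ ℕ, kmon (fun j => t ^ w j * x j) α =
      t ^ (∑ j, (α j : ℤ) * w j) * kmon x α := by
    intro α
    simp only [kmon, mul_pow, Finset.prod_mul_distrib]
    congr 1
    have : ∀ s : Finset ι, ∏ j ∈ s, (t ^ w j) ^ α j = t ^ (∑ j ∈ s, (α j : ℤ) * w j) := by
      intro s
      induction s using Finset.induction_on with
      | empty => simp
      | insert a s ha ih =>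
        rw [Finset.prod_insert ha, Finset.sum_insert ha, ih, zpow_add₀ ht, mul_comm (α a : ℤ),
          zpow_mul, zpow_natCast]
    exact this Finset.univ
  -- the value of the weight on a block
  let g : K → K := fun v =>
    if h : ∃ α : {α // α ∈ f.support}, l α = v ∧ kmon x α.1 ≠ 0 then
      t ^ (∑ j, ((Classical.choose h).1 j : ℤ) * w j) else 0
  have hg : ∀ α : {α // α ∈ f.support}, kmon x α.1 ≠ 0 →
      g (l α) = t ^ (∑ j, (α.1 j : ℤ) * w j) := by
    intro α hα
    have h : ∃ β : {α // α ∈ f.support}, l β = l α ∧ kmon x β.1 ≠ 0 := ⟨α, rfl, hα⟩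
    simp only [g]
    rw [dif_pos h]
    have h3 := Classical.choose_spec h
    rw [hw _ α h3.1 h3.2 hα]
  have h4 : (fun α : {α // α ∈ f.support} => kmon (fun j => t ^ w j * x j) α.1 ^ d) =
      ∑ v ∈ Finset.univ.image l, (g v ^ d * v ^ d) •
        (fun α => p α ^ d * algebraMap k K ({β | l β = v}.indicator (fun β => c β ^ d) α)) := by
    funext α
    rw [Finset.sum_apply, Finset.sum_eq_single (l α)]
    · have h5 : {β : {α // α ∈ f.support} | l β = l α}.indicator (fun β => c β ^ d) α = c α ^ d := by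
        simp
      rw [Pi.smul_apply, h5, smul_eq_mul, hm]
      by_cases hα : kmon x α.1 = 0
      · have h6 : (l α) ^ d * (p α ^ d * algebraMap k K (c α ^ d)) = 0 := by
          rw [map_pow, ← mul_pow, ← mul_pow, ← h1 α, hα, zero_pow hd0.ne']
        rw [hα, mul_zero, zero_pow hd0.ne', mul_assoc, h6, mul_zero]
      · rw [hg α hα, h1 α, map_pow]
        ring
    · intro v _ hv
      simp [Set.indicator, Ne.symm hv]
    · intro h
      exact absurd (Finset.mem_image_of_mem l (Finset.mem_univ α)) h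
  rw [h4]
  exact (kumC f).sum_mem fun v _ => (kumC f).smul_mem _ (hT _ (h2 v))

/-- Two points whose monomials agree on a lattice up to constants: coordinates in a common class. -/
theorem kum_class {k K ι : Type*} [Field k] [Field K] [Algebra k K] [Fintype ι] [DecidableEq ι]
    (hk : ∀ x : K, IsAlgebraic k x → ∃ c : k, algebraMap k K c = x)
    (y : ι → K) (hy : ∀ l, y l ≠ 0) (Λ : Submodule ℤ (ι → ℤ)) (G : Set (ι → ℤ))
    (hΛ : Λ = Submodule.span ℤ G)
    (hG : ∀ v ∈ G, ∃ c : k, c ≠ 0 ∧ ∏ l, y l ^ v l = algebraMap k K c) (i j : ι)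
    (a : ℤ) (ha : a ≠ 0) (h : a • (Pi.single i (1 : ℤ) - Pi.single j (1 : ℤ) : ι → ℤ) ∈ Λ) :
    ∃ c : k, y i = y j * algebraMap k K c := by
  classical
  let V : AddSubgroup (ι → ℤ) :=
    { carrier := {v | ∃ c : k, c ≠ 0 ∧ ∏ l, y l ^ v l = algebraMap k K c}
      zero_mem' := ⟨1, one_ne_zero, by simp⟩
      add_mem' := by
        rintro u v ⟨c, hc, h1⟩ ⟨e, he, h2⟩
        refine ⟨c * e, mul_ne_zero hc he, ?_⟩
        rw [map_mul, ← h1, ← h2, ← Finset.prod_mul_distrib]
        exact Finset.prod_congr rfl fun l _ => by rw [Pi.add_apply, zpow_add₀ (hy l)]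
      neg_mem' := by
        rintro u ⟨c, hc, h1⟩
        refine ⟨c⁻¹, inv_ne_zero hc, ?_⟩
        rw [map_inv₀, ← h1, ← Finset.prod_inv_distrib]
        exact Finset.prod_congr rfl fun l _ => by rw [Pi.neg_apply, zpow_neg] }
  have hle : Λ ≤ AddSubgroup.toIntSubmodule V := by
    rw [hΛ, Submodule.span_le]
    intro v hv
    exact hG v hv
  obtain ⟨c, hc, h1⟩ := hle h
  by_cases hij : i = j
  · subst hij
    exact ⟨1, by simp⟩
  have h2 : ∏ l, y l ^ ((a • (Pi.single i (1 : ℤ) - Pi.single j (1 : ℤ)) : ι → ℤ) l) =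
      (y i / y j) ^ a := by
    rw [← Finset.mul_prod_erase _ _ (Finset.mem_univ i),
      ← Finset.mul_prod_erase _ _ (Finset.mem_erase.2 ⟨Ne.symm hij, Finset.mem_univ j⟩),
      Finset.prod_eq_one]
    · have e1 : ((a • (Pi.single i (1 : ℤ) - Pi.single j (1 : ℤ)) : ι → ℤ) i) = a := by
        simp [hij]
      have e2 : ((a • (Pi.single i (1 : ℤ) - Pi.single j (1 : ℤ)) : ι → ℤ) j) = -a := by
        simp [Ne.symm hij]
      rw [e1, e2, mul_one, div_zpow, zpow_neg, div_eq_mul_inv]
    · intro l hl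
      rw [Finset.mem_erase, Finset.mem_erase] at hl
      have e3 : ((a • (Pi.single i (1 : ℤ) - Pi.single j (1 : ℤ)) : ι → ℤ) l) = 0 := by
        simp [hl.1, hl.2.1]
      rw [e3, zpow_zero]
  rw [h2] at h1
  have h3 : ∃ e : k, (y i / y j) ^ a.natAbs = algebraMap k K e := by
    rcases Int.natAbs_eq a with h4 | h4
    · refine ⟨c, ?_⟩
      rw [← h1, ← zpow_natCast]
      congr 1
      exact h4.symm
    · refine ⟨c⁻¹, ?_⟩
      rw [map_inv₀, ← h1, ← zpow_natCast, ← zpow_neg]
      congr 1
      omega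
  obtain ⟨e, he⟩ := h3
  have h5 : IsIntegral k (y i / y j) := by
    apply IsIntegral.of_pow (Int.natAbs_pos.2 ha)
    rw [he]
    exact isIntegral_algebraMap
  obtain ⟨c', hc'⟩ := hk _ h5.isAlgebraic
  refine ⟨c', ?_⟩
  rw [hc']
  field_simp [hy j]

/-- The constants at which a polynomial over `K` vanishes form a closed set over `k`. -/
theorem kum_desc {k K ι : Type*} [Field k] [Field K] [Algebra k K] (P : MvPolynomial ι K) :
    ∃ G : Set (MvPolynomial ι k), G.Finite ∧
      (∀ c : ι → k, MvPolynomial.eval (fun j => algebraMap k K (c j)) P = 0 →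
        ∀ g ∈ G, MvPolynomial.eval c g = 0) ∧
      (∀ z : ι → K, (∀ g ∈ G, MvPolynomial.aeval z g = 0) → MvPolynomial.eval z P = 0) := by
  classical
  let W : Submodule k K := Submodule.span k ((fun α => P.coeff α) '' (P.support : Set (ι →₀ ℕ)))
  have hfin : FiniteDimensional k W :=
    FiniteDimensional.span_of_finite k ((P.support.finite_toSet).image _)
  let b := Module.finBasis k W
  let co : (ι →₀ ℕ) → W := fun α => if h : α ∈ P.support then
    ⟨P.coeff α, Submodule.subset_span ⟨α, h, rfl⟩⟩ else 0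
  let g : Fin (Module.finrank k W) → MvPolynomial ι k := fun r =>
    ∑ α ∈ P.support, MvPolynomial.monomial α (b.repr (co α) r)
  have hP : ∀ z : ι → K, MvPolynomial.eval z P =
      ∑ r, (b r : K) * MvPolynomial.aeval z (g r) := by
    intro z
    rw [MvPolynomial.eval_eq]
    simp only [g, map_sum, MvPolynomial.aeval_monomial]
    simp_rw [Finset.mul_sum]
    rw [Finset.sum_comm]
    refine Finset.sum_congr rfl fun α hα => ?_
    have h1 : P.coeff α = ∑ r, (b r : K) * algebraMap k K (b.repr (co α) r) := by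
      have h2 := b.sum_repr (co α)
      have h3 := congrArg (fun w : W => (w : K)) h2
      simp only [AddSubmonoidClass.coe_finsetSum, SetLike.val_smul] at h3
      have h4 : ((co α : W) : K) = P.coeff α := by
        simp only [co]
        rw [dif_pos hα]
      rw [h4] at h3
      rw [← h3]
      refine Finset.sum_congr rfl fun r _ => ?_
      rw [Algebra.smul_def, mul_comm]
    rw [h1, Finset.sum_mul]
    refine Finset.sum_congr rfl fun r _ => ?_
    rw [Finsupp.prod, mul_assoc]
  refine ⟨Set.range g, Set.finite_range g, ?_, ?_⟩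
  · rintro c hc _ ⟨r, rfl⟩
    rw [hP] at hc
    have h1 : ∑ r, MvPolynomial.eval c (g r) • (b r : K) = 0 := by
      rw [← hc]
      refine Finset.sum_congr rfl fun r _ => ?_
      rw [Algebra.smul_def, mul_comm]
      congr 1
      have : (fun j => algebraMap k K (c j)) = algebraMap k K ∘ c := rfl
      rw [this, MvPolynomial.aeval_algebraMap_apply, MvPolynomial.aeval_eq_eval]
    have h2 : LinearIndependent k (fun r => (b r : K)) :=
      b.linearIndependent.map' W.subtype (Submodule.ker_subtype W)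
    exact Fintype.linearIndependent_iff.1 h2 _ h1 r
  · intro z hz
    rw [hP]
    refine Finset.sum_eq_zero fun r _ => ?_
    rw [hz _ ⟨r, rfl⟩, mul_zero]

end Pool.Agent.GBL
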