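import Pool.Agent.GBL.KumT

/-!
# Structure of the rational points of Kummer covers
-/

open Function

namespace Pool.Agent.GBL

/-- Rescaling a block. -/
theorem blk_scale {K J : Type*} [Field K] [Fintype J] {d : ℕ} (hd0 : 0 < d) (r A B Z g : J → K)
    (hg0 : ∀ α, g α ≠ 0)
    (hg : ∀ α β, r α = r β → B α ≠ 0 → B β ≠ 0 → g α = g β) (v : K) :
    ∃ τ : K, τ ≠ 0 ∧ (∑ α, {α | r α = v}.indicator (fun α => A α * (g α * (B α * Z α)) ^ d) α) =
      τ * ∑ α, {α | r α = v}.indicator (fun α => A α * B α ^ d * Z α ^ d) α := by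
  classical
  by_cases h : ∃ α₀, r α₀ = v ∧ B α₀ ≠ 0
  · obtain ⟨α₀, h1, h2⟩ := h
    refine ⟨g α₀ ^ d, pow_ne_zero _ (hg0 α₀), ?_⟩
    rw [Finset.mul_sum]
    refine Finset.sum_congr rfl fun α _ => ?_
    by_cases hα : r α = v
    · rw [Set.indicator_of_mem (show α ∈ {α | r α = v} from hα),
        Set.indicator_of_mem (show α ∈ {α | r α = v} from hα)]
      by_cases hB : B α = 0
      · simp [hB, hd0.ne']
      · rw [hg α α₀ (hα.trans h1.symm) hB h2]
        ring
    · rw [Set.indicator_of_notMem (show α ∉ {α | r α = v} from hα),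
        Set.indicator_of_notMem (show α ∉ {α | r α = v} from hα), mul_zero]
  · push Not at h
    refine ⟨1, one_ne_zero, ?_⟩
    rw [one_mul]
    refine Finset.sum_congr rfl fun α _ => ?_
    by_cases hα : r α = v
    · rw [Set.indicator_of_mem (show α ∈ {α | r α = v} from hα),
        Set.indicator_of_mem (show α ∈ {α | r α = v} from hα)]
      simp [h α hα, hd0.ne']
    · rw [Set.indicator_of_notMem (show α ∉ {α | r α = v} from hα),
        Set.indicator_of_notMem (show α ∉ {α | r α = v} from hα)]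

/-- A sum over all indices is the sum of the sums over the blocks. -/
theorem sum_blocks {K J : Type*} [Field K] [Fintype J] (r A : J → K)
    (h : ∀ v, ∑ α, {α | r α = v}.indicator A α = 0) : ∑ α, A α = 0 := by
  classical
  have h1 : ∑ α, A α = ∑ v ∈ Finset.univ.image r, ∑ α, {α | r α = v}.indicator A α := by
    rw [Finset.sum_comm]
    refine Finset.sum_congr rfl fun α _ => ?_
    rw [Finset.sum_eq_single (r α)]
    · simp
    · intro v _ hv
      simp [Set.indicator, Ne.symm hv]
    · intro h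
      exact absurd (Finset.mem_image_of_mem r (Finset.mem_univ α)) h
  rw [h1]
  exact Finset.sum_eq_zero fun v _ => h v

theorem kmon_mul {K ι : Type*} [Field K] [Fintype ι] (x y : ι → K) (α : ι →₀ ℕ) :
    kmon (fun l => x l * y l) α = kmon x α * kmon y α := by
  simp only [kmon, mul_pow, Finset.prod_mul_distrib]

open scoped Classical in
/-- The polynomial of a block. -/
noncomputable def kblk {K ι : Type*} [Field K] [Fintype ι] (f : MvPolynomial ι K) (d : ℕ)
    (b : ι → K) (R : Set ({α // α ∈ f.support} × {α // α ∈ f.support}))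
    (β : {α // α ∈ f.support}) : MvPolynomial ι K :=
  ∑ α : {α // α ∈ f.support}, if (α, β) ∈ R then
    MvPolynomial.monomial (d • α.1) (f.coeff α.1 * kmon b α.1 ^ d) else 0

theorem eval_kblk {K ι : Type*} [Field K] [Fintype ι] (f : MvPolynomial ι K) (d : ℕ)
    (b : ι → K) (r : {α // α ∈ f.support} → K)
    (β : {α // α ∈ f.support}) (z : ι → K) :
    MvPolynomial.eval z (kblk f d b {q | r q.1 = r q.2} β) =
      ∑ α, {α | r α = r β}.indicator
        (fun α : {α // α ∈ f.support} => f.coeff α.1 * kmon b α.1 ^ d * kmon z α.1 ^ d) α := by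
  classical
  unfold kblk
  rw [map_sum]
  refine Finset.sum_congr rfl fun α _ => ?_
  by_cases h : r α = r β
  · rw [if_pos (show (α, β) ∈ {q : {α // α ∈ f.support} × {α // α ∈ f.support} | r q.1 = r q.2}
      from h), Set.indicator_of_mem (show α ∈ {α | r α = r β} from h), MvPolynomial.eval_monomial,
      Finsupp.prod_fintype _ _ (fun i => pow_zero _)]
    congr 1
    simp only [kmon]
    rw [← Finset.prod_pow]
    refine Finset.prod_congr rfl fun l _ => ?_
    rw [← pow_mul, Finsupp.smul_apply, smul_eq_mul, mul_comm]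
  · rw [if_neg (show (α, β) ∉ {q : {α // α ∈ f.support} × {α // α ∈ f.support} | r q.1 = r q.2}
      from h), Set.indicator_of_notMem (show α ∉ {α | r α = r β} from h), map_zero]

/-- The complete structure of the rational points of `X = {F_i(x^(d_i)) = 0}`. -/
theorem kum_struct {k K : Type*} [Field k] [CharZero k] [Field K] [Algebra k K]
    [Algebra.EssFiniteType k K]
    (hk : ∀ x : K, IsAlgebraic k x → ∃ c : k, algebraMap k K c = x)
    {ι κ : Type*} [Fintype ι] [Finite κ] (F : κ → MvPolynomial ι K) (d : κ → ℕ)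
    (hd0 : ∀ i, 0 < d i) (hd : ∀ i, ((F i).support.card - 1) ^ 2 ≤ d i)
    (X : Set (ι → K)) (hX : X = {x | ∀ i, MvPolynomial.eval (fun j => x j ^ d i) (F i) = 0}) :
    ∃ S : Set ((ι → K) × Set (ι → ℤ) × Set (MvPolynomial ι k)), S.Finite ∧
      (∀ p ∈ S, p.1 ∈ X ∧ p.2.2.Finite ∧
        (∀ z : ι → K, (∀ g ∈ p.2.2, MvPolynomial.aeval z g = 0) → (∀ l, p.1 l = 0 → z l = 0) ∧
          ∀ h ∈ torus K p.2.1, (fun l => (h l : K) * (p.1 l * z l)) ∈ X)) ∧
      ∀ x ∈ X, ∃ p ∈ S, ∃ c : ι → k, (∀ g ∈ p.2.2, MvPolynomial.eval c g = 0) ∧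
        (∀ l, c l = 0 ↔ p.1 l = 0) ∧
        ∃ h ∈ torus K p.2.1, ∀ l, x l = h l * (p.1 l * algebraMap k K (c l)) := by
  classical
  have hS := fun i => blk (kumC (F i)) (d i) (hd0 i) (rf_all hk (kumC (F i))
    (le_trans (Nat.pow_le_pow_left (finrank_kumC (F i) (N := (F i).support.card - 1) (by omega)) 2)
      (hd i)) (hd0 i))
  choose S hSfin hS1 hS2 hS3 using hS
  -- types
  let Ty := Set ι × (∀ i : κ, {p // p ∈ S i}) ×
    (∀ i : κ, Set ({α // α ∈ (F i).support} × {α // α ∈ (F i).support}))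
  have hfinS : ∀ i, Finite {p // p ∈ S i} := fun i => (hSfin i).to_subtype
  have hTy : Finite Ty := inferInstance
  let Has : Ty → (ι → K) → Prop := fun τ x =>
    τ.1 = {l | x l ≠ 0} ∧ ∀ i, ∃ (l : {α // α ∈ (F i).support} → K)
      (c : {α // α ∈ (F i).support} → k),
      (∀ α, kmon x α.1 = l α * ((τ.2.1 i).1.1 α * algebraMap k K (c α))) ∧
      (∀ v : K, {α | l α = v}.indicator (fun α => c α ^ d i) ∈ (τ.2.1 i).1.2) ∧
      τ.2.2 i = {q | l q.1 = l q.2}
  have hHas : ∀ x ∈ X, ∃ τ, Has τ x := by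
    intro x hx
    rw [hX] at hx
    have h1 := fun i => hS2 i (fun α => kmon x α.1) ((mem_kumC (F i) x (d i)).1 (hx i))
    choose p hp l c h2 h3 using h1
    exact ⟨⟨{l | x l ≠ 0}, fun i => ⟨p i, hp i⟩, fun i => {q | l i q.1 = l i q.2}⟩, rfl,
      fun i => ⟨l i, c i, h2 i, h3 i, rfl⟩⟩
  -- the block equations of a point with a type
  have hblock : ∀ (i : κ) (τ : Ty) (x : ι → K) (l : {α // α ∈ (F i).support} → K)
      (c : {α // α ∈ (F i).support} → k),
      (∀ α, kmon x α.1 = l α * ((τ.2.1 i).1.1 α * algebraMap k K (c α))) →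
      (∀ v : K, {α | l α = v}.indicator (fun α => c α ^ d i) ∈ (τ.2.1 i).1.2) →
      ∀ v : K, ∑ α, {α | l α = v}.indicator
        (fun α : {α // α ∈ (F i).support} => (F i).coeff α.1 * kmon x α.1 ^ d i) α = 0 := by
    intro i τ x l c h1 h2 v
    have h3 : ∑ α : {α // α ∈ (F i).support}, (F i).coeff α.1 * ((τ.2.1 i).1.1 α ^ d i *
        algebraMap k K ({α | l α = v}.indicator (fun α => c α ^ d i) α)) = 0 :=
      (hS1 i _ (τ.2.1 i).2 _ (h2 v)).2
    rw [← mul_zero (v ^ d i), ← h3, Finset.mul_sum]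
    refine Finset.sum_congr rfl fun α _ => ?_
    by_cases hα : l α = v
    · rw [Set.indicator_of_mem (show α ∈ {α | l α = v} from hα),
        Set.indicator_of_mem (show α ∈ {α | l α = v} from hα), h1 α, hα, map_pow]
      ring
    · rw [Set.indicator_of_notMem (show α ∉ {α | l α = v} from hα),
        Set.indicator_of_notMem (show α ∉ {α | l α = v} from hα), map_zero]
      ring
  -- data attached to a type and a representative
  let Gset : Ty → (ι → K) → Set (ι → ℤ) := fun τ b =>
    {v | ∃ i, ∃ α β : {α // α ∈ (F i).support}, (α, β) ∈ τ.2.2 i ∧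
      kmon b α.1 ≠ 0 ∧ kmon b β.1 ≠ 0 ∧ v = fun l => (α.1 l : ℤ) - (β.1 l : ℤ)}
  let Λ : Ty → (ι → K) → Submodule ℤ (ι → ℤ) := fun τ b => Submodule.span ℤ (Gset τ b)
  let Gp : Ty → (ι → K) → Set (MvPolynomial ι k) := fun τ b =>
    (⋃ i, ⋃ β : {α // α ∈ (F i).support},
      Classical.choose (kum_desc (k := k) (kblk (F i) (d i) b (τ.2.2 i) β))) ∪
    (fun l : ι => (MvPolynomial.X l : MvPolynomial ι k)) '' {l | b l = 0}
  let rep : Ty → (ι → K) := fun τ =>
    if h : ∃ x ∈ X, Has τ x then Classical.choose h else 0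
  -- constancy of characters on blocks
  have hconst : ∀ (τ : Ty) (b : ι → K) (h : ι → Kˣ), h ∈ torus K (kumW (Λ τ b)) →
      ∀ (i : κ) (α β : {α // α ∈ (F i).support}), (α, β) ∈ τ.2.2 i → kmon b α.1 ≠ 0 →
      kmon b β.1 ≠ 0 → kmon (fun l => (h l : K)) α.1 = kmon (fun l => (h l : K)) β.1 := by
    intro τ b h hh i α β h1 h2 h3
    refine torus_const _ α.1 β.1 ?_ h hh
    intro w hw
    have h4 := kumW_orth (Λ τ b) w hw _ (Submodule.subset_span
      (show (fun l => (α.1 l : ℤ) - (β.1 l : ℤ)) ∈ Gset τ b from ⟨i, α, β, h1, h2, h3, rfl⟩))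
    rw [← sub_eq_zero, ← Finset.sum_sub_distrib, ← h4]
    exact Finset.sum_congr rfl fun l _ => by ring
  have hkh : ∀ (h : ι → Kˣ) (α : ι →₀ ℕ), kmon (fun l => (h l : K)) α ≠ 0 := fun h α =>
    kmon_ne_zero.2 fun l _ => (h l).ne_zero
  refine ⟨(fun τ => (rep τ, kumW (Λ τ (rep τ)), Gp τ (rep τ))) '' {τ | ∃ x ∈ X, Has τ x},
    (Set.toFinite _).image _, ?_, ?_⟩
  · rintro _ ⟨τ, hτ, rfl⟩
    have hτ' : ∃ x ∈ X, Has τ x := hτ
    obtain ⟨hbX, hbτ⟩ : rep τ ∈ X ∧ Has τ (rep τ) := by
      simp only [rep]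
      rw [dif_pos hτ']
      exact Classical.choose_spec hτ'
    simp only
    generalize rep τ = b at hbX hbτ
    refine ⟨hbX, ?_, ?_⟩
    · refine Set.Finite.union (Set.finite_iUnion fun i => Set.finite_iUnion fun β => ?_)
        ((Set.toFinite _).image _)
      exact (Classical.choose_spec (kum_desc (k := k) (kblk (F i) (d i) b (τ.2.2 i) β))).1
    · intro z hz
      refine ⟨?_, ?_⟩
      · intro l hl
        have h1 := hz (MvPolynomial.X l) (Or.inr ⟨l, hl, rfl⟩)
        rwa [MvPolynomial.aeval_X] at h1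
      · intro h hh
        rw [hX]
        intro i
        rw [mem_kumC (F i) (fun l => (h l : K) * (b l * z l)) (d i)]
        obtain ⟨hsb, hb2⟩ := hbτ
        obtain ⟨lb, cb, hb3, hb4, hb5⟩ := hb2 i
        change ∑ α : {α // α ∈ (F i).support}, (F i).coeff α.1 *
          kmon (fun l => (h l : K) * (b l * z l)) α.1 ^ d i = 0
        refine sum_blocks lb _ ?_
        intro v
        obtain ⟨t, ht0, ht⟩ := blk_scale (hd0 i) lb (fun α => (F i).coeff α.1)
          (fun α => kmon b α.1) (fun α => kmon z α.1) (fun α => kmon (fun l => (h l : K)) α.1)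
          (fun α => hkh h α.1)
          (fun α β h1 h2 h3 => hconst τ b h hh i α β (by rw [hb5]; exact h1) h2 h3) v
        have h5 : (fun α : {α // α ∈ (F i).support} => (F i).coeff α.1 *
            kmon (fun l => (h l : K) * (b l * z l)) α.1 ^ d i) =
            fun α => (F i).coeff α.1 * (kmon (fun l => (h l : K)) α.1 *
              (kmon b α.1 * kmon z α.1)) ^ d i := by
          funext α
          rw [kmon_mul, kmon_mul]
        rw [h5, ht]
        by_cases hv : ∃ β, lb β = v
        · obtain ⟨β, rfl⟩ := hv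
          rw [← eval_kblk (F i) (d i) b lb β z, ← hb5]
          have h6 : MvPolynomial.eval z (kblk (F i) (d i) b (τ.2.2 i) β) = 0 := by
            refine (Classical.choose_spec (kum_desc (k := k)
              (kblk (F i) (d i) b (τ.2.2 i) β))).2.2 z fun g hg => ?_
            exact hz g (Or.inl (Set.mem_iUnion.2 ⟨i, Set.mem_iUnion.2 ⟨β, hg⟩⟩))
          rw [h6, mul_zero]
        · push Not at hv
          rw [Finset.sum_eq_zero, mul_zero]
          intro α _
          exact Set.indicator_of_notMem (show α ∉ {α | lb α = v} from hv α) _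
  · intro x hx
    obtain ⟨τ, hτx⟩ := hHas x hx
    have hex : ∃ x ∈ X, Has τ x := ⟨x, hx, hτx⟩
    refine ⟨_, ⟨τ, hex, rfl⟩, ?_⟩
    obtain ⟨hbX, hbτ⟩ : rep τ ∈ X ∧ Has τ (rep τ) := by
      simp only [rep]
      rw [dif_pos hex]
      exact Classical.choose_spec hex
    simp only
    generalize rep τ = b at hbX hbτ
    obtain ⟨hsx, hx2⟩ := hτx
    obtain ⟨hsb, hb2⟩ := hbτ
    have hsupp : ∀ l, x l ≠ 0 ↔ b l ≠ 0 := by
      intro l
      have : {l | x l ≠ 0} = {l | b l ≠ 0} := by rw [← hsx, ← hsb]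
      exact Set.ext_iff.1 this l
    choose lx cx hx3 hx4 hx5 using hx2
    choose lb cb hb3 hb4 hb5 using hb2
    -- the ratio
    let y : ι → Kˣ := fun l => if h : b l = 0 then 1 else
      Units.mk0 (x l / b l) (div_ne_zero ((hsupp l).2 h) h)
    have hyb : ∀ l, (y l : K) * b l = x l := by
      intro l
      simp only [y]
      split_ifs with h
      · rw [h, mul_zero]
        by_contra h1
        exact (hsupp l).1 (Ne.symm h1) h
      · exact div_mul_cancel₀ _ h
    have hmon : ∀ α : ι →₀ ℕ, kmon (fun l => (y l : K)) α * kmon b α = kmon x α := by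
      intro α
      rw [← kmon_mul]
      simp only [hyb]
    let V : AddSubgroup (ι → ℤ) :=
      { carrier := {v | ∃ c : k, c ≠ 0 ∧ ((∏ l, y l ^ v l : Kˣ) : K) = algebraMap k K c}
        zero_mem' := ⟨1, one_ne_zero, by simp⟩
        add_mem' := by
          rintro u v ⟨c, hc, h1⟩ ⟨e, he, h2⟩
          refine ⟨c * e, mul_ne_zero hc he, ?_⟩
          rw [map_mul, ← h1, ← h2, ← Units.val_mul, ← Finset.prod_mul_distrib]
          congr 1
          exact Finset.prod_congr rfl fun l _ => by rw [Pi.add_apply, zpow_add]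
        neg_mem' := by
          rintro u ⟨c, hc, h1⟩
          refine ⟨c⁻¹, inv_ne_zero hc, ?_⟩
          rw [map_inv₀, ← h1, ← Units.val_inv_eq_inv_val, ← Finset.prod_inv_distrib]
          congr 1
          exact Finset.prod_congr rfl fun l _ => by rw [Pi.neg_apply, zpow_neg] }
    have hGV : Gset τ b ⊆ V := by
      rintro _ ⟨i, α, β, h1, h2, h3, rfl⟩
      change ∃ c : k, c ≠ 0 ∧ ((∏ l, y l ^ ((α.1 l : ℤ) - (β.1 l : ℤ)) : Kˣ) : K) =
        algebraMap k K c
      have h4 : ((∏ l, y l ^ ((α.1 l : ℤ) - (β.1 l : ℤ)) : Kˣ) : K) =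
          kmon (fun l => (y l : K)) α.1 / kmon (fun l => (y l : K)) β.1 := by
        simp only [kmon]
        rw [← Finset.prod_div_distrib, Units.coe_prod]
        refine Finset.prod_congr rfl fun l _ => ?_
        rw [Units.val_zpow_eq_zpow_val, zpow_sub₀ (y l).ne_zero, zpow_natCast, zpow_natCast]
      have hl1 : lx i α = lx i β := by
        have : (α, β) ∈ τ.2.2 i := h1
        rw [hx5] at this
        exact this
      have hl2 : lb i α = lb i β := by
        have : (α, β) ∈ τ.2.2 i := h1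
        rw [hb5] at this
        exact this
      have hx' : ∀ γ : {α // α ∈ (F i).support}, kmon b γ.1 ≠ 0 → kmon x γ.1 ≠ 0 := by
        intro γ hγ
        rw [kmon_ne_zero] at hγ ⊢
        exact fun l hl => (hsupp l).2 (hγ l hl)
      have hxα := hx' α h2
      have hxβ := hx' β h3
      have e1 := hb3 i α
      have e2 := hb3 i β
      have e3 := hx3 i α
      have e4 := hx3 i β
      have n1 : lb i α ≠ 0 := by intro h; rw [h, zero_mul] at e1; exact h2 e1
      have n2 : (τ.2.1 i).1.1 α ≠ 0 := by intro h; rw [h, zero_mul, mul_zero] at e1; exact h2 e1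
      have n3 : cb i α ≠ 0 := by intro h; rw [h, map_zero, mul_zero, mul_zero] at e1; exact h2 e1
      have n4 : (τ.2.1 i).1.1 β ≠ 0 := by intro h; rw [h, zero_mul, mul_zero] at e2; exact h3 e2
      have n5 : cb i β ≠ 0 := by intro h; rw [h, map_zero, mul_zero, mul_zero] at e2; exact h3 e2
      have n6 : lx i α ≠ 0 := by intro h; rw [h, zero_mul] at e3; exact hxα e3
      have n7 : cx i α ≠ 0 := by intro h; rw [h, map_zero, mul_zero, mul_zero] at e3; exact hxα e3
      have n8 : cx i β ≠ 0 := by intro h; rw [h, map_zero, mul_zero, mul_zero] at e4; exact hxβ e4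
      have m3 : algebraMap k K (cb i α) ≠ 0 := by simpa using n3
      have m5 : algebraMap k K (cb i β) ≠ 0 := by simpa using n5
      have m7 : algebraMap k K (cx i α) ≠ 0 := by simpa using n7
      have m8 : algebraMap k K (cx i β) ≠ 0 := by simpa using n8
      refine ⟨cx i α * cb i β / (cb i α * cx i β),
        div_ne_zero (mul_ne_zero n7 n5) (mul_ne_zero n3 n8), ?_⟩
      rw [h4]
      have f1 : kmon (fun l => (y l : K)) α.1 = kmon x α.1 / kmon b α.1 := by
        rw [← hmon α.1, mul_div_cancel_right₀ _ h2]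
      have f2 : kmon (fun l => (y l : K)) β.1 = kmon x β.1 / kmon b β.1 := by
        rw [← hmon β.1, mul_div_cancel_right₀ _ h3]
      rw [f1, f2, e1, e2, e3, e4, ← hl1, ← hl2, map_div₀, map_mul, map_mul]
      field_simp
    have hΛV : ∀ v ∈ Λ τ b, ∃ c : k, ((∏ l, y l ^ v l : Kˣ) : K) = algebraMap k K c := by
      have hle : Λ τ b ≤ AddSubgroup.toIntSubmodule V := by
        rw [Submodule.span_le]
        exact hGV
      intro v hv
      obtain ⟨c, _, hc⟩ := hle hv
      exact ⟨c, hc⟩
    obtain ⟨c, hc0, h, hh, hyc⟩ := kum_factor hk (Λ τ b) y hΛV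
    -- set the constants to zero outside the support
    let c' : ι → k := fun l => if b l = 0 then 0 else c l
    have hc' : ∀ l, x l = h l * (b l * algebraMap k K (c' l)) := by
      intro l
      simp only [c']
      split_ifs with hb
      · rw [hb, zero_mul, mul_zero, ← hyb l, hb, mul_zero]
      · rw [← hyb l, hyc l]
        ring
    refine ⟨c', ?_, ?_, h, hh, hc'⟩
    · rintro g (hg | ⟨l, hl, rfl⟩)
      · obtain ⟨i, hg⟩ := Set.mem_iUnion.1 hg
        obtain ⟨β, hg⟩ := Set.mem_iUnion.1 hg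
        refine (Classical.choose_spec (kum_desc (k := k)
          (kblk (F i) (d i) b (τ.2.2 i) β))).2.1 c' ?_ g hg
        rw [hx5 i, eval_kblk (F i) (d i) b (lx i) β]
        obtain ⟨t, ht0, ht⟩ := blk_scale (hd0 i) (lx i) (fun α => (F i).coeff α.1)
          (fun α => kmon b α.1) (fun α => kmon (fun l => algebraMap k K (c' l)) α.1)
          (fun α => kmon (fun l => (h l : K)) α.1)
          (fun α => hkh h α.1)
          (fun α β h1 h2 h3 => hconst τ b h hh i α β (by rw [hx5]; exact h1) h2 h3) (lx i β)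
        have h5 : (fun α : {α // α ∈ (F i).support} => (F i).coeff α.1 * kmon x α.1 ^ d i) =
            fun α => (F i).coeff α.1 * (kmon (fun l => (h l : K)) α.1 *
              (kmon b α.1 * kmon (fun l => algebraMap k K (c' l)) α.1)) ^ d i := by
          funext α
          rw [← kmon_mul, ← kmon_mul]
          congr 3
          funext l
          exact hc' l
        have h6 := hblock i τ x (lx i) (cx i) (hx3 i) (hx4 i) (lx i β)
        rw [h5, ht] at h6
        exact (mul_eq_zero.1 h6).resolve_left ht0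
      · rw [MvPolynomial.eval_X]
        have : b l = 0 := hl
        simp only [c', if_pos this]
    · intro l
      simp only [c']
      split_ifs with hb
      · simp [hb]
      · simp [hb, hc0 l]

end Pool.Agent.GBL
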