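import Pool.Agent.GBL.Kum

/-!
# Subtori and lattices
-/

open Function

namespace Pool.Agent.GBL

/-- The subgroup of the torus `(Kˣ)^ι` generated by the one-parameter subgroups
`t ↦ t^w = (t^(w_l))_l`, `w ∈ W`. -/
def torus (K : Type*) {ι : Type*} [Field K] (W : Set (ι → ℤ)) : Subgroup (ι → Kˣ) :=
  Subgroup.closure {h | ∃ w ∈ W, ∃ t : Kˣ, h = fun l => t ^ w l}

theorem torus_const {K ι : Type*} [Field K] [Fintype ι] (W : Set (ι → ℤ)) (u v : ι →₀ ℕ)
    (huv : ∀ w ∈ W, ∑ l, (u l : ℤ) * w l = ∑ l, (v l : ℤ) * w l) (h : ι → Kˣ)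
    (hh : h ∈ torus K W) : kmon (fun l => (h l : K)) u = kmon (fun l => (h l : K)) v := by
  classical
  let φ : (ι →₀ ℕ) → ((ι → Kˣ) →* Kˣ) := fun u =>
    { toFun := fun h => ∏ l, h l ^ u l
      map_one' := by simp
      map_mul' := fun a b => by
        rw [← Finset.prod_mul_distrib]
        exact Finset.prod_congr rfl fun l _ => by rw [Pi.mul_apply, mul_pow] }
  have h1 : torus K W ≤ (φ u).eqLocus (φ v) := by
    rw [torus, Subgroup.closure_le]
    rintro _ ⟨w, hw, t, rfl⟩
    have h2 : ∀ u : ι →₀ ℕ, φ u (fun l => t ^ w l) = t ^ (∑ l, (u l : ℤ) * w l) := by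
      intro u
      change ∏ l, (t ^ w l) ^ u l = _
      have : ∀ s : Finset ι, ∏ j ∈ s, (t ^ w j) ^ u j = t ^ (∑ j ∈ s, (u j : ℤ) * w j) := by
        intro s
        induction s using Finset.induction_on with
        | empty => simp
        | insert a s ha ih =>
          rw [Finset.prod_insert ha, Finset.sum_insert ha, ih, zpow_add, mul_comm (u a : ℤ),
            zpow_mul, zpow_natCast]
      exact this Finset.univ
    change φ u _ = φ v _
    rw [h2, h2, huv w hw]
  have h3 : φ u h = φ v h := h1 hh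
  have h4 := congrArg (fun x : Kˣ => (x : K)) h3
  have h5 : ∀ u : ι →₀ ℕ, ((φ u h : Kˣ) : K) = kmon (fun l => (h l : K)) u := by
    intro u
    change ((∏ l, h l ^ u l : Kˣ) : K) = _
    rw [kmon, Units.coe_prod]
    exact Finset.prod_congr rfl fun l _ => by rw [Units.val_pow_eq_pow_val]
  rw [← h5, ← h5]
  exact h4

/-- Generators of the lattice of cocharacters orthogonal to `Λ`. -/
noncomputable def kumW {ι : Type*} [Fintype ι] [DecidableEq ι] (Λ : Submodule ℤ (ι → ℤ)) :
    Set (ι → ℤ) :=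
  {w | ∃ a, a ∉ Set.range (Submodule.smithNormalForm (Pi.basisFun ℤ ι) Λ).2.f ∧
    w = fun l => (Submodule.smithNormalForm (Pi.basisFun ℤ ι) Λ).2.bM.repr (Pi.single l 1) a}

theorem kumW_orth {ι : Type*} [Fintype ι] [DecidableEq ι] (Λ : Submodule ℤ (ι → ℤ))
    (w : ι → ℤ) (hw : w ∈ kumW Λ) (v : ι → ℤ) (hv : v ∈ Λ) : ∑ l, v l * w l = 0 := by
  obtain ⟨a, ha, rfl⟩ := hw
  have h1 := (Submodule.smithNormalForm (Pi.basisFun ℤ ι) Λ).2.repr_eq_zero_of_notMem_range
    ⟨v, hv⟩ ha
  rw [← h1]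
  simp only
  have h2 : v = ∑ l, v l • (Pi.single l (1 : ℤ) : ι → ℤ) := by
    conv_lhs => rw [← Finset.univ_sum_single v]
    refine Finset.sum_congr rfl fun l _ => ?_
    rw [← Pi.single_smul, smul_eq_mul, mul_one]
  conv_rhs => rw [h2]
  rw [map_sum, Finsupp.finsetSum_apply]
  exact Finset.sum_congr rfl fun l _ => by rw [map_smul, Finsupp.smul_apply, smul_eq_mul]

/-- Factorisation of a point of the torus whose characters in `Λ` are constants. -/
theorem kum_factor {k K ι : Type*} [Field k] [Field K] [Algebra k K] [Fintype ι] [DecidableEq ι]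
    (hk : ∀ x : K, IsAlgebraic k x → ∃ c : k, algebraMap k K c = x)
    (Λ : Submodule ℤ (ι → ℤ)) (y : ι → Kˣ)
    (hy : ∀ v ∈ Λ, ∃ c : k, ((∏ l, y l ^ v l : Kˣ) : K) = algebraMap k K c) :
    ∃ c : ι → k, (∀ l, c l ≠ 0) ∧ ∃ h ∈ torus K (kumW Λ), ∀ l, (y l : K) = h l * algebraMap k K (c l) := by
  classical
  set snf := (Submodule.smithNormalForm (Pi.basisFun ℤ ι) Λ).2 with hsnf
  let φ : (ι → ℤ) →ₗ[ℤ] Additive Kˣ :=
    { toFun := fun v => Additive.ofMul (∏ l, y l ^ v l)
      map_add' := fun u v => by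
        rw [← ofMul_mul, ← Finset.prod_mul_distrib]
        congr 1
        exact Finset.prod_congr rfl fun l _ => by rw [Pi.add_apply, zpow_add]
      map_smul' := fun r v => by
        rw [RingHom.id_apply, ← ofMul_zpow, ← Finset.prod_zpow]
        congr 1
        exact Finset.prod_congr rfl fun l _ => by
          rw [Pi.smul_apply, smul_eq_mul, mul_comm, zpow_mul] }
  let γ : ι → Kˣ := fun a => (φ (snf.bM a)).toMul
  have hγ : ∀ l, y l = ∏ a, γ a ^ (snf.bM.repr (Pi.single l 1) a) := by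
    intro l
    have h1 : (φ (Pi.single l 1)).toMul = y l := by
      change ∏ m, y m ^ ((Pi.single l 1 : ι → ℤ) m) = y l
      rw [Finset.prod_eq_single l]
      · simp
      · intro m _ hm
        rw [Pi.single_eq_of_ne hm, zpow_zero]
      · intro h
        exact absurd (Finset.mem_univ l) h
    rw [← h1]
    conv_lhs => rw [← snf.bM.sum_repr (Pi.single l 1), map_sum]
    rw [toMul_sum]
    refine Finset.prod_congr rfl fun a _ => ?_
    rw [map_smul, toMul_zsmul]
  have hk1 : ∀ a, a ∈ Set.range snf.f → ∃ c : k, ((γ a : Kˣ) : K) = algebraMap k K c := by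
    rintro _ ⟨i, rfl⟩
    have h1 : snf.a i ≠ 0 := by
      intro h
      have h2 := snf.snf i
      rw [h, zero_smul] at h2
      exact snf.bN.ne_zero i (Subtype.ext h2)
    obtain ⟨c, hc⟩ := hy (snf.a i • snf.bM (snf.f i)) (by rw [← snf.snf]; exact (snf.bN i).2)
    have h2 : (∏ l, y l ^ ((snf.a i • snf.bM (snf.f i)) l) : Kˣ) = γ (snf.f i) ^ snf.a i := by
      change (φ (snf.a i • snf.bM (snf.f i))).toMul = _
      rw [map_smul, toMul_zsmul]
    rw [h2, Units.val_zpow_eq_zpow_val] at hc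
    have h3 : ∃ e : k, ((γ (snf.f i) : Kˣ) : K) ^ (snf.a i).natAbs = algebraMap k K e := by
      rcases Int.natAbs_eq (snf.a i) with h4 | h4
      · refine ⟨c, ?_⟩
        rw [← hc, ← zpow_natCast]
        congr 1
        exact h4.symm
      · refine ⟨c⁻¹, ?_⟩
        rw [map_inv₀, ← hc, ← zpow_natCast, ← zpow_neg]
        congr 1
        omega
    obtain ⟨e, he⟩ := h3
    have h5 : IsIntegral k ((γ (snf.f i) : Kˣ) : K) := by
      apply IsIntegral.of_pow (Int.natAbs_pos.2 h1)
      rw [he]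
      exact isIntegral_algebraMap
    obtain ⟨c', hc'⟩ := hk _ h5.isAlgebraic
    exact ⟨c', hc'.symm⟩
  have hk2 : ∀ a, ∃ c : k, c ≠ 0 ∧ (a ∈ Set.range snf.f → ((γ a : Kˣ) : K) = algebraMap k K c) := by
    intro a
    by_cases ha : a ∈ Set.range snf.f
    · obtain ⟨c, hc⟩ := hk1 a ha
      refine ⟨c, ?_, fun _ => hc⟩
      rintro rfl
      rw [map_zero] at hc
      exact (γ a).ne_zero hc
    · exact ⟨1, one_ne_zero, fun h => absurd h ha⟩
  choose e he0 he using hk2
  refine ⟨fun l => ∏ a ∈ Finset.univ.filter (fun a => a ∈ Set.range snf.f),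
      e a ^ (snf.bM.repr (Pi.single l 1) a), ?_,
    fun l => ∏ a ∈ Finset.univ.filter (fun a => ¬ a ∈ Set.range snf.f),
      γ a ^ (snf.bM.repr (Pi.single l 1) a), ?_, ?_⟩
  · intro l
    exact Finset.prod_ne_zero_iff.2 fun a _ => zpow_ne_zero _ (he0 a)
  · have h1 : (fun l => ∏ a ∈ Finset.univ.filter (fun a => ¬ a ∈ Set.range snf.f),
      γ a ^ (snf.bM.repr (Pi.single l 1) a)) =
      ∏ a ∈ Finset.univ.filter (fun a => ¬ a ∈ Set.range snf.f),
        (fun l => γ a ^ (snf.bM.repr (Pi.single l 1) a)) := by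
      funext l
      rw [Finset.prod_apply]
    rw [h1]
    refine Subgroup.prod_mem _ fun a ha => ?_
    rw [Finset.mem_filter] at ha
    exact Subgroup.subset_closure ⟨_, ⟨a, ha.2, rfl⟩, γ a, rfl⟩
  · intro l
    rw [hγ l, ← Finset.prod_filter_mul_prod_filter_not Finset.univ (fun a => a ∈ Set.range snf.f),
      Units.val_mul, mul_comm]
    congr 1
    rw [Units.coe_prod, map_prod]
    refine Finset.prod_congr rfl fun a ha => ?_
    rw [Finset.mem_filter] at ha
    rw [Units.val_zpow_eq_zpow_val, he a ha.2, map_zpow₀]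

end Pool.Agent.GBL
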