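import Pool.Agent.GBL.Main1
import Pool.Agent.GBL.Blk
import Pool.Agent.GBL.Desc

/-!
# Finiteness for systems with linearly independent permanents monomials
-/

open Function
open scoped LinearAlgebra.Projectivization

namespace Pool.Agent.GBL

open scoped Classical in
/-- the rows that meet the columns in `T` -/
private noncomputable def mgDetN {E : Type*} [Field E] {s n : ℕ} (β : Fin s → Fin n → E)
    (T : Finset (Fin n)) : Finset (Fin s) :=
  Finset.univ.filter fun i => ∃ j ∈ T, β i j ≠ 0

private lemma mgDet_mem {E : Type*} [Field E] {s n : ℕ} (β : Fin s → Fin n → E)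
    (T : Finset (Fin n)) (i : Fin s) : i ∈ mgDetN β T ↔ ∃ j ∈ T, β i j ≠ 0 := by
  simp [mgDetN]

private lemma mgDet_mono {E : Type*} [Field E] {s n : ℕ} (β : Fin s → Fin n → E)
    {T T' : Finset (Fin n)} (h : T ⊆ T') : mgDetN β T ⊆ mgDetN β T' := by
  intro i hi
  rw [mgDet_mem] at hi ⊢
  obtain ⟨j, hj, h1⟩ := hi
  exact ⟨j, h hj, h1⟩

private lemma mgDet_choose {E : Type*} [Field E] {s n : ℕ} (hsn : s ≤ n) (hn : 0 < n)
    (β : Fin s → Fin n → E) (hβ : ∀ j, ∃ i, β i j ≠ 0) :
    ∃ T : Finset (Fin n), T.Nonempty ∧ (mgDetN β T).card ≤ T.card ∧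
      ∀ S ⊆ T, S.card ≤ (mgDetN β S).card := by
  classical
  have hex : ∃ m : ℕ, ∃ T : Finset (Fin n), T.Nonempty ∧ (mgDetN β T).card ≤ T.card ∧
      T.card = m := by
    refine ⟨_, Finset.univ, ?_, ?_, rfl⟩
    · exact ⟨⟨0, hn⟩, Finset.mem_univ _⟩
    · calc (mgDetN β Finset.univ).card ≤ (Finset.univ : Finset (Fin s)).card :=
            Finset.card_le_card (Finset.subset_univ _)
        _ = s := by simp
        _ ≤ n := hsn
        _ = (Finset.univ : Finset (Fin n)).card := by simp
  obtain ⟨T, hT1, hT2, hT3⟩ := Nat.find_spec hex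
  have hmin : ∀ S : Finset (Fin n), S.Nonempty → S.card < T.card →
      S.card < (mgDetN β S).card := by
    intro S hS1 hS2
    by_contra hcon
    push Not at hcon
    have := Nat.find_min hex (m := S.card) (by rw [← hT3]; exact hS2)
    exact this ⟨S, hS1, hcon, rfl⟩
  refine ⟨T, hT1, hT2, ?_⟩
  intro S hS
  rcases S.eq_empty_or_nonempty with rfl | hSne
  · simp
  · by_cases hST : S = T
    · subst hST
      by_cases h1 : S.card = 1
      · rw [h1, Nat.one_le_iff_ne_zero, Finset.card_ne_zero]
        obtain ⟨j, hj⟩ := hSne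
        obtain ⟨i, hi⟩ := hβ j
        exact ⟨i, (mgDet_mem β S i).2 ⟨j, hj, hi⟩⟩
      · obtain ⟨j, hj⟩ := hSne
        have hc : (S.erase j).card = S.card - 1 := Finset.card_erase_of_mem hj
        have hpos : 0 < S.card := Finset.card_pos.2 ⟨j, hj⟩
        have hne : (S.erase j).Nonempty := by
          rw [← Finset.card_pos, hc]
          omega
        have h2 := hmin (S.erase j) hne (by rw [hc]; omega)
        have h3 : (mgDetN β (S.erase j)).card ≤ (mgDetN β S).card :=
          Finset.card_le_card (mgDet_mono β (Finset.erase_subset j S))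
        omega
    · exact (hmin S hSne (Finset.card_lt_card (Finset.ssubset_iff_subset_ne.2 ⟨hS, hST⟩))).le

theorem mgDet {E L : Type*} [Field E] [Field L] [Algebra E L] {s n : ℕ} (hsn : s ≤ n)
    (hn : 0 < n) (A : Fin s → Fin n → L)
    (hA : ∀ (r : ℕ) (I : Fin r ↪ Fin s) (J : Fin r ↪ Fin n),
      LinearIndependent E (fun σ : Equiv.Perm (Fin r) => ∏ m, A (I m) (J (σ m))))
    (β : Fin s → Fin n → E) (hβ : ∀ j, ∃ i, β i j ≠ 0) (b : Fin s → L)
    (h : ∀ j, ∑ i, algebraMap E L (β i j) * A i j * b i = 0) :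
    ∃ i j, β i j ≠ 0 ∧ b i = 0 := by
  classical
  by_contra hcon
  push Not at hcon
  obtain ⟨T, hT1, hT2, hT3⟩ := mgDet_choose hsn hn β hβ
  -- Hall
  have hhall := (Finset.all_card_le_biUnion_card_iff_exists_injective
    (fun j : {j // j ∈ T} => mgDetN β {(j : Fin n)})).1 (by
      intro S
      have h1 := hT3 (S.map (Function.Embedding.subtype _)) (by
        intro j hj
        rw [Finset.mem_map] at hj
        obtain ⟨x, -, rfl⟩ := hj
        exact x.2)
      rw [Finset.card_map] at h1
      refine h1.trans (Finset.card_le_card ?_)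
      intro i hi
      rw [mgDet_mem] at hi
      obtain ⟨j, hj, hij⟩ := hi
      rw [Finset.mem_map] at hj
      obtain ⟨x, hx, rfl⟩ := hj
      rw [Finset.mem_biUnion]
      exact ⟨x, hx, (mgDet_mem β _ i).2 ⟨x, Finset.mem_singleton_self _, hij⟩⟩)
  obtain ⟨σ, hσ1, hσ2⟩ := hhall
  have hσ3 : ∀ j : {j // j ∈ T}, β (σ j) j ≠ 0 := by
    intro j
    have h1 := hσ2 j
    rw [mgDet_mem] at h1
    obtain ⟨j', hj', h2⟩ := h1
    rw [Finset.mem_singleton] at hj'
    rw [hj'] at h2
    exact h2
  have himg : Finset.univ.image σ = mgDetN β T := by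
    apply Finset.eq_of_subset_of_card_le
    · intro i hi
      rw [Finset.mem_image] at hi
      obtain ⟨j, -, rfl⟩ := hi
      exact (mgDet_mem β T _).2 ⟨j, j.2, hσ3 j⟩
    · rw [Finset.card_image_of_injective _ hσ1, Finset.card_univ, Fintype.card_coe]
      exact hT2
  -- the matrix
  let M : Matrix {j // j ∈ T} {j // j ∈ T} L :=
    Matrix.of fun j j' => algebraMap E L (β (σ j') j) * A (σ j') j
  have hdet : M.det = 0 := by
    rw [← Matrix.exists_mulVec_eq_zero_iff]
    refine ⟨fun j' => b (σ j'), ?_, ?_⟩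
    · obtain ⟨j, hj⟩ := hT1
      intro h0
      exact hcon _ _ (hσ3 ⟨j, hj⟩) (congrFun h0 ⟨j, hj⟩)
    · funext j
      simp only [Matrix.mulVec, dotProduct, M, Matrix.of_apply, Pi.zero_apply]
      have h1 : ∑ j' : {j // j ∈ T}, algebraMap E L (β (σ j') j) * A (σ j') j * b (σ j') =
          ∑ i ∈ Finset.univ.image σ, algebraMap E L (β i j) * A i j * b i :=
        (Finset.sum_image (f := fun i => algebraMap E L (β i j) * A i j * b i)
          (fun x _ y _ hxy => hσ1 hxy)).symm
      rw [h1, himg, ← h j]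
      refine Finset.sum_subset (Finset.subset_univ _) ?_
      intro i _ hi
      have h2 : β i j = 0 := by
        by_contra h3
        exact hi ((mgDet_mem β T i).2 ⟨j, j.2, h3⟩)
      rw [h2, map_zero, zero_mul, zero_mul]
  -- reindex by `Fin r`
  let r := Fintype.card {j // j ∈ T}
  let q : Fin r ≃ {j // j ∈ T} := (Fintype.equivFin {j // j ∈ T}).symm
  let I : Fin r ↪ Fin s := ⟨fun m => σ (q m), fun a b hab => q.injective (hσ1 hab)⟩
  let J : Fin r ↪ Fin n := ⟨fun m => (q m : Fin n), fun a b hab => q.injective (Subtype.ext hab)⟩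
  have hdet2 : (M.submatrix q q).det = 0 := by
    rw [Matrix.det_submatrix_equiv_self, hdet]
  rw [Matrix.det_apply'] at hdet2
  have hlin := (Fintype.linearIndependent_iff.1 (hA r I J))
    (fun τ => ((Equiv.Perm.sign τ : ℤ) : E) * ∏ m, β (I m) (J (τ m))) (by
      rw [← hdet2]
      refine Finset.sum_congr rfl fun τ _ => ?_
      simp only [Algebra.smul_def, map_mul, map_prod, map_intCast, Matrix.submatrix_apply, M,
        Matrix.of_apply, Finset.prod_mul_distrib]
      simp only [I, J, Function.Embedding.coeFn_mk, mul_assoc]) 1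
  simp only [Equiv.Perm.sign_one, Units.val_one, Int.cast_one, one_mul, Equiv.Perm.one_apply]
    at hlin
  exact (Finset.prod_ne_zero_iff.2 fun m _ => hσ3 (q m)) hlin

/-- the space of the `(u, v)` with `v_j = ∑_i A_ij u_i` -/
def mgRow {L : Type*} [Field L] {s n : ℕ} (A : Fin s → Fin n → L) :
    Submodule L (Fin s ⊕ Fin n → L) where
  carrier := {w | ∀ j, w (Sum.inr j) = ∑ i, A i j * w (Sum.inl i)}
  add_mem' := by
    intro v w h1 h2 j
    simp only [Pi.add_apply, mul_add, Finset.sum_add_distrib]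
    rw [h1 j, h2 j]
  zero_mem' := by intro j; simp
  smul_mem' := by
    intro c w h1 j
    simp only [Pi.smul_apply, smul_eq_mul]
    rw [h1 j, Finset.mul_sum]
    exact Finset.sum_congr rfl fun i _ => by ring

theorem finrank_mgRow {L : Type*} [Field L] {s n : ℕ} (A : Fin s → Fin n → L) :
    Module.finrank L (mgRow A) = s := by
  let e : (Fin s → L) ≃ₗ[L] mgRow A :=
    { toFun := fun u => ⟨Sum.elim u (fun j => ∑ i, A i j * u i), fun j => by simp⟩
      map_add' := by
        intro u v
        apply Subtype.ext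
        funext t
        rcases t with i | j
        · simp
        · simp [mul_add, Finset.sum_add_distrib]
      map_smul' := by
        intro c u
        apply Subtype.ext
        funext t
        rcases t with i | j
        · simp
        · simp only [Sum.elim_inr, Pi.smul_apply, smul_eq_mul, RingHom.id_apply,
            SetLike.val_smul, Finset.mul_sum]
          exact Finset.sum_congr rfl fun i _ => by ring
      invFun := fun w i => w.1 (Sum.inl i)
      left_inv := fun u => rfl
      right_inv := by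
        rintro ⟨w, hw⟩
        apply Subtype.ext
        funext t
        rcases t with i | j
        · rfl
        · exact (hw j).symm }
  rw [← e.finrank_eq]
  simp


/-- The constant part of `C` with respect to `b`. -/
def cstk (k : Type*) {L ι : Type*} [Field k] [Field L] [Algebra k L] (C : Submodule L (ι → L))
    (b : ι → L) : Submodule k (ι → k) where
  carrier := {w | (∀ j, b j = 0 → w j = 0) ∧ (fun j => b j * algebraMap k L (w j)) ∈ C}
  add_mem' := by
    rintro v w ⟨h1, h2⟩ ⟨h3, h4⟩
    refine ⟨fun j hj => by simp [h1 j hj, h3 j hj], ?_⟩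
    have h5 : (fun j => b j * algebraMap k L ((v + w) j)) =
        (fun j => b j * algebraMap k L (v j)) + fun j => b j * algebraMap k L (w j) := by
      funext j
      simp [mul_add]
    rw [h5]
    exact C.add_mem h2 h4
  zero_mem' := by
    refine ⟨fun _ _ => rfl, ?_⟩
    have h5 : (fun j => b j * algebraMap k L ((0 : ι → k) j)) = 0 := by
      funext j
      simp
    rw [h5]
    exact C.zero_mem
  smul_mem' := by
    rintro c w ⟨h1, h2⟩
    refine ⟨fun j hj => by simp [h1 j hj], ?_⟩
    have h5 : (fun j => b j * algebraMap k L ((c • w) j)) =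
        algebraMap k L c • fun j => b j * algebraMap k L (w j) := by
      funext j
      simp only [Pi.smul_apply, smul_eq_mul, map_mul]
      ring
    rw [h5]
    exact C.smul_mem _ h2

theorem mem_cstk {k L ι : Type*} [Field k] [Field L] [Algebra k L] (C : Submodule L (ι → L))
    (b : ι → L) (w : ι → k) :
    w ∈ cstk k C b ↔ (∀ j, b j = 0 → w j = 0) ∧
      (fun j => b j * algebraMap k L (w j)) ∈ C := Iff.rfl

theorem mgN {k L : Type*} [Field k] [Field L] [Algebra k L] {s n : ℕ} (hsn : s ≤ n) (A : Fin s → Fin n → L)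
    (hA : ∀ (r : ℕ) (I : Fin r ↪ Fin s) (J : Fin r ↪ Fin n),
      LinearIndependent k (fun σ : Equiv.Perm (Fin r) => ∏ m, A (I m) (J (σ m))))
    (b : Fin s ⊕ Fin n → L) :
    Module.finrank (k) (cstk k (mgRow A) b) ≤ 1 := by
  classical
  by_cases hbot : ∀ v ∈ cstk k (mgRow A) b, v = 0
  · refine finrank_le_one (0 : cstk k (mgRow A) b) fun w => ⟨0, ?_⟩
    apply Subtype.ext
    rw [hbot w.1 w.2]
    simp
  push Not at hbot
  obtain ⟨v, hv, hv0⟩ := hbot
  refine finrank_le_one (⟨v, hv⟩ : cstk k (mgRow A) b) fun w => ?_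
  by_contra hcon
  push Not at hcon
  have hw : ∀ c : k, c • v ≠ w.1 := fun c hc => hcon c (Subtype.ext hc)
  have hn : 0 < n := by
    rcases Nat.eq_zero_or_pos n with h0 | h0
    · exfalso
      have hs0 : s = 0 := by omega
      subst h0
      subst hs0
      apply hv0
      funext t
      rcases t with i | j
      · exact i.elim0
      · exact j.elim0
    · exact h0
  have hne : ∀ α β : k, α • v + β • w.1 = 0 → α = 0 ∧ β = 0 := by
    intro α β h
    have hβ : β = 0 := by
      by_contra hβ
      apply hw (-(β⁻¹ * α))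
      have h1 : β⁻¹ • (α • v + β • w.1) = 0 := by rw [h, smul_zero]
      rw [smul_add, smul_smul, smul_smul, inv_mul_cancel₀ hβ, one_smul] at h1
      rw [neg_smul]
      exact neg_eq_of_add_eq_zero_right h1
    refine ⟨?_, hβ⟩
    rw [hβ, zero_smul, add_zero] at h
    rcases smul_eq_zero.1 h with h2 | h2
    · exact h2
    · exact absurd h2 hv0
  -- part (1)
  have h1 : ∀ z ∈ cstk k (mgRow A) b, z ≠ 0 → ∃ i, z (Sum.inl i) ≠ 0 := by
    intro z hz hz0
    by_contra hcon1
    push Not at hcon1
    apply hz0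
    obtain ⟨hz1, hz2⟩ := hz
    funext t
    rcases t with i | j
    · exact hcon1 i
    · have h3 := hz2 j
      simp only [hcon1] at h3
      simp only [map_zero, mul_zero, Finset.sum_const_zero, mul_eq_zero] at h3
      rcases h3 with h3 | h3
      · exact hz1 _ h3
      · exact (map_eq_zero _).1 h3
  -- part (2)
  have h2 : ∀ j : Fin n, ∃ z ∈ cstk k (mgRow A) b, z ≠ 0 ∧ z (Sum.inr j) = 0 := by
    intro j
    by_cases hj : v (Sum.inr j) = 0
    · exact ⟨v, hv, hv0, hj⟩
    · refine ⟨w.1 (Sum.inr j) • v + (-v (Sum.inr j)) • w.1,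
        add_mem ((cstk k (mgRow A) b).smul_mem _ hv) ((cstk k (mgRow A) b).smul_mem _ w.2), ?_, ?_⟩
      · intro h0
        have h3 := (hne _ _ h0).2
        exact hj (neg_eq_zero.1 h3)
      · simp only [Pi.add_apply, Pi.smul_apply, smul_eq_mul]
        ring
  choose z hz hz0 hzj using h2
  obtain ⟨i, j, hij, hbi⟩ := mgDet hsn hn A hA (fun i j => z j (Sum.inl i))
    (fun j => h1 (z j) (hz j) (hz0 j)) (fun i => b (Sum.inl i)) (by
      intro j
      have h3 := (hz j).2 j
      simp only [hzj, map_zero, mul_zero] at h3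
      rw [h3]
      refine Finset.sum_congr rfl fun i _ => ?_
      show algebraMap k L (z j (Sum.inl i)) * A i j * b (Sum.inl i) = _
      ring)
  exact hij ((hz j).1 _ hbi)

theorem mg_fin {k ι : Type*} [Field k] [Fintype ι] (T : Submodule k (ι → k))
    (hT : Module.finrank k T ≤ 1) {d : ℕ} (hd0 : 0 < d) :
    {P : ℙ k (ι → k) | (fun j => P.rep j ^ d) ∈ T}.Finite := by
  classical
  obtain ⟨w, hw⟩ := finrank_le_one_iff.mp hT
  have hmul : ∀ P : ℙ k (ι → k), (fun j => P.rep j ^ d) ∈ T →
      ∃ m : k, ∀ j, P.rep j ^ d = m * (w : ι → k) j := by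
    intro P hP
    obtain ⟨c, hc⟩ := hw ⟨_, hP⟩
    refine ⟨c, fun j => ?_⟩
    have h1 := congrArg (fun v : T => (v : ι → k) j) hc
    simpa using h1.symm
  by_cases h0 : ∃ i, (w : ι → k) i ≠ 0
  · obtain ⟨i, hi⟩ := h0
    have hne : ∀ P : ℙ k (ι → k), (fun j => P.rep j ^ d) ∈ T →
        P.rep i ≠ 0 ∧ ∀ j, (P.rep j / P.rep i) ^ d = (w : ι → k) j / (w : ι → k) i := by
      intro P hP
      obtain ⟨m, hm⟩ := hmul P hP
      obtain ⟨j0, hj0⟩ := Function.ne_iff.mp P.rep_nonzero
      have hm0 : m ≠ 0 := by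
        rintro rfl
        have h1 := hm j0
        rw [zero_mul] at h1
        exact hj0 (pow_eq_zero_iff (by omega) |>.mp h1)
      have h2 : P.rep i ≠ 0 := by
        intro h3
        have h1 := hm i
        rw [h3, zero_pow (by omega)] at h1
        exact (mul_ne_zero hm0 hi) h1.symm
      refine ⟨h2, fun j => ?_⟩
      rw [div_pow, hm j, hm i]
      field_simp
    have hfin : (Set.univ.pi fun j : ι => {x : k | x ^ d = (w : ι → k) j / (w : ι → k) i}).Finite := by
      refine Set.Finite.pi fun j => ?_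
      have hp : (Polynomial.X ^ d - Polynomial.C ((w : ι → k) j / (w : ι → k) i)) ≠ 0 :=
        Polynomial.X_pow_sub_C_ne_zero hd0 _
      refine (Polynomial.finite_setOfPred_isRoot hp).subset fun x hx => ?_
      simp only [Set.mem_ofPred_eq] at hx ⊢
      simp [Polynomial.IsRoot, hx]
    refine Set.Finite.of_finite_image (f := fun P : ℙ k (ι → k) => fun j => P.rep j / P.rep i)
      (hfin.subset ?_) ?_
    · rintro _ ⟨P, hP, rfl⟩
      intro j _
      exact (hne P hP).2 j
    · intro P hP Q hQ hPQ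
      have hPi := (hne P hP).1
      have hQi := (hne Q hQ).1
      rw [← P.mk_rep, ← Q.mk_rep, Projectivization.mk_eq_mk_iff']
      refine ⟨P.rep i / Q.rep i, ?_⟩
      funext j
      have h1 := congrFun hPQ j
      simp only at h1
      rw [Pi.smul_apply, smul_eq_mul]
      field_simp at h1 ⊢
      rw [h1]
  · push Not at h0
    have he : {P : ℙ k (ι → k) | (fun j => P.rep j ^ d) ∈ T} = ∅ := by
      ext P
      simp only [Set.mem_ofPred_eq, Set.mem_empty_iff_false, iff_false]
      intro hP
      obtain ⟨m, hm⟩ := hmul P hP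
      obtain ⟨j0, hj0⟩ := Function.ne_iff.mp P.rep_nonzero
      have h1 := hm j0
      rw [h0 j0, mul_zero] at h1
      exact hj0 (pow_eq_zero_iff (by omega) |>.mp h1)
    rw [he]
    exact Set.finite_empty


private theorem mg_minor {k ι : Type*} [Field k] [Fintype ι] (T : Submodule k (ι → k))
    (h : Module.finrank k T ≤ 1) (w w' : ι → k) (hw : w ∈ T) (hw' : w' ∈ T) (i j : ι) :
    w i * w' j = w j * w' i := by
  obtain ⟨v, hv⟩ := finrank_le_one_iff.mp h
  obtain ⟨c, hc⟩ := hv ⟨w, hw⟩
  obtain ⟨c', hc'⟩ := hv ⟨w', hw'⟩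
  have h1 : c • (v : ι → k) = w := congrArg Subtype.val hc
  have h2 : c' • (v : ι → k) = w' := congrArg Subtype.val hc'
  rw [← h1, ← h2]
  simp only [Pi.smul_apply, smul_eq_mul]
  ring

theorem mg_prim {k L ι : Type*} [Field k] [Field L] [Algebra k L] [Fintype ι]
    (C : Submodule L (ι → L)) {d : ℕ}
    (hd0 : 0 < d) (hN : ∀ b : ι → L, Module.finrank k (cstk k C b) ≤ 1)
    (x : ι → L) (hx : (fun j => x j ^ d) ∈ C) : Prim C d x := by
  classical
  intro Q hQ
  by_contra hcon
  push Not at hcon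
  obtain ⟨⟨i, hiQ, hi⟩, ⟨j, hjQ, hj⟩⟩ := hcon
  have hd : d ≠ 0 := hd0.ne'
  let w : ι → k := fun t => if t ∈ Q ∧ x t ≠ 0 then 1 else 0
  let w' : ι → k := fun t => if t ∉ Q ∧ x t ≠ 0 then 1 else 0
  have hw : w ∈ cstk k C (fun t => x t ^ d) := by
    rw [mem_cstk]
    refine ⟨fun t ht => ?_, ?_⟩
    · have h0 : x t = 0 := (pow_eq_zero_iff hd).mp ht
      simp [w, h0]
    · convert hQ using 1
      funext t
      by_cases h1 : t ∈ Q
      · by_cases h2 : x t = 0
        · simp [w, h1, h2, hd]
        · simp [w, h1, h2]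
      · simp [w, h1]
  have hw' : w' ∈ cstk k C (fun t => x t ^ d) := by
    rw [mem_cstk]
    refine ⟨fun t ht => ?_, ?_⟩
    · have h0 : x t = 0 := (pow_eq_zero_iff hd).mp ht
      simp [w', h0]
    · convert C.sub_mem hx hQ using 1
      funext t
      by_cases h1 : t ∈ Q
      · simp [w', h1]
      · by_cases h2 : x t = 0
        · simp [w', h1, h2, hd]
        · simp [w', h1, h2]
  have h := mg_minor _ (hN _) w w' hw hw' i j
  have h1 : w i = 1 := by simp [w, hiQ, hi]
  have h2 : w' j = 1 := by simp [w', hjQ, hj]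
  have h3 : w j = 0 := by simp [w, hjQ]
  rw [h1, h2, h3] at h
  simp at h

/-- If `C` has no constant part of dimension two then the diagonal variety has finitely many
rational points. -/
theorem mg_crit {k K ι : Type*} [Field k] [CharZero k] [Field K] [Algebra k K]
    [Algebra.EssFiniteType k K]
    (hk : ∀ x : K, IsAlgebraic k x → ∃ c : k, algebraMap k K c = x) [Fintype ι]
    (C : Submodule K (ι → K)) {d : ℕ}
    (hd0 : 0 < d) (hd : (Module.finrank K C) ^ 2 ≤ d)
    (hN : ∀ b : ι → K, Module.finrank k (cstk k C b) ≤ 1) :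
    {P : ℙ K (ι → K) | (fun j => P.rep j ^ d) ∈ C}.Finite := by
  classical
  obtain ⟨S, hS, hS1, -, hS2⟩ := blk C d hd0 (rf_all hk C hd hd0)
  have hA : ∀ p ∈ S, {R : ℙ k (ι → k) | (fun j => R.rep j ^ d) ∈ p.2}.Finite := by
    intro p hp
    refine mg_fin p.2 ?_ hd0
    have hle : p.2 ≤ cstk k C (fun j => p.1 j ^ d) := by
      intro w hw
      obtain ⟨h1, h2⟩ := hS1 p hp w hw
      exact ⟨fun j hj => h1 j ((pow_eq_zero_iff hd0.ne').mp hj), h2⟩
    exact (Submodule.finrank_mono hle).trans (hN _)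
  have hfin : (⋃ p ∈ S, ⋃ R ∈ {R : ℙ k (ι → k) | (fun j => R.rep j ^ d) ∈ p.2},
      {P : ℙ K (ι → K) | ∃ h : (fun j => p.1 j * algebraMap k K (R.rep j)) ≠ 0,
          P = Projectivization.mk K (fun j => p.1 j * algebraMap k K (R.rep j)) h}).Finite := by
    refine Set.Finite.biUnion hS (fun p hp => Set.Finite.biUnion (hA p hp) (fun R _ => ?_))
    refine Set.Subsingleton.finite ?_
    rintro P ⟨h1, h2⟩ P' ⟨h3, h4⟩
    rw [h2, h4]
  refine hfin.subset ?_
  intro P hP
  have hx : (fun j => P.rep j ^ d) ∈ C := hP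
  obtain ⟨p, hp, l, c, hc1, hc2⟩ := hS2 P.rep hx (mg_prim C hd0 hN P.rep hx)
  have hc0 : c ≠ 0 := by
    rintro rfl
    apply P.rep_nonzero
    funext j
    rw [hc1 j]
    simp
  obtain ⟨a, ha⟩ := Projectivization.exists_smul_eq_mk_rep k c hc0
  have ha' : ∀ j, (Projectivization.mk k c hc0).rep j = (a : k) * c j := by
    intro j
    rw [← ha]
    rfl
  have ha0 : algebraMap k K (a : k) ≠ 0 := by
    intro h
    exact a.ne_zero ((map_eq_zero _).mp h)
  have hv : (l / algebraMap k K (a : k)) •
      (fun j => p.1 j * algebraMap k K ((Projectivization.mk k c hc0).rep j)) = P.rep := by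
    funext j
    rw [Pi.smul_apply, smul_eq_mul, hc1 j, ha' j, map_mul]
    field_simp
  simp only [Set.mem_iUnion]
  refine ⟨p, hp, Projectivization.mk k c hc0, ?_, ?_, ?_⟩
  · change (fun j => (Projectivization.mk k c hc0).rep j ^ d) ∈ p.2
    have h6 : (fun j => (Projectivization.mk k c hc0).rep j ^ d) =
        (a : k) ^ d • (fun j => c j ^ d) := by
      funext j
      rw [ha' j, mul_pow]
      rfl
    rw [h6]
    exact p.2.smul_mem _ hc2
  · intro h0
    apply P.rep_nonzero
    rw [← hv, h0, smul_zero]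
  · conv_lhs => rw [← P.mk_rep]
    rw [Projectivization.mk_eq_mk_iff']
    exact ⟨_, hv⟩

end Pool.Agent.GBL
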