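import Pool.Agent.GBL.Def

/-!
# Module TrA (size 2): intersecting the constant fields

If ratio finiteness holds for `K` over each of finitely many subfields `kk i ⊇ k` and `⋂ kk i = k` then it holds
over `k`.

PROOF SKETCH. Let `F_i` be the finite set for `kk i`. For each `φ ∈ ∏ F_i` (finitely many) such that there is
`g ∈ K`, `g ≠ 0`, with `g ∈ φ_i * kk i` for all `i`, choose such a `g =: g_φ`; `F` is the set of the `g_φ`. For `x` primitive with
`x^d ∈ C`, `x_a, x_b ≠ 0` the element `g = x_a/x_b` lies in `φ_i * kk i` for some `φ`; then `g / g_φ ∈ kk i` for all `i` (quotient of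
two nonzero elements of `kk i`), so `g = g_φ * c`, `c ∈ k`. (For `r = 0` the same: there is one empty `φ`.)
-/

namespace Pool.Agent.GBL

theorem trA {k K : Type*} [Field k] [Field K] [Algebra k K] {ι : Type*} [Fintype ι] {r : ℕ}
    (kk : Fin r → IntermediateField k K)
    (hcap : ∀ x : K, (∀ i, x ∈ kk i) → ∃ c : k, algebraMap k K c = x)
    (C : Submodule K (ι → K)) (d : ℕ) (h : ∀ i, RF (kk i) C d) : RF k C d := by
  classical
  choose Fi hFi h using h
  let P : (Fin r → K) → K → Prop := fun φ g => g ≠ 0 ∧ ∀ i, ∃ c : kk i, g = φ i * (c : K)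
  let g : (Fin r → K) → K := fun φ => if hh : ∃ g, P φ g then hh.choose else 0
  refine ⟨g '' (Set.univ.pi Fi), (Set.Finite.pi fun i => hFi i).image g, ?_⟩
  intro x hx hp a b ha hb
  have h1 : ∀ i, ∃ f ∈ Fi i, ∃ c : kk i, x a = x b * (f * algebraMap (kk i) K c) :=
    fun i => h i x hx hp a b ha hb
  choose φ hφ c hc using h1
  have hex : ∃ g, P φ g := by
    refine ⟨x a / x b, div_ne_zero ha hb, fun i => ⟨c i, ?_⟩⟩
    rw [div_eq_iff hb, hc i, mul_comm]
    rfl
  have hg : P φ (g φ) := by
    have h2 : g φ = hex.choose := dif_pos hex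
    rw [h2]
    exact hex.choose_spec
  obtain ⟨hg0, hg1⟩ := hg
  obtain ⟨c', hc'⟩ := hcap (x a / x b / g φ) (fun i => by
    obtain ⟨e, he⟩ := hg1 i
    have hφ0 : φ i ≠ 0 := by
      intro h0
      rw [h0, zero_mul] at he
      exact hg0 he
    have h3 : x a / x b / g φ = (c i : K) / (e : K) := by
      have h4 : x a / x b = φ i * (c i : K) := by
        rw [div_eq_iff hb, hc i, mul_comm]
        rfl
      rw [h4, he, mul_div_mul_left _ _ hφ0]
    rw [h3]
    exact div_mem (c i).2 e.2)
  refine ⟨g φ, ⟨φ, fun i _ => hφ i, rfl⟩, c', ?_⟩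
  rw [hc']
  field_simp

end Pool.Agent.GBL
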