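import Pool.Agent.GBL.Def

/-!
# Module TrB (size 4): the coordinate constant fields of a finitely generated extension

`K/k` a finitely generated field extension, `k` algebraically closed in `K`. There are `r` and intermediate
fields `kk i` (`i < r`), algebraically closed in `K`, with `⋂ kk i = k`, such that `K` is finite over `kk i (t_i)` for some
`t_i` transcendental over `kk i`.

PROOF SKETCH. Let `t_1..t_r` be a transcendence basis of `K/k` (finite, `finite_of_isTranscendenceBasis` in
`Mathlib/FieldTheory/FinTrdeg.lean`, or choose it inside a finite generating set), and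
`kk i` = the elements of `K` algebraic over `k(t_j : j ≠ i)` (e.g. `algebraicClosure (IntermediateField.adjoin k ..) K` with
scalars restricted to `k`). It is algebraically closed in `K` (transitivity). `t_i` is transcendental over `kk i`
(algebraic independence of the `t_j`). `K` is algebraic over `kk i (t_i) ⊇ k(t_1..t_r)` and finitely generated, so finite
(`Algebra.EssFiniteType` and algebraic: see `Algebra.EssFiniteType.of_comp`, `IntermediateField.essFiniteType_iff`,
`IntermediateField.finiteDimensional_adjoin` for a finite generating set).
Intersection: let `x ∈ kk i` for all `i`, and let `T ⊆ {1..r}` be minimal with `x` algebraic over `k(t_j : j ∈ T)`. If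
`T` is empty, `x` is algebraic over `k`, so in `k`. Otherwise let `i ∈ T`; `x` is transcendental over
`k(T - i)`, algebraic over `k(T)`, so by exchange `t_i` is algebraic over `k(T - i)(x)`; as `x` is algebraic over
`k(t_j : j ≠ i)`, so is `t_i`: contradiction to algebraic independence. (Matroid form: in the matroid of algebraic
independence, `AlgebraicIndependent.matroid`/`Algebra...matroid` in
`Mathlib/RingTheory/AlgebraicIndependent/TranscendenceBasis.lean`, the closures of subsets `B_1, B_2` of a base
satisfy `cl B_1 ∩ cl B_2 = cl (B_1 ∩ B_2)`: `Matroid.Indep.closure_inter_eq_inter_closure`, and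
`Matroid.Indep.closure_iInter...`.)
-/

open scoped IntermediateField

namespace Pool.Agent.GBL

open IntermediateField.algebraAdjoinAdjoin in
private theorem trB_alg {k K : Type*} [Field k] [Field K] [Algebra k K] (T : Set K) (x : K) :
    IsAlgebraic (IntermediateField.adjoin k T) x ↔
      x ∈ (AlgebraicIndependent.matroid k K).closure T := by
  rw [AlgebraicIndependent.matroid_closure_eq, SetLike.mem_coe, Subalgebra.mem_algebraicClosure]
  exact (IsFractionRing.isAlgebraic_iff (Algebra.adjoin k T) (IntermediateField.adjoin k T) K).symm

private theorem trB_fin {F K : Type*} [Field F] [Field K] [Algebra F K]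
    [Algebra.EssFiniteType F K] [Algebra.IsAlgebraic F K] : FiniteDimensional F K := by
  obtain ⟨S, hS⟩ := IntermediateField.fg_top_iff.mpr (inferInstance : Algebra.EssFiniteType F K)
  have h : FiniteDimensional F (IntermediateField.adjoin F (S : Set K)) :=
    IntermediateField.finiteDimensional_adjoin
      (fun x _ => (Algebra.IsAlgebraic.isAlgebraic (R := F) x).isIntegral)
  rw [hS] at h
  exact Module.Finite.equiv (IntermediateField.topEquiv (F := F) (E := K)).toLinearEquiv

private theorem trB_up {k K : Type*} [Field k] [Field K] [Algebra k K]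
    {A B : IntermediateField k K} (h : A ≤ B) {x : K} (hx : IsAlgebraic A x) : IsAlgebraic B x := by
  obtain ⟨p, hp, hp0⟩ := hx
  refine ⟨p.map (IntermediateField.inclusion h).toRingHom, ?_, ?_⟩
  · exact (Polynomial.map_ne_zero_iff (IntermediateField.inclusion h).toRingHom.injective).mpr hp
  · rw [Polynomial.aeval_def, Polynomial.eval₂_map]
    exact hp0

theorem trB {k K : Type*} [Field k] [CharZero k] [Field K] [Algebra k K]
    [Algebra.EssFiniteType k K]
    (hk : ∀ x : K, IsAlgebraic k x → ∃ c : k, algebraMap k K c = x) :
    ∃ (r : ℕ) (kk : Fin r → IntermediateField k K),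
      (∀ x : K, (∀ i, x ∈ kk i) → ∃ c : k, algebraMap k K c = x) ∧
      ∀ i, (∀ x : K, IsAlgebraic (kk i) x → ∃ c : kk i, algebraMap (kk i) K c = x) ∧
        ∃ t : K, Transcendental (kk i) t ∧ FiniteDimensional (kk i)⟮t⟯ K := by
  classical
  obtain ⟨s, hs⟩ := exists_finset_isTranscendenceBasis k K
  let e : Fin s.card ≃ s := s.equivFin.symm
  let T : Fin s.card → Set K := fun i => (s : Set K) \ {(e i : K)}
  let kk : Fin s.card → IntermediateField k K := fun i =>
    (algebraicClosure (IntermediateField.adjoin k (T i)) K).restrictScalars k
  have hmem : ∀ i x, x ∈ kk i ↔ x ∈ (AlgebraicIndependent.matroid k K).closure (T i) := by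
    intro i x
    rw [← trB_alg]
    exact mem_algebraicClosure_iff
  have hbase : (AlgebraicIndependent.matroid k K).IsBase (s : Set K) :=
    AlgebraicIndependent.matroid_isBase_iff.mpr hs
  have hclosed : ∀ i, ∀ x : K, IsAlgebraic (kk i) x → x ∈ kk i := by
    intro i x hx
    have h1 : x ∈ algebraicClosure (algebraicClosure (IntermediateField.adjoin k (T i)) K) K :=
      mem_algebraicClosure_iff.mpr hx
    rw [algebraicClosure.algebraicClosure_eq_bot] at h1
    obtain ⟨c, hc⟩ := IntermediateField.mem_bot.mp h1
    have : x = (c : K) := hc.symm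
    rw [this]
    exact c.2
  refine ⟨s.card, kk, ?_, fun i => ⟨fun x hx => ⟨⟨x, hclosed i x hx⟩, rfl⟩, (e i : K), ?_, ?_⟩⟩
  · intro x hx
    apply hk
    have hx0 : x ∈ (AlgebraicIndependent.matroid k K).closure ∅ := by
      rcases Nat.eq_zero_or_pos s.card with h0 | hpos
      · have hs0 : s = ∅ := Finset.card_eq_zero.mp h0
        have h1 := hbase.closure_eq
        rw [hs0, Finset.coe_empty] at h1
        rw [h1]
        trivial
      · have : Nonempty (Fin s.card) := ⟨⟨0, hpos⟩⟩
        have h1 := hbase.indep.closure_iInter_eq_biInter_closure_of_forall_subset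
          (Js := T) (fun i => Set.sdiff_subset)
        have h2 : (⋂ i, T i) = ∅ := by
          rw [Set.eq_empty_iff_forall_notMem]
          intro y hy
          rw [Set.mem_iInter] at hy
          have hys : y ∈ s := (hy ⟨0, hpos⟩).1
          exact (hy (e.symm ⟨y, hys⟩)).2 (by simp)
        rw [h2] at h1
        rw [h1, Set.mem_iInter]
        exact fun i => (hmem i x).mp (hx i)
    rw [← trB_alg, IntermediateField.adjoin_empty] at hx0
    have : Algebra.IsAlgebraic k (⊥ : IntermediateField k K) := inferInstance
    exact IsAlgebraic.restrictScalars k hx0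
  · intro halg
    have h1 := (hmem i _).mp (hclosed i _ halg)
    exact hbase.indep.notMem_closure_sdiff_of_mem (e i).2 h1
  · have htower : IsScalarTower k (kk i)⟮(e i : K)⟯ K := IsScalarTower.of_algebraMap_eq (fun x => rfl)
    have h1 : Algebra.EssFiniteType (kk i)⟮(e i : K)⟯ K := Algebra.EssFiniteType.of_comp k _ K
    have h2 : Algebra.IsAlgebraic (kk i)⟮(e i : K)⟯ K := by
      refine ⟨fun x => ?_⟩
      have h3 := hs.isAlgebraic_field.isAlgebraic x
      let G : IntermediateField k K := (kk i)⟮(e i : K)⟯.restrictScalars k
      have hG : IntermediateField.adjoin k (Set.range ((↑) : s → K)) ≤ G := by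
        rw [IntermediateField.adjoin_le_iff]
        rintro _ ⟨y, rfl⟩
        by_cases hy : (y : K) = (e i : K)
        · rw [hy]
          exact IntermediateField.mem_adjoin_simple_self (kk i) (e i : K)
        · have h4 : (y : K) ∈ kk i := by
            rw [hmem]
            exact (AlgebraicIndependent.matroid k K).mem_closure_of_mem
              (show (y : K) ∈ T i from ⟨y.2, hy⟩)
          exact (kk i)⟮(e i : K)⟯.algebraMap_mem ⟨(y : K), h4⟩
      exact trB_up hG h3
    exact trB_fin

end Pool.Agent.GBL
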