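import Pool.Agent.GBL.Def

/-!
# Module Up (size 4): passing to the algebraic closure of the constant field

`k` of characteristic 0, algebraically closed in `K`, `t ∈ K` transcendental over `k`, `K` finite over
`k(t)`. There are an algebraically closed field `k1 ⊇ k` and a field `K1` containing `K` and `k1`, finite over
`k1(t)`, `t` transcendental over `k1`, with `K ∩ k1 = k`.

PROOF SKETCH. Let `M = AlgebraicClosure K`, `k1 = algebraicClosure k M` (elements of `M` algebraic over `k`, an
`IntermediateField k M`; it is algebraically closed, e.g. because an element of `M` algebraic over `k1` is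
algebraic over `k`, so is in `k1`, and `M` is algebraically closed: see `algebraicClosure`, `IsAlgClosed`-instances in
`Mathlib/FieldTheory/AlgebraicClosure.lean`). Let `K1 = IntermediateField.adjoin k1 (Set.range (algebraMap K M))`.
* `t` is transcendental over `k1` since it is transcendental over `k` and `k1/k` is algebraic
  (`IsAlgebraic.restrictScalars`-type lemma).
* `K` is finite over `k(t)`; let `w_1..w_n` be a basis. Each `w_i` is algebraic over `k(t)`, hence over `k1(t)`, and
  `K1 = k1(t)(w_1..w_n)` (it contains all of `K`, which is the `k(t)`-span of the `w_i`), so `K1` is finite over `k1(t)`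
  (`IntermediateField.finiteDimensional_adjoin` or `IntermediateField.finiteDimensional_iSup...`).
* If `x ∈ K` is in `k1` then it is algebraic over `k`, so in `k` by `hk`.
The type `K1` may also be chosen in another way; only the properties below matter. Universe: everything lives
in the universe of `K`.
-/

open scoped IntermediateField

namespace Pool.Agent.GBL

universe u v

theorem up {k : Type v} {K : Type u} [Field k] [CharZero k] [Field K] [Algebra k K] (t : K)
    (ht : Transcendental k t) [FiniteDimensional k⟮t⟯ K]
    (hk : ∀ x : K, IsAlgebraic k x → ∃ c : k, algebraMap k K c = x) :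
    ∃ (k1 K1 : Type u) (_ : Field k1) (_ : Field K1) (_ : Algebra k1 K1) (_ : Algebra K K1),
      IsAlgClosed k1 ∧ CharZero k1 ∧ Transcendental k1 (algebraMap K K1 t) ∧
      FiniteDimensional k1⟮algebraMap K K1 t⟯ K1 ∧
      ∀ x : K, (∃ c : k1, algebraMap k1 K1 c = algebraMap K K1 x) → ∃ c : k, algebraMap k K c = x := by
  let M : Type u := AlgebraicClosure K
  let k1 : IntermediateField k M := algebraicClosure k M
  let K1 : IntermediateField k1 M := IntermediateField.adjoin k1 (Set.range (algebraMap K M))
  have hmem : ∀ x : K, algebraMap K M x ∈ K1 := fun x =>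
    IntermediateField.subset_adjoin _ _ ⟨x, rfl⟩
  let ψ : K →+* K1 :=
    { toFun := fun x => ⟨algebraMap K M x, hmem x⟩
      map_one' := by ext; simp
      map_mul' := by intro x y; ext; simp
      map_zero' := by ext; simp
      map_add' := by intro x y; ext; simp }
  have hψ : ∀ x : K, ((ψ x : K1) : M) = algebraMap K M x := fun x => rfl
  let algK : Algebra K K1 := ψ.toAlgebra
  have hmap : ∀ x : K, algebraMap K K1 x = ψ x := fun x => rfl
  have hclosed : IsAlgClosed k1 := (algebraicClosure.isAlgClosure k M).isAlgClosed
  have hchar : CharZero k1 := charZero_of_injective_algebraMap (algebraMap k k1).injective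
  have htM : Transcendental k (algebraMap K M t) := by
    rw [transcendental_algebraMap_iff (algebraMap K M).injective]
    exact ht
  have htM1 : Transcendental k1 (algebraMap K M t) := htM.algebraicClosure
  have ht1 : Transcendental k1 (algebraMap K K1 t) := by
    rw [← transcendental_algebraMap_iff (R := k1) (S := K1) (A := M) (algebraMap K1 M).injective]
    exact htM1
  refine ⟨k1, K1, inferInstance, inferInstance, inferInstance, algK, hclosed, hchar, ht1, ?_, ?_⟩
  · -- finiteness
    let τ : K1 := algebraMap K K1 t
    let N : IntermediateField k1 K1 := k1⟮τ⟯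
    have hτN : τ ∈ N := IntermediateField.mem_adjoin_simple_self k1 τ
    have hcN : ∀ c ∈ k⟮t⟯, ψ c ∈ N := by
      intro c hc
      induction hc using IntermediateField.adjoin_induction with
      | mem x hx =>
        rw [Set.mem_singleton_iff] at hx
        subst hx
        exact hτN
      | algebraMap x =>
        have : ψ (algebraMap k K x) = algebraMap k1 K1 (algebraMap k k1 x) := by
          apply Subtype.ext
          rw [hψ]
          change algebraMap K M (algebraMap k K x) = algebraMap k M x
          rw [← IsScalarTower.algebraMap_apply k K M]
        rw [this]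
        exact N.algebraMap_mem _
      | add x y _ _ hx hy => rw [map_add]; exact N.add_mem hx hy
      | inv x _ hx => rw [map_inv₀]; exact N.inv_mem hx
      | mul x y _ _ hx hy => rw [map_mul]; exact N.mul_mem hx hy
    obtain ⟨s, hs⟩ := (Module.Finite.fg_top : (⊤ : Submodule k⟮t⟯ K).FG)
    let φ : k⟮t⟯ →+* N :=
      { toFun := fun c => ⟨ψ c, hcN c c.2⟩
        map_one' := by ext; simp
        map_mul' := by intro x y; ext; simp
        map_zero' := by ext; simp
        map_add' := by intro x y; ext; simp }
    have hcomp : (algebraMap N K1).comp φ = ψ.comp (algebraMap k⟮t⟯ K) := rfl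
    have hint : ∀ w : K, IsIntegral N (ψ w) := by
      intro w
      have hw : IsIntegral k⟮t⟯ w := IsIntegral.of_finite _ _
      obtain ⟨p, hp, hp0⟩ := hw
      refine ⟨p.map φ, hp.map φ, ?_⟩
      rw [Polynomial.eval₂_map, hcomp]
      rw [← Polynomial.hom_eval₂, hp0, map_zero]
    let S : Set K1 := ψ '' (s : Set K)
    haveI : Finite S := (s.finite_toSet.image ψ).to_subtype
    have hfin : FiniteDimensional N (IntermediateField.adjoin N S) :=
      IntermediateField.finiteDimensional_adjoin (by
        rintro x ⟨w, _, rfl⟩
        exact hint w)
    have htop : IntermediateField.adjoin N S = ⊤ := by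
      let T : IntermediateField k1 K1 := (IntermediateField.adjoin N S).restrictScalars k1
      have hNT : ∀ y ∈ N, y ∈ T := by
        intro y hy
        exact (IntermediateField.adjoin N S).algebraMap_mem ⟨y, hy⟩
      have hT : ∀ x : K, ψ x ∈ T := by
        intro x
        have hx : x ∈ Submodule.span k⟮t⟯ (s : Set K) := by rw [hs]; trivial
        induction hx using Submodule.span_induction with
        | mem w hw => exact IntermediateField.subset_adjoin N S ⟨w, hw, rfl⟩
        | zero => rw [map_zero]; exact T.zero_mem
        | add x y _ _ hx hy => rw [map_add]; exact T.add_mem hx hy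
        | smul c x _ hx =>
          have : c • x = (c : K) * x := rfl
          rw [this, map_mul]
          exact T.mul_mem (hNT _ (hcN c c.2)) hx
      have hK1 : K1 ≤ T.map K1.val := by
        apply IntermediateField.adjoin_le_iff.mpr
        rintro _ ⟨x, rfl⟩
        exact ⟨ψ x, hT x, rfl⟩
      rw [eq_top_iff]
      intro y _
      obtain ⟨z, hz, hzy⟩ := hK1 y.2
      have : z = y := Subtype.ext hzy
      rw [← this]
      exact hz
    rw [htop] at hfin
    exact Module.Finite.equiv (IntermediateField.topEquiv (F := N) (E := K1)).toLinearEquiv
  · rintro x ⟨c, hc⟩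
    apply hk
    have h1 : algebraMap K M x = (c : M) := by
      have := congrArg (fun z : K1 => (z : M)) hc
      simpa [hmap, hψ] using this.symm
    have h2 : IsAlgebraic k (c : M) := (mem_algebraicClosure_iff).mp c.2
    rw [← h1] at h2
    exact (isAlgebraic_algebraMap_iff (algebraMap K M).injective).mp h2

end Pool.Agent.GBL
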