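import Pool.Agent.GBL.RFac
import Pool.Agent.GBL.Up
import Pool.Agent.GBL.Desc
import Pool.Agent.GBL.TrA
import Pool.Agent.GBL.TrB

/-!
# Assembly: ratio finiteness for all finitely generated extensions
-/

open scoped IntermediateField

namespace Pool.Agent.GBL

/-- transcendence degree 1, constants algebraically closed in `K` -/
theorem rf_one {k K : Type*} [Field k] [CharZero k] [Field K] [Algebra k K] (t : K)
    (ht : Transcendental k t) [FiniteDimensional k⟮t⟯ K]
    (hk : ∀ x : K, IsAlgebraic k x → ∃ c : k, algebraMap k K c = x)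
    {ι : Type*} [Fintype ι] (C : Submodule K (ι → K)) {d : ℕ}
    (hd : (Module.finrank K C) ^ 2 ≤ d) (hd0 : 0 < d) : RF k C d := by
  obtain ⟨k1, K1, _, _, _, _, h1, h2, h3, h4, hcap⟩ := up t ht hk
  refine desc hcap C d (rfac (algebraMap K K1 t) h3 _ (le_trans ?_ hd) hd0)
  exact Nat.pow_le_pow_left (finrank_extC_le C) 2

theorem rf_all {k K : Type*} [Field k] [CharZero k] [Field K] [Algebra k K]
    [Algebra.EssFiniteType k K]
    (hk : ∀ x : K, IsAlgebraic k x → ∃ c : k, algebraMap k K c = x)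
    {ι : Type*} [Fintype ι] (C : Submodule K (ι → K)) {d : ℕ}
    (hd : (Module.finrank K C) ^ 2 ≤ d) (hd0 : 0 < d) : RF k C d := by
  obtain ⟨r, kk, hcap, h⟩ := trB (k := k) (K := K) hk
  refine trA kk hcap C d fun i => ?_
  obtain ⟨h1, t, h2, h3⟩ := h i
  exact rf_one t h2 h1 C hd hd0

end Pool.Agent.GBL
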