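import Pool.Agent.GBL.CircA
import Pool.Agent.GBL.CircB

/-!
# Module Prp (size 3): a set of indices closed under circuits

PROOF SKETCH. By `mem_of_ann` it is enough that `∑_(j∈Q) r_j x_j^d = 0` for each circuit `r` of `ann C`. Let
`θ_j = r_j x_j^d` and `w ∈ k^ι` the indicator function of `support θ`. Since `r ∈ ann C` and `x^d ∈ C`, `∑_j θ_j = 0`, i.e.
`w ∈ rel k θ`, and `support w = support θ`. By `circ_span` `w` is a linear combination of circuits `e` of `rel k θ` with
`support e ⊆ support θ`. The `k`-linear map `T : e ↦ Q.indicator e` maps each such `e` to `e` (if `support e ⊆ Q`) or to 0 (if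
`support e` does not meet `Q`), by `hQ`: in both cases into `rel k θ`. So `T w ∈ rel k θ` (`Submodule.span_induction`), i.e.
`∑_(j∈Q) θ_j = ∑_(j ∈ Q ∩ support θ) θ_j = 0`.
-/

open Function

namespace Pool.Agent.GBL

theorem prp {k K : Type*} [Field k] [Field K] [Algebra k K] {ι : Type*} [Fintype ι]
    (C : Submodule K (ι → K)) (d : ℕ) (x : ι → K) (hx : (fun j => x j ^ d) ∈ C) (Q : Set ι)
    (hQ : ∀ r : ι → K, IsCirc (ann C) r →
      ∀ e : ι → k, IsCirc (rel k (fun j => r j * x j ^ d)) e →
        support e ⊆ support (fun j => r j * x j ^ d) →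
        (support e ∩ Q).Nonempty → support e ⊆ Q) :
    Q.indicator (fun j => x j ^ d) ∈ C := by
  classical
  apply mem_of_ann
  intro r hr
  set θ : ι → K := fun j => r j * x j ^ d with hθ
  have hsum : ∑ j, θ j = 0 := hr.1 _ hx
  let w : ι → k := (support θ).indicator (fun _ => 1)
  have hw : w ∈ rel k θ := by
    change ∑ j, algebraMap k K (w j) * θ j = 0
    rw [← hsum]
    apply Finset.sum_congr rfl
    intro j _
    by_cases hj : j ∈ support θ
    · have : w j = 1 := Set.indicator_of_mem hj _
      rw [this, map_one, one_mul]
    · have : θ j = 0 := by simpa using hj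
      rw [this, mul_zero]
  have hsw : support w ⊆ support θ := Set.support_indicator_subset
  have hspan := circ_span (rel k θ) w hw
  have key : ∀ v ∈ Submodule.span k {e : ι → k | IsCirc (rel k θ) e ∧ support e ⊆ support w},
      Q.indicator v ∈ rel k θ := by
    intro v hv
    induction hv using Submodule.span_induction with
    | mem e he =>
      by_cases h : (support e ∩ Q).Nonempty
      · have h1 := hQ r hr e he.1 (he.2.trans hsw) h
        have h2 : Q.indicator e = e := Set.indicator_eq_self.2 h1
        rw [h2]; exact he.1.1
      · have h2 : Q.indicator e = 0 := by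
          funext j
          by_cases hjQ : j ∈ Q
          · rw [Set.indicator_of_mem hjQ]
            by_contra hne
            exact h ⟨j, hne, hjQ⟩
          · rw [Set.indicator_of_notMem hjQ]; rfl
        rw [h2]; exact Submodule.zero_mem _
    | zero => rw [Set.indicator_zero']; exact Submodule.zero_mem _
    | add a b _ _ h1 h2 => rw [Set.indicator_add']; exact Submodule.add_mem _ h1 h2
    | smul c a _ h =>
      have h2 : Q.indicator (c • a) = c • Q.indicator a := by
        funext j
        by_cases hjQ : j ∈ Q
        · simp [Set.indicator_of_mem hjQ]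
        · simp [Set.indicator_of_notMem hjQ]
      rw [h2]; exact Submodule.smul_mem _ _ h
  have h1 : ∑ j, algebraMap k K (Q.indicator w j) * θ j = 0 := key w hspan
  rw [← h1]
  apply Finset.sum_congr rfl
  intro j _
  by_cases hjQ : j ∈ Q
  · rw [Set.indicator_of_mem hjQ, Set.indicator_of_mem hjQ]
    by_cases hj : j ∈ support θ
    · have : w j = 1 := Set.indicator_of_mem hj _
      rw [this, map_one, one_mul]
    · have : θ j = 0 := by simpa using hj
      rw [this, mul_zero]
      exact this
  · rw [Set.indicator_of_notMem hjQ, Set.indicator_of_notMem hjQ, mul_zero, map_zero, zero_mul]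

end Pool.Agent.GBL
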