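import Pool.Agent.GBL.Adj
import Pool.Agent.GBL.Prp

/-!
# Module RFac (size 3): ratio finiteness over an algebraically closed constant field

PROOF SKETCH. Let `F_0` be the finite set of `adj`, `E = insert 1 F_0`, `n = card ι`, `F = E^n` (set power; finite:
`Set.Finite.pow` or induction with `Set.Finite.mul`; `E^a ⊆ E^b` for `a ≤ b` as `1 ∈ E`). Let `x` be primitive with
`x^d ∈ C`, `x_j ≠ 0`, and put `Q_a = {i : x_i ≠ 0 ∧ ∃ f ∈ E^a, ∃ c : k, x_i = x_j * (f * c)}`. Then `j ∈ Q_0`, `Q_a ⊆ Q_(a+1)`.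
If `i ∈ Q_a`, and `i, i'` are in the support of a circuit `e` as in `adj` (for some circuit `r` of `ann C`), then
`x_(i') = x_i * (f' * c')`, `f' ∈ F_0`, so `i' ∈ Q_(a+1)` (`x_(i') ≠ 0` because `support e ⊆ support (r x^d)`, `d > 0`).
There is `a ≤ n` with `Q_a = Q_(a+1)` (otherwise `card Q_a > a` for all `a ≤ n + 1`, impossible); this `Q = Q_a` satisfies the
hypothesis `hQ` of `prp`, so `Q.indicator (x^d) ∈ C`. `x` is primitive and `x_j ≠ 0`, `j ∈ Q`, so `x` vanishes
outside `Q`. So each `i` with `x_i ≠ 0` is in `Q_a ⊆ Q_n`.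
-/

open scoped IntermediateField
open Function

namespace Pool.Agent.GBL

private def rfacG {K : Type*} [Field K] (F0 : Set K) : ℕ → Set K
  | 0 => {1}
  | a + 1 => rfacG F0 a ∪ Set.image2 (fun f g => f * g) (rfacG F0 a) F0

private theorem rfacG_finite {K : Type*} [Field K] {F0 : Set K} (h : F0.Finite) (a : ℕ) :
    (rfacG F0 a).Finite := by
  induction a with
  | zero => exact Set.finite_singleton 1
  | succ a ih => exact ih.union (ih.image2 _ h)

private theorem rfacG_mono {K : Type*} [Field K] (F0 : Set K) : Monotone (rfacG F0) :=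
  monotone_nat_of_le_succ fun _ => Set.subset_union_left

private theorem rfac_stable {ι : Type*} [Fintype ι] (Q : ℕ → Set ι) (hQ : Monotone Q) :
    ∃ a ≤ Fintype.card ι, Q a = Q (a + 1) := by
  by_contra hcon
  push Not at hcon
  have h1 : ∀ a ≤ Fintype.card ι + 1, a ≤ (Q a).ncard := by
    intro a
    induction a with
    | zero => intro _; exact Nat.zero_le _
    | succ a ih =>
      intro ha
      have h2 := ih (by omega)
      have h3 : Q a ⊂ Q (a + 1) :=
        (hQ (Nat.le_succ a)).ssubset_of_ne (hcon a (by omega))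
      have h4 := Set.ncard_lt_ncard h3 (Set.toFinite _)
      omega
  have h2 := h1 (Fintype.card ι + 1) le_rfl
  have h3 : (Q (Fintype.card ι + 1)).ncard ≤ Fintype.card ι := by
    rw [← Nat.card_eq_fintype_card, ← Set.ncard_univ]
    exact Set.ncard_le_ncard (Set.subset_univ _) (Set.toFinite _)
  omega

theorem rfac {k K : Type*} [Field k] [IsAlgClosed k] [CharZero k] [Field K] [Algebra k K] (t : K)
    (ht : Transcendental k t) [FiniteDimensional k⟮t⟯ K] {ι : Type*} [Fintype ι]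
    (C : Submodule K (ι → K)) {d : ℕ} (hd : (Module.finrank K C) ^ 2 ≤ d) (hd0 : 0 < d) :
    RF k C d := by
  obtain ⟨F0, hF0, hadj⟩ := adj t ht C hd hd0
  refine ⟨rfacG F0 (Fintype.card ι), rfacG_finite hF0 _, ?_⟩
  intro x hx hprim i j hi hj
  set Q : ℕ → Set ι := fun a => {i | x i ≠ 0 ∧ ∃ f ∈ rfacG F0 a, ∃ c : k,
    x i = x j * (f * algebraMap k K c)} with hQdef
  have hQmono : Monotone Q := by
    rintro a b hab i ⟨h1, f, hf, c, h2⟩
    exact ⟨h1, f, rfacG_mono F0 hab hf, c, h2⟩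
  have hjQ : ∀ a, j ∈ Q a := fun a =>
    ⟨hj, 1, rfacG_mono F0 (Nat.zero_le a) (Set.mem_singleton 1), 1, by simp⟩
  obtain ⟨a, ha, hstab⟩ := rfac_stable Q hQmono
  have hind := prp (k := k) C d x hx (Q a) (by
    rintro r hr e he hsup ⟨l, hle, hlQ⟩ l' hl'
    rw [hstab]
    obtain ⟨_, f, hf, c, h2⟩ := hlQ
    obtain ⟨f', hf', c', h3⟩ := hadj x hx r hr e he hsup l' l hl' hle
    refine ⟨?_, f * f', Or.inr ⟨f, hf, f', hf', rfl⟩, c * c', ?_⟩
    · have h4 : r l' * x l' ^ d ≠ 0 := hsup hl'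
      intro h5
      apply h4
      rw [h5, zero_pow hd0.ne', mul_zero]
    · rw [h3, h2, map_mul]
      ring)
  rcases hprim (Q a) hind with h | h
  · exact absurd (h j (hjQ a)) hj
  · have hiQ : i ∈ Q a := by
      by_contra hi'
      exact hi (h i hi')
    exact (hQmono ha hiQ).2

end Pool.Agent.GBL
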