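import Pool.Agent.GBL.Def

/-!
# Module Tn (size 3): tensor products over an algebraically closed field

`k` algebraically closed, `K` and `κ` extension fields: `κ ⊗[k] K` has no zero divisors.

PROOF SKETCH. Let `z z' = 0`, `z, z' ≠ 0`. Write `z = ∑ a_i ⊗ v_i`, `z' = ∑ a'_i ⊗ v_i`, finite sums with `v_i ∈ K`
linearly independent over `k` (take them from a basis of `K/k`: `κ ⊗ K` is free over `κ` with basis `1 ⊗ v_i`,
`Algebra.TensorProduct.basis`), `a_i, a'_i ∈ κ`, some `a_p ≠ 0`, some `a'_q ≠ 0`. Let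
`A = Algebra.adjoin k {a_i, a'_i, (a_p)⁻¹, (a'_q)⁻¹} ⊆ κ`, a finitely generated `k`-algebra. The map
`A ⊗ K → κ ⊗ K` is injective (flatness: `Module.Flat.rTensor_preserves_injective_linearMap`), so
`z z' = 0` already in `A ⊗ K`. By the Nullstellensatz (a maximal ideal `M` of `A`; `A/M` is a finite extension
of `k` by Zariski's lemma, e.g. `finite_of_finite_type_of_isJacobsonRing`, hence equal to `k`:
`IsAlgClosed.algebraMap_bijective_of_isIntegral`) there is a `k`-algebra map `φ : A → k`. Apply the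
ring homomorphism `Φ : A ⊗ K → K`, `Φ(a ⊗ v) = φ(a) v` (`Algebra.TensorProduct.lift`): `Φ(z) Φ(z') = 0`, while
`Φ(z) = ∑ φ(a_i) v_i ≠ 0`, since the `v_i` are independent and `φ(a_p)` is a unit; same for `z'`. Contradiction.
(If Mathlib has the statement, in any form, use it.)
-/

open scoped TensorProduct

namespace Pool.Agent.GBL

/-- Nullstellensatz: a finitely generated domain over an algebraically closed field has a
rational point. -/
private theorem tn_point {k A : Type*} [Field k] [IsAlgClosed k] [CommRing A] [Nontrivial A]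
    [Algebra k A] [Algebra.FiniteType k A] : Nonempty (A →ₐ[k] k) := by
  obtain ⟨M, hM⟩ := Ideal.exists_maximal A
  letI : Field (A ⧸ M) := Ideal.Quotient.field M
  have hfin : Module.Finite k (A ⧸ M) := finite_of_finite_type_of_isJacobsonRing k (A ⧸ M)
  have hbij : Function.Bijective (algebraMap k (A ⧸ M)) :=
    IsAlgClosed.algebraMap_bijective_of_isIntegral
  exact ⟨(AlgEquiv.ofBijective (Algebra.ofId k (A ⧸ M)) hbij).symm.toAlgHom.comp
    (Ideal.Quotient.mkₐ k M)⟩

/-- Specialisation of an element of `κ ⊗ K` with coordinates in the subalgebra `A`. -/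
private theorem tn_spec {k K κ : Type*} [Field k] [Field K] [Field κ] [Algebra k K]
    [Algebra k κ] {ι : Type*} (b : Module.Basis ι k K) (A : Subalgebra k κ) (z : κ ⊗[k] K)
    (hA : ∀ i, (Algebra.TensorProduct.basis κ b).repr z i ∈ A) (p : ι)
    (hp : (Algebra.TensorProduct.basis κ b).repr z p ≠ 0)
    (hp' : ((Algebra.TensorProduct.basis κ b).repr z p)⁻¹ ∈ A) (φ : A →ₐ[k] k) :
    ∃ z₀ : A ⊗[k] K, Algebra.TensorProduct.map A.val (AlgHom.id k K) z₀ = z ∧
      Algebra.TensorProduct.productMap ((Algebra.ofId k K).comp φ) (AlgHom.id k K) z₀ ≠ 0 := by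
  classical
  set a := (Algebra.TensorProduct.basis κ b).repr z with ha
  refine ⟨∑ i ∈ a.support, (⟨a i, hA i⟩ : A) ⊗ₜ[k] b i, ?_, ?_⟩
  · rw [map_sum]
    have h := (Algebra.TensorProduct.basis κ b).linearCombination_repr z
    rw [Finsupp.linearCombination_apply, Finsupp.sum] at h
    conv_rhs => rw [← h]
    refine Finset.sum_congr rfl fun i _ => ?_
    rw [Algebra.TensorProduct.map_tmul, Algebra.TensorProduct.basis_repr_symm_apply']
    rfl
  · intro h0
    rw [map_sum] at h0
    have h1 : ∑ i ∈ a.support, (φ ⟨a i, hA i⟩) • b i = 0 := by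
      rw [← h0]
      refine Finset.sum_congr rfl fun i _ => ?_
      rw [Algebra.TensorProduct.productMap_apply_tmul, Algebra.smul_def]
      rfl
    have hmem : p ∈ a.support := Finsupp.mem_support_iff.2 hp
    have h2 := linearIndependent_iff'.1 b.linearIndependent a.support _ h1 p hmem
    have h3 : (⟨a p, hA p⟩ : A) * ⟨(a p)⁻¹, hp'⟩ = 1 := by
      apply Subtype.ext
      exact mul_inv_cancel₀ hp
    have h4 := congrArg φ h3
    rw [map_mul, h2, zero_mul, map_one] at h4
    exact zero_ne_one h4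

theorem tn {k K κ : Type*} [Field k] [IsAlgClosed k] [Field K] [Field κ] [Algebra k K]
    [Algebra k κ] : NoZeroDivisors (κ ⊗[k] K) := by
  classical
  refine ⟨fun {z z'} hzz => ?_⟩
  by_contra hcon
  push Not at hcon
  obtain ⟨hz, hz'⟩ := hcon
  let b := Module.Basis.ofVectorSpace k K
  let B := Algebra.TensorProduct.basis κ b
  have hr : B.repr z ≠ 0 := fun h => hz (B.repr.map_eq_zero_iff.1 h)
  have hr' : B.repr z' ≠ 0 := fun h => hz' (B.repr.map_eq_zero_iff.1 h)
  obtain ⟨p, hp⟩ := Finsupp.ne_iff.1 hr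
  obtain ⟨q, hq⟩ := Finsupp.ne_iff.1 hr'
  rw [Finsupp.zero_apply] at hp hq
  let S : Finset κ := (B.repr z).support.image (B.repr z) ∪ (B.repr z').support.image (B.repr z') ∪
    {(B.repr z p)⁻¹, (B.repr z' q)⁻¹}
  let A : Subalgebra k κ := Algebra.adjoin k (S : Set κ)
  have hS : ∀ x ∈ S, x ∈ A := fun x hx => Algebra.subset_adjoin hx
  have hA : ∀ i, B.repr z i ∈ A := by
    intro i
    by_cases h : B.repr z i = 0
    · rw [h]; exact A.zero_mem
    · exact hS _ (Finset.mem_union_left _ (Finset.mem_union_left _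
        (Finset.mem_image_of_mem _ (Finsupp.mem_support_iff.2 h))))
  have hA' : ∀ i, B.repr z' i ∈ A := by
    intro i
    by_cases h : B.repr z' i = 0
    · rw [h]; exact A.zero_mem
    · exact hS _ (Finset.mem_union_left _ (Finset.mem_union_right _
        (Finset.mem_image_of_mem _ (Finsupp.mem_support_iff.2 h))))
  have hip : (B.repr z p)⁻¹ ∈ A :=
    hS _ (Finset.mem_union_right _ (Finset.mem_insert_self _ _))
  have hiq : (B.repr z' q)⁻¹ ∈ A :=
    hS _ (Finset.mem_union_right _ (Finset.mem_insert_of_mem (Finset.mem_singleton_self _)))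
  have hft : Algebra.FiniteType k A :=
    (Subalgebra.fg_iff_finiteType A).1 ⟨S, rfl⟩
  obtain ⟨φ⟩ := tn_point (k := k) (A := A)
  obtain ⟨z₀, h1, h2⟩ := tn_spec b A z hA p hp hip φ
  obtain ⟨z₀', h1', h2'⟩ := tn_spec b A z' hA' q hq hiq φ
  have hinj : Function.Injective (Algebra.TensorProduct.map A.val (AlgHom.id k K)) :=
    Module.Flat.rTensor_preserves_injective_linearMap (M := K) A.val.toLinearMap
      Subtype.val_injective
  have h0 : z₀ * z₀' = 0 := by
    apply hinj
    rw [map_mul, h1, h1', hzz, map_zero]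
  have h3 := congrArg (Algebra.TensorProduct.productMap ((Algebra.ofId k K).comp φ)
    (AlgHom.id k K)) h0
  rw [map_mul, map_zero] at h3
  rcases mul_eq_zero.1 h3 with h | h
  · exact h2 h
  · exact h2' h

end Pool.Agent.GBL
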