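import Pool.Agent.GBL.WrA
import Pool.Agent.GBL.WrB
import Pool.Agent.GBL.Tn

/-!
# Module Rig (size 4): rigidity

`k` algebraically closed, `K/k` a field extension with a `k`-derivation `D`, `Ω/k` a field extension,
`R ⊆ Ω` a valuation ring containing `k` with fraction field `Ω`. Let `v_1..v_N ∈ K` be linearly independent
over `k`, `c_jl ∈ Ω`, `c_j ≠ 0` for each `j`, and suppose that `y_j = ∑_l c_jl ⊗ v_l ∈ Ω ⊗ K` satisfies the system
`Sys` (with `1 ⊗ D` and `1 ⊗ a_j`). Then all `c_jl ∈ R`.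

PROOF SKETCH. `R` is a valuation ring of `Ω`: for each `j` there is `l_j` with `c_(j l_j) ≠ 0` and
`c_jl / c_(j l_j) ∈ R` for all `l`. Put `μ'_j = c_(j l_j)` and choose `j1` with `μ'_j / μ'_(j1) ∈ R` for all `j`. Suppose
some `c_jl ∉ R`; then `μ'_(j1) ∉ R`, so `λ = 1/μ'_(j1)` is in the maximal ideal of `R`. Put
`μ_j = λ μ'_j ∈ R`, `μ_j ≠ 0`, `μ_(j1) = 1`, `z_j = ∑_l (c_jl/μ'_j) ⊗ v_l ∈ R ⊗ K`. So `λ y_j = μ_j z_j` in `Ω ⊗ K`.
Let `q = d + 1 - m^2 ≥ 1`, `e = d + 1 - m` (`e ≤ d` as `m ≥ 1`), `(m+1) e = d m + q`.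
* `wr_omit`: `W := wr (a_j y_j^d)_(j≠0) = ± wr (a_j y_j^d)_(j ≠ j1)`. Elements of `Ω` are killed by
  `bD Ω D` (it is `Ω`-linear). `λ^(d m) * wr (a_j y_j^d)_(j≠j1) = wr (a_j (λ y_j)^d)_(j≠j1) = wr (μ_j^d (a_j z_j^d))_(j≠j1)
  = ∏_(j≠j1) μ_j^d * w'` (`wr_smul`, `wr_const_mul`), `w'` the image of
  `wr (bD R D) (a_j z_j^d)_(j ≠ j1) ∈ R ⊗ K` (`wr_map` for `R ⊗ K → Ω ⊗ K`).
* The second equation of `Sys`, multiplied by `λ^(d m + q)`, `q - 1 = d - m^2`:
  `λ * (λ^(d m) W) * (λ y_0)^(q-1) = ∏_j (λ y_j)^e`, i.e.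
  `± λ * ∏_j μ_j^d * w' * μ_0^(q-1) z_0^(q-1) = ∏_j μ_j^e * ∏_j z_j^e` (as `μ_(j1) = 1`). The `μ_j` are units of `Ω`:
  cancel `∏ μ_j^e`: `± λ * ∏_j μ_j^(d-e) * μ_0^(q-1) * (w' z_0^(q-1)) = ∏_j z_j^e` in `Ω ⊗ K`.
* Both sides come from `R ⊗ K` and `R ⊗ K → Ω ⊗ K` is injective (flatness of `K` over the field `k`), so the
  identity holds in `R ⊗ K`. Map it to `κ ⊗ K`, `κ = R/maximal ideal` (`IsLocalRing.ResidueField R`, with
  its `k`-algebra structure): the left side becomes 0 (`λ ↦ 0`), each `z_j` becomes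
  `∑_l (class of c_jl/μ'_j) ⊗ v_l ≠ 0`, because its `l_j`-th coefficient is 1 and the `1 ⊗ v_l` are independent over `κ`
  (`LinearIndependent.base_change`-type lemma or `LinearIndependent.tmul_...`; or extend `v` to a basis).
  `κ ⊗ K` has no zero divisors by `tn`: contradiction.
-/

open scoped TensorProduct

namespace Pool.Agent.GBL

private lemma rig_indep {k K A : Type*} [Field k] [Field K] [Algebra k K] [AddCommGroup A]
    [Module k A] {N : ℕ} {v : Fin N → K} (hv : LinearIndependent k v) (a : Fin N → A)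
    (h : ∑ l, a l ⊗ₜ[k] v l = 0) (l0 : Fin N) : a l0 = 0 := by
  obtain ⟨g, hg⟩ := (Finsupp.linearCombination k v).exists_leftInverse_of_injective
    (LinearMap.ker_eq_bot.mpr hv)
  have hgv : ∀ l, g (v l) = Finsupp.single l 1 := by
    intro l
    have h1 := LinearMap.congr_fun hg (Finsupp.single l 1)
    simpa using h1
  have h1 := congrArg ((TensorProduct.rid k A).toLinearMap ∘ₗ
    (((Finsupp.lapply l0) ∘ₗ g : K →ₗ[k] k).lTensor A)) h
  simpa [hgv, Finsupp.single_apply] using h1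

private lemma rig_exists_max {Ω Γ : Type*} [Field Ω] [LinearOrderedCommGroupWithZero Γ]
    (w : Valuation Ω Γ) {N : ℕ} (c : Fin N → Ω) (hc : c ≠ 0) :
    ∃ l, c l ≠ 0 ∧ ∀ l', w (c l') ≤ w (c l) := by
  obtain ⟨l1, hl1⟩ : ∃ l, c l ≠ 0 := by
    by_contra hcon
    push Not at hcon
    exact hc (funext hcon)
  obtain ⟨l, _, hl⟩ := Finset.exists_max_image Finset.univ (fun l => w (c l)) ⟨l1, Finset.mem_univ _⟩
  refine ⟨l, fun h0 => ?_, fun l' => hl l' (Finset.mem_univ _)⟩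
  have h1 := hl l1 (Finset.mem_univ _)
  rw [h0, map_zero] at h1
  exact hl1 ((map_eq_zero w).1 (le_antisymm h1 zero_le))

theorem rig {k K R Ω : Type*} [Field k] [IsAlgClosed k] [Field K] [Algebra k K]
    [CommRing R] [IsDomain R] [ValuationRing R] [Algebra k R] [Field Ω] [Algebra R Ω]
    [IsFractionRing R Ω] [Algebra k Ω] [IsScalarTower k R Ω] (D : Derivation k K K)
    {m d N : ℕ} (hd : m ^ 2 ≤ d) (hm : 0 < m) (a : Fin (m + 1) → K) (v : Fin N → K)
    (hv : LinearIndependent k v) (c : Fin (m + 1) → Fin N → Ω) (hc : ∀ j, c j ≠ 0)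
    (h : Sys (bD Ω D) m d (fun j => (1 : Ω) ⊗ₜ[k] a j) (fun j => ∑ l, c j l ⊗ₜ[k] v l)) :
    ∀ j l, ∃ r : R, algebraMap R Ω r = c j l := by
  classical
  set w := ValuationRing.valuation R Ω with hw
  have hmem : ∀ x : Ω, w x ≤ 1 → ∃ r : R, algebraMap R Ω r = x := fun x hx =>
    (ValuationRing.mem_integer_iff R Ω x).1 hx
  have hmem' : ∀ r : R, w (algebraMap R Ω r) ≤ 1 := fun r =>
    (ValuationRing.mem_integer_iff R Ω _).2 ⟨r, rfl⟩
  have hdiv : ∀ x y : Ω, y ≠ 0 → w x ≤ w y → w (x / y) ≤ 1 := by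
    intro x y hy hxy
    rw [map_div₀]
    exact div_le_one_of_le₀ hxy zero_le
  choose lj hlj0 hljm using fun j => rig_exists_max w (c j) (hc j)
  have hμne : (fun j => c j (lj j)) ≠ 0 := fun h0 => hlj0 0 (congrFun h0 0)
  obtain ⟨j1, hj10, hj1m⟩ := rig_exists_max w (fun j => c j (lj j)) hμne
  by_contra hcon
  push Not at hcon
  obtain ⟨j0, l0, hcon⟩ := hcon
  have hbig : 1 < w (c j1 (lj j1)) := by
    by_contra h1
    push Not at h1
    obtain ⟨r, hr⟩ := hmem _ (((hljm j0 l0).trans (hj1m j0)).trans h1)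
    exact hcon r hr
  -- the elements of `R`
  have hρ : ∀ j l, ∃ r : R, algebraMap R Ω r = c j l / c j (lj j) := fun j l =>
    hmem _ (hdiv _ _ (hlj0 j) (hljm j l))
  choose ρ hρ using hρ
  have hν : ∀ j, ∃ r : R, algebraMap R Ω r = c j (lj j) / c j1 (lj j1) := fun j =>
    hmem _ (hdiv _ _ (hlj0 j1) (hj1m j))
  choose ν hν using hν
  have hlam : w (c j1 (lj j1))⁻¹ < 1 := by
    rw [map_inv₀]
    exact inv_lt_one_of_one_lt₀ hbig
  obtain ⟨lam, hlamr⟩ := hmem _ hlam.le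
  have hlamM : lam ∈ IsLocalRing.maximalIdeal R := by
    rw [IsLocalRing.mem_maximalIdeal]
    intro hu
    obtain ⟨b, hb⟩ := hu.exists_right_inv
    have h1 : algebraMap R Ω b = c j1 (lj j1) := by
      have h2 := congrArg (algebraMap R Ω) hb
      rw [map_mul, hlamr, map_one] at h2
      have h3 := hlj0 j1
      field_simp at h2
      exact h2
    have h4 := hmem' b
    rw [h1] at h4
    exact absurd h4 (not_le.mpr hbig)
  -- the maps
  let φ : R ⊗[k] K →ₐ[k] Ω ⊗[k] K :=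
    Algebra.TensorProduct.map (IsScalarTower.toAlgHom k R Ω) (AlgHom.id k K)
  let ψ : R ⊗[k] K →ₐ[k] IsLocalRing.ResidueField R ⊗[k] K :=
    Algebra.TensorProduct.map (IsScalarTower.toAlgHom k R (IsLocalRing.ResidueField R))
      (AlgHom.id k K)
  have hφt : ∀ (r : R) (x : K), φ (r ⊗ₜ[k] x) = algebraMap R Ω r ⊗ₜ[k] x := fun r x => by
    simp [φ]
  have hψt : ∀ (r : R) (x : K), ψ (r ⊗ₜ[k] x) = IsLocalRing.residue R r ⊗ₜ[k] x := fun r x => by
    simp [ψ]
  have hφinj : Function.Injective φ := by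
    have h1 : Function.Injective ((IsScalarTower.toAlgHom k R Ω).toLinearMap) :=
      IsFractionRing.injective R Ω
    exact Module.Flat.rTensor_preserves_injective_linearMap (M := K)
      (IsScalarTower.toAlgHom k R Ω).toLinearMap h1
  have hφD : ∀ x, φ (bD R D x) = bD Ω D (φ x) := by
    intro x
    induction x using TensorProduct.induction_on with
    | zero => simp
    | add x y hx hy => simp only [map_add, hx, hy]
    | tmul r x => simp only [bD_tmul, hφt]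
  let z : Fin (m + 1) → R ⊗[k] K := fun j => ∑ l, ρ j l ⊗ₜ[k] v l
  -- `μ j` as an element of `Ω ⊗ K`
  let μ : Ω → Ω ⊗[k] K := fun x => x ⊗ₜ[k] (1 : K)
  have hμmul : ∀ x y, μ (x * y) = μ x * μ y := fun x y => by
    simp [μ, Algebra.TensorProduct.tmul_mul_tmul]
  have hμone : μ 1 = 1 := rfl
  let μh : Ω →* Ω ⊗[k] K := { toFun := μ, map_one' := hμone, map_mul' := hμmul }
  have hy : ∀ j, (∑ l, c j l ⊗ₜ[k] v l : Ω ⊗[k] K) = μh (c j (lj j)) * φ (z j) := by
    intro j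
    simp only [z, map_sum, hφt, hρ, Finset.mul_sum]
    refine Finset.sum_congr rfl fun l _ => ?_
    show _ = (c j (lj j) ⊗ₜ[k] (1 : K)) * _
    rw [Algebra.TensorProduct.tmul_mul_tmul, one_mul, mul_div_cancel₀ _ (hlj0 j)]
  obtain ⟨hs1, hs2⟩ := h
  simp only [hy] at hs1 hs2
  set θ : Fin (m + 1) → Ω ⊗[k] K :=
    fun j => (1 : Ω) ⊗ₜ[k] a j * (μh (c j (lj j)) * φ (z j)) ^ d with hθ
  have hθ2 : ∀ j, θ j = μh (c j (lj j) ^ d) * φ ((1 : R) ⊗ₜ[k] a j * z j ^ d) := by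
    intro j
    simp only [hθ, map_mul, map_pow, hφt, map_one, mul_pow]
    ring
  set w' : R ⊗[k] K := wr (bD R D)
    (fun j : Fin m => (1 : R) ⊗ₜ[k] a (j1.succAbove j) * z (j1.succAbove j) ^ d) with hw'
  have hW : wr (bD Ω D) (fun j : Fin m => θ (j1.succAbove j)) =
      μh (∏ j : Fin m, c (j1.succAbove j) (lj (j1.succAbove j)) ^ d) * φ w' := by
    have h1 : (fun j : Fin m => θ (j1.succAbove j)) = fun j : Fin m =>
        μh (c (j1.succAbove j) (lj (j1.succAbove j)) ^ d) *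
        φ ((1 : R) ⊗ₜ[k] a (j1.succAbove j) * z (j1.succAbove j) ^ d) :=
      funext fun j => hθ2 _
    rw [h1, wr_const_mul (bD Ω D), map_prod, hw']
    · congr 1
      exact (wr_map (φ : R ⊗[k] K →+* Ω ⊗[k] K) (bD R D) (bD Ω D) hφD _).symm
    · intro j
      show bD Ω D ((_ : Ω) ⊗ₜ[k] (1 : K)) = 0
      rw [bD_tmul, D.map_one_eq_zero, TensorProduct.tmul_zero]
  have hW2 : wr (bD Ω D) (fun j : Fin m => θ j.succ) =
      wr (bD Ω D) (fun j : Fin m => θ (j1.succAbove j)) ∨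
      wr (bD Ω D) (fun j : Fin m => θ j.succ) =
      - wr (bD Ω D) (fun j : Fin m => θ (j1.succAbove j)) := by
    rcases wr_omit (bD Ω D) θ hs1 j1 with h1 | h1
    · exact Or.inl h1.symm
    · right
      rw [h1, neg_neg]
  -- the scalar identity
  set s : R := lam * (∏ j : Fin m, ν (j1.succAbove j) ^ (m - 1)) * ν 0 ^ (d - m ^ 2) with hs
  have hmd : m ≤ d := by nlinarith
  have hscal : (∏ j : Fin m, c (j1.succAbove j) (lj (j1.succAbove j)) ^ d) *
      c 0 (lj 0) ^ (d - m ^ 2) = algebraMap R Ω s * ∏ j, c j (lj j) ^ (d + 1 - m) := by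
    have hcν : ∀ j, c j (lj j) = algebraMap R Ω (ν j) * c j1 (lj j1) := by
      intro j
      rw [hν, div_mul_cancel₀ _ (hlj0 j1)]
    have hlam1 : algebraMap R Ω lam * c j1 (lj j1) = 1 := by
      rw [hlamr, inv_mul_cancel₀ (hlj0 j1)]
    have hν1 : algebraMap R Ω (ν j1) = 1 := by
      rw [hν, div_self (hlj0 j1)]
    set M := c j1 (lj j1) with hM
    set e := d + 1 - m with he
    set f := d - m ^ 2 with hf
    have hL : (∏ j : Fin m, c (j1.succAbove j) (lj (j1.succAbove j)) ^ d) * c 0 (lj 0) ^ f =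
        ((∏ j : Fin m, algebraMap R Ω (ν (j1.succAbove j)) ^ d) * M ^ (d * m)) *
          (algebraMap R Ω (ν 0) ^ f * M ^ f) := by
      congr 1
      · rw [Finset.prod_congr rfl fun j _ => by rw [hcν (j1.succAbove j), mul_pow],
          Finset.prod_mul_distrib, Finset.prod_const, Finset.card_univ, Fintype.card_fin, ← pow_mul]
      · rw [hcν 0, mul_pow]
    have hR : ∏ j, c j (lj j) ^ e =
        M ^ e * ((∏ j : Fin m, algebraMap R Ω (ν (j1.succAbove j)) ^ e) * M ^ (e * m)) := by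
      rw [Fin.prod_univ_succAbove _ j1]
      congr 1
      rw [Finset.prod_congr rfl fun j _ => by rw [hcν (j1.succAbove j), mul_pow],
          Finset.prod_mul_distrib, Finset.prod_const, Finset.card_univ, Fintype.card_fin, ← pow_mul]
    have hp : (∏ j : Fin m, algebraMap R Ω (ν (j1.succAbove j)) ^ d) =
        (∏ j : Fin m, algebraMap R Ω (ν (j1.succAbove j)) ^ (m - 1)) *
        (∏ j : Fin m, algebraMap R Ω (ν (j1.succAbove j)) ^ e) := by
      rw [← Finset.prod_mul_distrib]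
      refine Finset.prod_congr rfl fun j _ => ?_
      rw [← pow_add]
      congr 1
      omega
    have hM2 : M ^ (d * m) * M ^ f = algebraMap R Ω lam * (M ^ e * M ^ (e * m)) := by
      have h1 : e + e * m = (d * m + f) + 1 := by
        have h2 : m ^ 2 + f = d := by omega
        have h3 : e + m = d + 1 := by omega
        nlinarith
      rw [← pow_add, ← pow_add, h1, pow_succ, mul_comm (M ^ _) M, ← mul_assoc, hlam1, one_mul]
    rw [hL, hR, hs]
    simp only [map_mul, map_prod, map_pow]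
    rw [hp]
    linear_combination ((∏ j : Fin m, algebraMap R Ω (ν (j1.succAbove j)) ^ (m - 1)) *
        (∏ j : Fin m, algebraMap R Ω (ν (j1.succAbove j)) ^ e)) * algebraMap R Ω (ν 0) ^ f * hM2
  have hsM : s ∈ IsLocalRing.maximalIdeal R := by
    rw [hs, mul_assoc]
    exact Ideal.mul_mem_right _ _ hlamM
  -- the key identity in `Ω ⊗ K`
  have hμs : μh (algebraMap R Ω s) = φ (s ⊗ₜ[k] 1) := (hφt s 1).symm
  have hunit : IsUnit (μh (∏ j, c j (lj j) ^ (d + 1 - m))) := by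
    apply IsUnit.map
    rw [isUnit_iff_ne_zero]
    exact Finset.prod_ne_zero_iff.2 fun j _ => pow_ne_zero _ (hlj0 j)
  have hRHS : ∏ j, (μh (c j (lj j)) * φ (z j)) ^ (d + 1 - m) =
      μh (∏ j, c j (lj j) ^ (d + 1 - m)) * φ (∏ j, z j ^ (d + 1 - m)) := by
    rw [map_prod, map_prod, ← Finset.prod_mul_distrib]
    refine Finset.prod_congr rfl fun j _ => ?_
    rw [mul_pow, map_pow, map_pow]
  have hLHS : wr (bD Ω D) (fun j : Fin m => θ (j1.succAbove j)) *
      (μh (c 0 (lj 0)) * φ (z 0)) ^ (d - m ^ 2) =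
      μh (∏ j, c j (lj j) ^ (d + 1 - m)) *
        (φ (s ⊗ₜ[k] 1) * φ (w' * z 0 ^ (d - m ^ 2))) := by
    rw [hW, mul_pow, ← map_pow μh, map_mul φ w', map_pow φ]
    have h1 : μh (∏ j : Fin m, c (j1.succAbove j) (lj (j1.succAbove j)) ^ d) *
        μh (c 0 (lj 0) ^ (d - m ^ 2)) =
        φ (s ⊗ₜ[k] 1) * μh (∏ j, c j (lj j) ^ (d + 1 - m)) := by
      rw [← map_mul, hscal, map_mul, hμs]
    linear_combination (φ w' * φ (z 0) ^ (d - m ^ 2)) * h1
  have hkey : ∃ σ : R ⊗[k] K, ψ (∏ j, z j ^ (d + 1 - m)) = ψ (s ⊗ₜ[k] 1 * σ) := by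
    rcases hW2 with h1 | h1
    · refine ⟨w' * z 0 ^ (d - m ^ 2), ?_⟩
      congr 1
      apply hφinj
      apply hunit.mul_left_cancel
      rw [← hRHS, map_mul, ← hLHS, ← hs2, ← h1]
    · refine ⟨-(w' * z 0 ^ (d - m ^ 2)), ?_⟩
      congr 1
      apply hφinj
      apply hunit.mul_left_cancel
      rw [← hRHS, mul_neg, map_neg, mul_neg, map_mul, ← hLHS, ← hs2, ← neg_mul, ← h1]
  obtain ⟨σ, hσ⟩ := hkey
  have h0 : ∏ j, ψ (z j) ^ (d + 1 - m) = 0 := by
    have h1 : ψ (∏ j, z j ^ (d + 1 - m)) = ∏ j, ψ (z j) ^ (d + 1 - m) := by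
      rw [map_prod]
      exact Finset.prod_congr rfl fun j _ => map_pow _ _ _
    rw [← h1, hσ, map_mul, hψt, (IsLocalRing.residue_eq_zero_iff s).2 hsM, TensorProduct.zero_tmul,
      zero_mul]
  have : NoZeroDivisors (IsLocalRing.ResidueField R ⊗[k] K) := tn
  have : Nontrivial (IsLocalRing.ResidueField R ⊗[k] K) := inferInstance
  obtain ⟨j, _, hj⟩ := Finset.prod_eq_zero_iff.1 h0
  have hj' : ψ (z j) = 0 := pow_eq_zero_iff (by omega) |>.1 hj
  simp only [z, map_sum, hψt] at hj'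
  have h5 := rig_indep hv (fun l => IsLocalRing.residue R (ρ j l)) hj' (lj j)
  have h6 : ρ j (lj j) = 1 := by
    apply IsFractionRing.injective R Ω
    rw [hρ, div_self (hlj0 j), map_one]
  simp only [h6, map_one] at h5
  exact one_ne_zero h5

end Pool.Agent.GBL
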