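import Pool.Agent.GBL.WrB
import Pool.Agent.GBL.Rig
import Pool.Agent.GBL.Gen
import Pool.Agent.GBL.GenT

/-!
# Module ThR (size 4): finiteness of the solutions of the normalised system in a finite-dimensional space

`k` algebraically closed. The set `Y` of `c ∈ k^((m+1) × N)` with all `c_j ≠ 0` such that
`y_j = ∑_l c_jl v_l ∈ K` satisfies `Sys` is finite.

PROOF SKETCH. Suppose `Y` (as a subset of `I → k`, `I = Fin (m+1) × Fin N`; use `Function.curry`/`uncurry`) is
infinite; let `M` be the maximal ideal of `k^Y` of `gen` and `Ω = (Y → k) ⧸ M`, a field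
(`Ideal.Quotient.field`), `c*_jl ∈ Ω` the classes of the coordinate functions.
1. In `B_0 = (Y → k) ⊗ K` the element `y^u_j = ∑_l (coordinate function jl) ⊗ v_l` satisfies
   `Sys (bD _ D) m d (1 ⊗ a_j) y^u`: by `evT_inj` it is enough to apply `evT y` for each `y ∈ Y`
   (to the difference of the two sides; `wr_map` for `evT y` with `evT_bD`), which gives the equations of `Y`.
2. The ring map `B_0 → Ω ⊗ K` (`Algebra.TensorProduct.map (Ideal.Quotient.mkₐ k M) (AlgHom.id k K)`) commutes with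
   `bD`; `sys_map` gives `Sys (bD Ω D) m d (1 ⊗ a_j) (∑_l c*_jl ⊗ v_l)`.
3. `c*_j ≠ 0` for each `j`: `gen` with `J = {j} × Fin N`. Some `c*_jl` is not in the image of `k`: `gen`.
4. Put `z = c*_jl`, it is not in `k`, so it is transcendental over the algebraically closed field `k`, so
   `z⁻¹` is not a unit of `k[z⁻¹] ⊆ Ω` (`Algebra.adjoin k {z⁻¹}`): there is a valuation ring `V` of `Ω` containing
   `k[z⁻¹]` with `z⁻¹` in its maximal ideal (`Ideal.image_subset_nonunits_valuationSubring`), so `z ∉ V`.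
5. `rig` with `R = V` (`Algebra k V` by `RingHom.toAlgebra` of the codomain restriction of `algebraMap k Ω`;
   `IsFractionRing V Ω` is an instance) says that `z ∈ V`. Contradiction.
-/

namespace Pool.Agent.GBL

open scoped TensorProduct

private lemma thR_aux {k K Ω : Type*} [Field k] [IsAlgClosed k] [Field K] [Algebra k K]
    [Field Ω] [Algebra k Ω] (D : Derivation k K K) {m d N : ℕ} (hd : m ^ 2 ≤ d) (hm : 0 < m)
    (a : Fin (m + 1) → K) (v : Fin N → K) (hv : LinearIndependent k v)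
    (c : Fin (m + 1) → Fin N → Ω) (hc : ∀ j, c j ≠ 0)
    (h : Sys (bD Ω D) m d (fun j => (1 : Ω) ⊗ₜ[k] a j) (fun j => ∑ l, c j l ⊗ₜ[k] v l))
    (j : Fin (m + 1)) (l : Fin N) : ∃ x : k, algebraMap k Ω x = c j l := by
  by_contra hcon
  push Not at hcon
  have h1 : c j l ∉ (integralClosure k Ω).toSubring := by
    intro h2
    have h3 : IsIntegral k (c j l) := h2
    have h4 : (minpoly k (c j l)).degree = 1 :=
      IsAlgClosed.degree_eq_one_of_irreducible k (minpoly.irreducible h3)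
    obtain ⟨x, hx⟩ := minpoly.mem_range_of_degree_eq_one k (c j l) h4
    exact hcon x hx
  obtain ⟨V, hV1, hV2⟩ := Subring.exists_le_valuationSubring_of_isIntegrallyClosedIn h1
  have hk : ∀ x : k, algebraMap k Ω x ∈ V.toSubring := fun x =>
    hV1 (algebraMap_mem (integralClosure k Ω) x)
  let : Algebra k V := ((algebraMap k Ω).codRestrict V.toSubring hk).toAlgebra
  have : IsScalarTower k V Ω := IsScalarTower.of_algebraMap_eq fun x => rfl
  obtain ⟨r, hr⟩ := rig (R := V) D hd hm a v hv c hc h j l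
  apply hV2
  rw [← hr]
  exact r.2

theorem thR {k K : Type*} [Field k] [IsAlgClosed k] [Field K] [Algebra k K]
    (D : Derivation k K K) {m d N : ℕ} (hd : m ^ 2 ≤ d) (hm : 0 < m) (a : Fin (m + 1) → K)
    (v : Fin N → K) (hv : LinearIndependent k v) :
    {c : Fin (m + 1) → Fin N → k | (∀ j, c j ≠ 0) ∧
      Sys D m d a (fun j => ∑ l, algebraMap k K (c j l) * v l)}.Finite := by
  classical
  by_contra hinf
  set Y0 : Set (Fin (m + 1) → Fin N → k) := {c : Fin (m + 1) → Fin N → k | (∀ j, c j ≠ 0) ∧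
      Sys D m d a (fun j => ∑ l, algebraMap k K (c j l) * v l)} with hY0
  set Y : Set (Fin (m + 1) × Fin N → k) := (fun c => Function.uncurry c) '' Y0 with hY
  have hYinf : Y.Infinite := by
    refine Set.Infinite.image (fun c _ c' _ hcc => ?_) hinf
    funext j l
    exact congrFun hcc (j, l)
  have hYmem : ∀ y : Y, (∀ j, ∃ l, y.1 (j, l) ≠ 0) ∧
      Sys D m d a (fun j => ∑ l, algebraMap k K (y.1 (j, l)) * v l) := by
    rintro ⟨y, c, ⟨hc1, hc2⟩, rfl⟩
    refine ⟨fun j => ?_, hc2⟩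
    by_contra hcon
    push Not at hcon
    exact hc1 j (funext hcon)
  obtain ⟨M, hM, ⟨⟨j0, l0⟩, hgen1⟩, hgen2⟩ := gen Y hYinf
  let : Field ((Y → k) ⧸ M) := Ideal.Quotient.field M
  let cs : Fin (m + 1) → Fin N → (Y → k) ⧸ M := fun j l => Ideal.Quotient.mk M (fun y => y.1 (j, l))
  -- the universal system
  have hsys : Sys (bD (Y → k) D) m d (fun j => (1 : Y → k) ⊗ₜ[k] a j)
      (fun j => ∑ l, (fun y : Y => y.1 (j, l)) ⊗ₜ[k] v l) := by
    have hev : ∀ (y : Y) (j : Fin (m + 1)), evT k K y (∑ l, (fun y : Y => y.1 (j, l)) ⊗ₜ[k] v l) =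
        ∑ l, algebraMap k K (y.1 (j, l)) * v l := by
      intro y j
      rw [map_sum]
      exact Finset.sum_congr rfl fun l _ => evT_tmul y _ _
    have hev1 : ∀ (y : Y) (x : K), evT k K y ((1 : Y → k) ⊗ₜ[k] x) = x := by
      intro y x
      rw [evT_tmul]
      simp
    constructor
    · apply evT_inj
      intro y
      have h1 := (hYmem y).2.1
      rw [map_sum]
      simp only [map_mul, map_pow, hev, hev1]
      exact h1
    · rw [← sub_eq_zero]
      apply evT_inj
      intro y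
      have h1 := (hYmem y).2.2
      rw [map_sub, sub_eq_zero, map_mul, map_prod]
      have h2 := wr_map (evT k K y : (Y → k) ⊗[k] K →+* K) (bD (Y → k) D) D (evT_bD D y)
        (fun j : Fin m => (1 : Y → k) ⊗ₜ[k] a j.succ *
          (∑ l, (fun y : Y => y.1 (j.succ, l)) ⊗ₜ[k] v l) ^ d)
      simp only [RingHom.coe_coe] at h2
      rw [h2]
      simp only [map_mul, map_pow, hev, hev1]
      exact h1
  let χ : (Y → k) ⊗[k] K →ₐ[k] ((Y → k) ⧸ M) ⊗[k] K :=
    Algebra.TensorProduct.map (Ideal.Quotient.mkₐ k M) (AlgHom.id k K)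
  have hχt : ∀ (f : Y → k) (x : K), χ (f ⊗ₜ[k] x) = Ideal.Quotient.mk M f ⊗ₜ[k] x := fun f x => by
    simp [χ]
  have hχD : ∀ x, χ (bD (Y → k) D x) = bD ((Y → k) ⧸ M) D (χ x) := by
    intro x
    induction x using TensorProduct.induction_on with
    | zero => simp
    | add x y hx hy => simp only [map_add, hx, hy]
    | tmul r x => simp only [bD_tmul, hχt]
  have hsys2 := sys_map (χ : (Y → k) ⊗[k] K →+* ((Y → k) ⧸ M) ⊗[k] K) (bD (Y → k) D)
    (bD ((Y → k) ⧸ M) D) hχD _ _ hsys
  simp only [RingHom.coe_coe, map_sum, hχt, map_one] at hsys2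
  have hcs : ∀ j, cs j ≠ 0 := by
    intro j hj
    obtain ⟨⟨j', l⟩, hJ, hl⟩ := hgen2 {p | p.1 = j} (by
      intro y hy
      obtain ⟨l, hl⟩ := (hYmem ⟨y, hy⟩).1 j
      exact ⟨(j, l), rfl, hl⟩)
    have hJ' : j' = j := hJ
    subst hJ'
    exact hl (Ideal.Quotient.eq_zero_iff_mem.1 (congrFun hj l))
  obtain ⟨x, hx⟩ := thR_aux D hd hm a v hv cs hcs hsys2 j0 l0
  apply hgen1 x
  rw [← Ideal.Quotient.eq_zero_iff_mem]
  have h1 : (fun y : Y => y.1 (j0, l0) - x) = (fun y : Y => y.1 (j0, l0)) - algebraMap k (Y → k) x :=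
    rfl
  rw [h1, map_sub, sub_eq_zero]
  exact hx.symm

end Pool.Agent.GBL
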