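import Pool.Agent.GBL.WrC
import Pool.Agent.GBL.Bd
import Pool.Agent.GBL.FvB
import Pool.Agent.GBL.ThR
import Pool.Agent.GBL.Der

/-!
# Module ThA (size 4): Theorem A

`k` algebraically closed of characteristic 0, `K/k` a function field of one variable, `a_j ∈ K^*`,
`d ≥ m^2`, `d ≥ 1`: up to scaling there are finitely many `x ∈ (K^*)^(m+1)` with `∑ a_j x_j^d = 0` and
`a_1 x_1^d, ..., a_m x_m^d` linearly independent over `k`.

PROOF SKETCH. `m = 0`: there is no such `x` (`a_0 x_0^d ≠ 0`); `S = ∅`. Let `m ≥ 1`. Take `D` from `der`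
(`k` is algebraically closed: `hk` from `IsAlgClosed.algebraMap_bijective_of_isIntegral` or
`IsAlgClosed.algebraMap_surjective_of_isIntegral'`-like facts), `B` from `bd` for `t`, `B'` from `bd` for `t⁻¹`
(`t⁻¹` is transcendental, `k⟮t⁻¹⟯ = k⟮t⟯`), `V` from `fvB` (`P = B`, `Q = B'`). Let `v : Fin N → K` be a basis of `V`
(`Module.finBasis k V`), `v` is linearly independent in `K`. Let `x` be a solution, `x' = x / x_0`, so `x'_0 = 1`, and
the `a_j x'_j^d` are not nec. independent over `k` -- but `W := wr D (a_j x_j^d) ≠ 0` by `wr_ne_zero`, and by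
`wr_smul` (`x_j = x_0 x'_j`) also `W' := wr D (a_j x'_j^d) ≠ 0`. Put `G = W' / ∏ x'_j^e ≠ 0`, `e = d + 1 - m`. By `bd` (twice) and
`fvB` all `y_j := G x'_j` are in `V`, `y_j ≠ 0`, so `y_j = ∑_l c_jl v_l` with `c_j ≠ 0` in `k^N`. And `y` satisfies `Sys`:
`∑ a_j y_j^d = G^d ∑ a_j x'_j^d = 0` and, with `q = d + 1 - m^2`,
`wr D (a_j y_j^d) * y_0^(q-1) = G^(d m) W' G^(q-1) = G^(d m + q) ∏ x'_j^e = G^((m+1) e) ∏ x'_j^e = ∏ y_j^e` (`wr_smul`,
`(m+1) e = d m + q`). So `c` is in the finite set of `thR`. Let `S` be the image of that finite set under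
`c ↦ (∑_l c_jl v_l)_j`; `x_j = (x_0 / G) * y_j`.
-/

open scoped IntermediateField

namespace Pool.Agent.GBL

private theorem thA_alg {k K : Type*} [Field k] [IsAlgClosed k] [Field K] [Algebra k K]
    (x : K) (hx : IsAlgebraic k x) : ∃ c : k, algebraMap k K c = x := by
  have h1 : IsIntegral k x := hx.isIntegral
  exact h1.mem_range_algebraMap_of_minpoly_splits (IsAlgClosed.splits _)

private theorem thA_adj {k K : Type*} [Field k] [Field K] [Algebra k K] (t : K) :
    k⟮t⁻¹⟯ = k⟮t⟯ := by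
  apply le_antisymm
  · rw [IntermediateField.adjoin_simple_le_iff]
    exact inv_mem (IntermediateField.mem_adjoin_simple_self k t)
  · rw [IntermediateField.adjoin_simple_le_iff]
    have := inv_mem (IntermediateField.mem_adjoin_simple_self k t⁻¹)
    rwa [inv_inv] at this

theorem thA {k K : Type*} [Field k] [IsAlgClosed k] [CharZero k] [Field K] [Algebra k K] (t : K)
    (ht : Transcendental k t) [FiniteDimensional k⟮t⟯ K] {m d : ℕ} (hd : m ^ 2 ≤ d) (hd0 : 0 < d)
    (a : Fin (m + 1) → K) (ha : ∀ j, a j ≠ 0) :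
    ∃ S : Set (Fin (m + 1) → K), S.Finite ∧ ∀ x : Fin (m + 1) → K, (∀ j, x j ≠ 0) →
      ∑ j, a j * x j ^ d = 0 →
      LinearIndependent k (fun j : Fin m => a j.succ * x j.succ ^ d) →
      ∃ b ∈ S, ∃ l : K, ∀ j, x j = l * b j := by
  classical
  rcases Nat.eq_zero_or_pos m with hm | hm
  · subst hm
    refine ⟨∅, Set.finite_empty, ?_⟩
    intro x hx hs _
    exfalso
    simp only [Nat.reduceAdd, Finset.univ_unique, Fin.default_eq_zero, Fin.isValue,
      Finset.sum_singleton] at hs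
    exact mul_ne_zero (ha 0) (pow_ne_zero _ (hx 0)) hs
  obtain ⟨D, hD⟩ := der t ht (fun x hx => thA_alg x hx)
  obtain ⟨B, hB, hB0, hBx⟩ := bd t ht D hd a
  have ht' : Transcendental k t⁻¹ := by
    intro h
    exact ht (IsAlgebraic.inv_iff.1 h)
  haveI hfd : FiniteDimensional k⟮t⁻¹⟯ K := by
    rw [thA_adj]; infer_instance
  obtain ⟨B', hB', hB'0, hB'x⟩ := bd t⁻¹ ht' D hd a
  obtain ⟨V, hVf, hV⟩ := fvB t ht B B' hB hB0 hB' hB'0
  set N := Module.finrank k V with hN
  let bas := Module.finBasis k V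
  let v : Fin N → K := fun l => (bas l : K)
  have hv : LinearIndependent k v := by
    have h1 := bas.linearIndependent
    exact h1.map' V.subtype (Submodule.ker_subtype V)
  have hfin := thR D hd hm a v hv
  refine ⟨(fun c : Fin (m + 1) → Fin N → k => fun j => ∑ l, algebraMap k K (c j l) * v l) ''
    {c : Fin (m + 1) → Fin N → k | (∀ j, c j ≠ 0) ∧
      Sys D m d a (fun j => ∑ l, algebraMap k K (c j l) * v l)}, hfin.image _, ?_⟩
  intro x hx hs hli
  have hx0 := hx 0
  -- normalised point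
  set x' : Fin (m + 1) → K := fun j => x j / x 0 with hx'def
  have hx'0 : x' 0 = 1 := div_self hx0
  have hx' : ∀ j, x' j ≠ 0 := fun j => div_ne_zero (hx j) hx0
  have hxx' : ∀ j, x j = x 0 * x' j := fun j => by
    simp only [hx'def]; field_simp
  have hsum' : ∑ j, a j * x' j ^ d = 0 := by
    have h1 : ∑ j, a j * x j ^ d = x 0 ^ d * ∑ j, a j * x' j ^ d := by
      rw [Finset.mul_sum]
      refine Finset.sum_congr rfl fun j _ => ?_
      rw [hxx' j, mul_pow]; ring
    rw [h1] at hs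
    rcases mul_eq_zero.1 hs with h | h
    · exact absurd h (pow_ne_zero _ hx0)
    · exact h
  have hW : wr D (fun j : Fin m => a j.succ * x j.succ ^ d) ≠ 0 := wr_ne_zero D hD _ hli
  set W' := wr D (fun j : Fin m => a j.succ * x' j.succ ^ d) with hW'def
  have hW' : W' ≠ 0 := by
    intro h0
    apply hW
    have h1 : (fun j : Fin m => a j.succ * x j.succ ^ d) =
        fun j : Fin m => x 0 ^ d * (a j.succ * x' j.succ ^ d) := by
      funext j
      rw [hxx' j.succ, mul_pow]; ring
    rw [h1, wr_smul D (x 0 ^ d), ← hW'def, h0, mul_zero]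
  have hP : ∏ j, x' j ^ (d + 1 - m) ≠ 0 :=
    Finset.prod_ne_zero_iff.2 fun j _ => pow_ne_zero _ (hx' j)
  set G := W' / ∏ j, x' j ^ (d + 1 - m) with hGdef
  have hG : G ≠ 0 := div_ne_zero hW' hP
  have hGW : G * ∏ j, x' j ^ (d + 1 - m) = W' := div_mul_cancel₀ _ hP
  have hmem : ∀ j, G * x' j ∈ V := fun j =>
    hV _ (hBx x' hx' hx'0 hsum' G hGW j) (hB'x x' hx' hx'0 hsum' G hGW j)
  let c : Fin (m + 1) → Fin N → k := fun j l => bas.repr ⟨G * x' j, hmem j⟩ l
  have hc : ∀ j, ∑ l, algebraMap k K (c j l) * v l = G * x' j := by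
    intro j
    have h1 := bas.sum_repr ⟨G * x' j, hmem j⟩
    have h2 := congrArg (fun z : V => (z : K)) h1
    simp only [Submodule.coe_sum, Submodule.coe_smul, Algebra.smul_def] at h2
    exact h2
  have hfun : (fun j => ∑ l, algebraMap k K (c j l) * v l) = fun j => G * x' j := funext hc
  refine ⟨fun j => ∑ l, algebraMap k K (c j l) * v l, ⟨c, ⟨?_, ?_⟩, rfl⟩, x 0 / G, ?_⟩
  · intro j h0
    have h1 := hc j
    rw [h0] at h1
    simp only [Pi.zero_apply, map_zero, zero_mul, Finset.sum_const_zero] at h1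
    exact mul_ne_zero hG (hx' j) h1.symm
  · rw [hfun]
    refine ⟨?_, ?_⟩
    · have h1 : ∑ j, a j * (G * x' j) ^ d = G ^ d * ∑ j, a j * x' j ^ d := by
        rw [Finset.mul_sum]
        refine Finset.sum_congr rfl fun j _ => ?_
        rw [mul_pow]; ring
      rw [h1, hsum', mul_zero]
    · have h1 : (fun j : Fin m => a j.succ * (G * x' j.succ) ^ d) =
          fun j : Fin m => G ^ d * (a j.succ * x' j.succ ^ d) := by
        funext j
        rw [mul_pow]; ring
      have h2 : ∏ j, (G * x' j) ^ (d + 1 - m) =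
          G ^ ((m + 1) * (d + 1 - m)) * ∏ j, x' j ^ (d + 1 - m) := by
        simp only [mul_pow]
        rw [Finset.prod_mul_distrib, Finset.prod_const, Finset.card_univ, Fintype.card_fin,
          ← pow_mul, mul_comm (d + 1 - m) (m + 1)]
      have h3 : (m + 1) * (d + 1 - m) = d * m + 1 + (d - m ^ 2) := by
        have h4 : m ≤ m ^ 2 := Nat.le_self_pow (by norm_num) m
        obtain ⟨r, hr⟩ := Nat.exists_eq_add_of_le hd
        obtain ⟨s, hs'⟩ := Nat.exists_eq_add_of_le h4
        have h5 : d + 1 - m = s + r + 1 := by omega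
        have h6 : d - m ^ 2 = r := by omega
        rw [h5, h6, hr]
        have h7 : (m : ℤ) ^ 2 = m + s := by exact_mod_cast hs'
        zify
        nlinarith [h7]
      show wr D (fun j : Fin m => a j.succ * (G * x' j.succ) ^ d) * (G * x' 0) ^ (d - m ^ 2) = _
      rw [h1, wr_smul D (G ^ d), ← hW'def, h2, h3, hx'0, mul_one, ← hGW]
      rw [pow_add, pow_add, pow_one, ← pow_mul]
      ring
  · intro j
    show x j = x 0 / G * (∑ l, algebraMap k K (c j l) * v l)
    rw [hc j, hxx' j]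
    have hh : x 0 * x' 0 = x 0 := by rw [hx'0, mul_one]
    field_simp

end Pool.Agent.GBL
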