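import Pool.Agent.GBL.ThA

/-!
# Module ThI (size 2): Theorem A for an arbitrary finite index type

PROOF SKETCH. If `J` is empty there is no `j0`; `S = ∅`. Otherwise `card J = m + 1`; for each `j0 ∈ J` choose
an equivalence `s : Fin (m+1) ≃ J` with `s 0 = j0` and apply `thA` to `a ∘ s`; `S` is the union over the finitely
many `j0` of the (pulled back) sets. The family `(a_j x_j^d)_(j ≠ j0)` reindexed by
`Fin m ≃ {j // j ≠ j0}` (`finSuccAboveEquiv` or an equivalence made from `s` and `Fin.succ`) is the one of `thA`.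
-/

open scoped IntermediateField

namespace Pool.Agent.GBL

theorem thI {k K : Type*} [Field k] [IsAlgClosed k] [CharZero k] [Field K] [Algebra k K] (t : K)
    (ht : Transcendental k t) [FiniteDimensional k⟮t⟯ K] {J : Type*} [Fintype J] {d : ℕ}
    (hd : (Fintype.card J - 1) ^ 2 ≤ d) (hd0 : 0 < d) (a : J → K) (ha : ∀ j, a j ≠ 0) :
    ∃ S : Set (J → K), S.Finite ∧ ∀ x : J → K, (∀ j, x j ≠ 0) →
      ∑ j, a j * x j ^ d = 0 →
      (∃ j0, LinearIndependent k (fun j : {j : J // j ≠ j0} => a j * x j ^ d)) →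
      ∃ b ∈ S, ∃ l : K, ∀ j, x j = l * b j := by
  classical
  have key : ∀ j0 : J, ∃ S : Set (J → K), S.Finite ∧ ∀ x : J → K, (∀ j, x j ≠ 0) →
      ∑ j, a j * x j ^ d = 0 →
      LinearIndependent k (fun j : {j : J // j ≠ j0} => a j * x j ^ d) →
      ∃ b ∈ S, ∃ l : K, ∀ j, x j = l * b j := by
    intro j0
    have hcard : 0 < Fintype.card J := Fintype.card_pos_iff.2 ⟨j0⟩
    obtain ⟨m, hm⟩ : ∃ m, Fintype.card J = m + 1 := ⟨Fintype.card J - 1, by omega⟩
    let s0 : Fin (m + 1) ≃ J := (Fintype.equivFinOfCardEq hm).symm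
    let s : Fin (m + 1) ≃ J := (Equiv.swap 0 (s0.symm j0)).trans s0
    have hs0 : s 0 = j0 := by simp [s]
    have hm2 : m ^ 2 ≤ d := by
      have : Fintype.card J - 1 = m := by omega
      rwa [this] at hd
    obtain ⟨S, hS, hS2⟩ := thA t ht hm2 hd0 (fun j => a (s j)) (fun j => ha (s j))
    refine ⟨(fun b : Fin (m + 1) → K => fun j => b (s.symm j)) '' S, hS.image _, ?_⟩
    intro x hx hsum hli
    have hsum' : ∑ j, a (s j) * x (s j) ^ d = 0 := by
      rw [← hsum]
      exact s.sum_comp (fun j => a j * x j ^ d)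
    have hli' : LinearIndependent k (fun j : Fin m => a (s j.succ) * x (s j.succ) ^ d) := by
      have hinj : Function.Injective (fun j : Fin m => (⟨s j.succ, by
          intro h
          rw [← hs0] at h
          exact Fin.succ_ne_zero j (s.injective h)⟩ : {j : J // j ≠ j0})) := by
        intro i j hij
        have := congrArg Subtype.val hij
        exact Fin.succ_injective _ (s.injective this)
      exact hli.comp _ hinj
    obtain ⟨b, hb, l, hl⟩ := hS2 (fun j => x (s j)) (fun j => hx (s j)) hsum' hli'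
    refine ⟨fun j => b (s.symm j), ⟨b, hb, rfl⟩, l, ?_⟩
    intro j
    have := hl (s.symm j)
    simpa using this
  choose S hS hS2 using key
  refine ⟨⋃ j0, S j0, Set.finite_iUnion hS, ?_⟩
  intro x hx hsum ⟨j0, hli⟩
  obtain ⟨b, hb, l, hl⟩ := hS2 j0 x hx hsum hli
  exact ⟨b, Set.mem_iUnion.2 ⟨j0, hb⟩, l, hl⟩

end Pool.Agent.GBL
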