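import Pool.Agent.GBL.Def

/-!
# Module WrA (size 3): scaling of the Wronskian

PROOF SKETCH.
General principle: let `E_0, E_1, ... : B → B` be maps with `E_i θ = ∑_{l ≤ i} c i l * D^[l] θ` for all
`θ`, the coefficients `c i l` being independent of `θ`. Then
`det (E_i (θ_j)) = (∏_i c i i) * det (D^[i] θ_j)`, because the matrix `(E_i (θ_j))` is the product of the
lower triangular matrix `(c i l)` (put 0 for `l > i`) and the matrix `(D^[l] θ_j)`
(`Matrix.det_mul`, `Matrix.det_of_lowerTriangular`).
* `E_i θ = D^[i] (g * θ)`: by induction on `i`, coefficients exist with `c i i = g`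
  (apply `D` to the formula for `i` and use Leibniz; `c (i+1) l = D (c i l) + c i (l-1)`).
* `E_i θ = (g • D)^[i] θ`: by induction, with `c i i = g^i`
  (`c (i+1) l = g * D (c i l) + g * c i (l-1)`). `∏_{i<m} g^i = g^(∑ i) = g^(m(m-1)/2)`
  (`Finset.prod_pow_eq_pow_sum`, `Finset.sum_range_id`).
-/

namespace Pool.Agent.GBL

private theorem WrA_gen {B : Type*} [CommRing B] {m : ℕ} (D : B → B) (E : ℕ → B → B)
    (c : ℕ → ℕ → B) (θ : Fin m → B)
    (h : ∀ i x, E i x = ∑ l ∈ Finset.range (i + 1), c i l * D^[l] x) :
    Matrix.det (Matrix.of fun i j : Fin m => E (i : ℕ) (θ j)) =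
      (∏ i : Fin m, c i i) * wr D θ := by
  have key : (Matrix.of fun i j : Fin m => E (i : ℕ) (θ j)) =
      (Matrix.of fun i l : Fin m => if l ≤ i then c i l else 0) *
        (Matrix.of fun i j : Fin m => D^[(i : ℕ)] (θ j)) := by
    ext i j
    rw [Matrix.mul_apply]
    simp only [Matrix.of_apply, ite_mul, zero_mul]
    rw [h]
    have h1 : ∑ l : Fin m, (if l ≤ i then c i l * D^[(l : ℕ)] (θ j) else 0) =
        ∑ l ∈ Finset.range m, (if l ≤ (i : ℕ) then c i l * D^[l] (θ j) else 0) := by
      rw [← Fin.sum_univ_eq_sum_range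
        (fun l => if l ≤ (i : ℕ) then c i l * D^[l] (θ j) else 0)]
      rfl
    rw [h1, ← Finset.sum_filter]
    apply Finset.sum_congr _ (fun _ _ => rfl)
    ext l
    have := i.2
    simp only [Finset.mem_range, Finset.mem_filter]
    omega
  rw [key, Matrix.det_mul]
  congr 1
  rw [Matrix.det_of_lowerTriangular]
  · apply Finset.prod_congr rfl
    intro i _
    simp
  · intro i j hij
    have h2 : i < j := by simpa using hij
    simp [Matrix.of_apply, not_le.mpr h2]

/-- induction step for the coefficients -/
private theorem WrA_coef {A B : Type*} [CommRing A] [CommRing B] [Algebra A B]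
    (D : Derivation A B B) (g c0 : B) (E : ℕ → B → B)
    (h0 : ∀ x, E 0 x = c0 * x)
    (hs : ∀ i x, E (i + 1) x = g * D (E i x)) :
    ∃ c : ℕ → ℕ → B, (∀ i, c i i = g ^ i * c0) ∧
      ∀ i x, E i x = ∑ l ∈ Finset.range (i + 1), c i l * D^[l] x := by
  have step : ∀ i, ∃ c : ℕ → B, c i = g ^ i * c0 ∧ (∀ l, i < l → c l = 0) ∧
      ∀ x, E i x = ∑ l ∈ Finset.range (i + 1), c l * D^[l] x := by
    intro i
    induction i with
    | zero =>
      refine ⟨fun l => if l = 0 then c0 else 0, by simp, ?_, ?_⟩
      · intro l hl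
        have : l ≠ 0 := by omega
        simp [this]
      · intro x
        simp [h0]
    | succ i ih =>
      obtain ⟨c, hc1, hc2, hc3⟩ := ih
      refine ⟨fun l => g * D (c l) + (if l = 0 then 0 else g * c (l - 1)), ?_, ?_, ?_⟩
      · have h1 : c (i + 1) = 0 := hc2 _ (by omega)
        simp only [h1, map_zero, mul_zero, zero_add, Nat.add_eq_zero_iff, one_ne_zero, and_false,
          if_false, Nat.add_sub_cancel, hc1]
        ring
      · intro l hl
        have h1 : c l = 0 := hc2 _ (by omega)
        have h2 : c (l - 1) = 0 := hc2 _ (by omega)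
        simp [h1, h2]
      · intro x
        rw [hs, hc3, map_sum]
        have h1 : ∀ l, D (c l * D^[l] x) = D (c l) * D^[l] x + c l * D^[l + 1] x := by
          intro l
          rw [Derivation.leibniz, Function.iterate_succ_apply']
          simp only [smul_eq_mul]
          ring
        rw [Finset.sum_congr rfl (fun l _ => h1 l), Finset.sum_add_distrib, mul_add]
        have h2 : ∑ l ∈ Finset.range (i + 1 + 1),
            (g * D (c l) + (if l = 0 then 0 else g * c (l - 1))) * D^[l] x =
            ∑ l ∈ Finset.range (i + 1 + 1), g * D (c l) * D^[l] x +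
            ∑ l ∈ Finset.range (i + 1 + 1), (if l = 0 then 0 else g * c (l - 1)) * D^[l] x := by
          rw [← Finset.sum_add_distrib]
          apply Finset.sum_congr rfl
          intro l _
          ring
        rw [h2]
        congr 1
        · rw [Finset.sum_range_succ (n := i + 1)]
          have h3 : c (i + 1) = 0 := hc2 _ (by omega)
          rw [h3, map_zero, mul_zero, zero_mul, add_zero, Finset.mul_sum]
          apply Finset.sum_congr rfl
          intro l _
          ring
        · rw [Finset.sum_range_succ' (n := i + 1)]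
          simp only [if_true, zero_mul, add_zero, Nat.add_eq_zero_iff, one_ne_zero, and_false,
            if_false, Nat.add_sub_cancel]
          rw [Finset.mul_sum]
          apply Finset.sum_congr rfl
          intro l _
          ring
  choose c hc1 hc2 hc3 using step
  exact ⟨c, hc1, hc3⟩

theorem wr_smul {A B : Type*} [CommRing A] [CommRing B] [Algebra A B] (D : Derivation A B B)
    {m : ℕ} (g : B) (θ : Fin m → B) :
    wr D (fun j => g * θ j) = g ^ m * wr D θ := by
  obtain ⟨c, hc1, hc2⟩ := WrA_coef D 1 g (fun i x => D^[i] (g * x))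
    (fun x => by simp) (fun i x => by simp [Function.iterate_succ_apply'])
  have h := WrA_gen D (fun i x => D^[i] (g * x)) c θ hc2
  have h1 : ∏ i : Fin m, c i i = g ^ m := by
    simp [hc1]
  rw [h1] at h
  exact h

theorem wr_smul_der {A B : Type*} [CommRing A] [CommRing B] [Algebra A B] (D : Derivation A B B)
    {m : ℕ} (g : B) (θ : Fin m → B) :
    wr (g • D : Derivation A B B) θ = g ^ (m * (m - 1) / 2) * wr D θ := by
  obtain ⟨c, hc1, hc2⟩ := WrA_coef D g 1
    (fun i x => (g • D : Derivation A B B)^[i] x)
    (fun x => by simp) (fun i x => by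
      rw [Function.iterate_succ_apply']
      simp [smul_eq_mul])
  have h := WrA_gen D (fun i x => (g • D : Derivation A B B)^[i] x) c θ hc2
  have h1 : ∏ i : Fin m, c i i = g ^ (m * (m - 1) / 2) := by
    simp only [hc1, mul_one]
    rw [Finset.prod_pow_eq_pow_sum, Fin.sum_univ_eq_sum_range (fun i => i), Finset.sum_range_id]
  rw [h1] at h
  exact h

end Pool.Agent.GBL
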