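import Pool.Agent.GBL.Def

/-!
# Module WrC (size 3): the Wronskian criterion

`K/k` fields, `D` a `k`-derivation of `K` whose kernel is `k`. If `θ_1, ..., θ_m` are linearly
independent over `k` then `det (D^[i] θ_j) ≠ 0`.

PROOF SKETCH. Induction on `m`; `m = 0`: the determinant is 1. Step `m → m+1` (use
`Fin.castSucc`, `Fin.last`): suppose `wr = 0` for `θ_0..θ_m`. By `Matrix.exists_mulVec_eq_zero_iff`
there is `u ≠ 0` in `K^(m+1)` with `∑_j u_j D^[i] θ_j = 0` for `i = 0..m`. If `u_m = 0`, then the first `m` columns,
restricted to the rows `0..m-1`, are dependent, so `wr (θ_0..θ_(m-1)) = 0`, contradicting the induction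
hypothesis (a subfamily of an independent family). So `u_m ≠ 0`, and after scaling `u_m = 1`.
Differentiate the relation number `i < m`: `∑_j D(u_j) D^[i] θ_j + ∑_j u_j D^[i+1] θ_j = 0`, the second sum is 0
(relation number `i+1 ≤ m`) and `D(u_m) = D 1 = 0`: so `∑_(j<m) D(u_j) D^[i] θ_j = 0` for `i < m`, and
`wr (θ_0..θ_(m-1)) ≠ 0` gives `D(u_j) = 0` for all `j < m`. So all `u_j ∈ k`, and relation number 0 is a
nontrivial `k`-linear relation between `θ_0..θ_m`. Contradiction.
-/

namespace Pool.Agent.GBL

theorem wr_ne_zero {k K : Type*} [Field k] [Field K] [Algebra k K] (D : Derivation k K K)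
    (hD : ∀ x, D x = 0 → ∃ c : k, algebraMap k K c = x) {m : ℕ} (θ : Fin m → K)
    (h : LinearIndependent k θ) : wr D θ ≠ 0 := by
  induction m with
  | zero => simp [wr]
  | succ m ih =>
    intro h0
    unfold wr at h0
    obtain ⟨u, hu, hu0⟩ := Matrix.exists_mulVec_eq_zero_iff.2 h0
    have rel : ∀ i : Fin (m + 1), ∑ j, D^[(i : ℕ)] (θ j) * u j = 0 := fun i => by
      have := congrFun hu0 i
      simpa [Matrix.mulVec, dotProduct] using this
    have hsub : LinearIndependent k (fun j : Fin m => θ j.castSucc) :=
      h.comp _ (Fin.castSucc_injective m)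
    have hw := ih (fun j => θ j.castSucc) hsub
    have key : ∀ v : Fin m → K,
        (∀ i : Fin m, ∑ j : Fin m, D^[(i : ℕ)] (θ j.castSucc) * v j = 0) → v = 0 := by
      intro v hv
      by_contra hne
      refine hw ?_
      unfold wr
      exact Matrix.exists_mulVec_eq_zero_iff.1
        ⟨v, hne, by funext i; simpa [Matrix.mulVec, dotProduct] using hv i⟩
    by_cases hm : u (Fin.last m) = 0
    · have h1 : (fun j : Fin m => u j.castSucc) = 0 := key _ (fun i => by
        have := rel i.castSucc
        rw [Fin.sum_univ_castSucc] at this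
        simpa [hm] using this)
      apply hu
      funext j
      refine Fin.lastCases ?_ (fun j => ?_) j
      · simpa using hm
      · exact congrFun h1 j
    · set v : Fin (m + 1) → K := fun j => u j / u (Fin.last m) with hv
      have v1 : v (Fin.last m) = 1 := div_self hm
      have relv : ∀ i : Fin (m + 1), ∑ j, D^[(i : ℕ)] (θ j) * v j = 0 := fun i => by
        have := rel i
        simp only [hv, ← mul_div_assoc, ← Finset.sum_div, this, zero_div]
      have dv : ∀ i : Fin m,
          ∑ j : Fin m, D^[(i : ℕ)] (θ j.castSucc) * D (v j.castSucc) = 0 := by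
        intro i
        have h1 := congrArg D (relv i.castSucc)
        rw [map_sum, map_zero] at h1
        simp only [Derivation.leibniz, smul_eq_mul] at h1
        rw [Finset.sum_add_distrib] at h1
        have h2 : ∑ j, v j * D (D^[((i.castSucc : Fin (m + 1)) : ℕ)] (θ j)) = 0 := by
          have := relv i.succ
          simp only [Fin.val_succ, Function.iterate_succ_apply'] at this
          rw [← this]
          exact Finset.sum_congr rfl fun j _ => mul_comm _ _
        rw [h2, add_zero, Fin.sum_univ_castSucc, v1, D.map_one_eq_zero, mul_zero, add_zero] at h1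
        exact h1
      have hz := key _ dv
      have hc : ∀ j : Fin m, ∃ c : k, algebraMap k K c = v j.castSucc := fun j =>
        hD _ (congrFun hz j)
      choose c hc using hc
      have h3 := Fintype.linearIndependent_iff.1 h (Fin.snoc c 1 : Fin (m + 1) → k) (by
        rw [Fin.sum_univ_castSucc]
        simp only [Fin.snoc_castSucc, Fin.snoc_last, Algebra.smul_def, hc, map_one]
        have := relv 0
        rw [Fin.sum_univ_castSucc, v1] at this
        simp only [Fin.val_zero, Function.iterate_zero, id_eq] at this
        rw [← this]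
        congr 1
        · exact Finset.sum_congr rfl fun j _ => mul_comm _ _
        · exact mul_comm _ _) (Fin.last m)
      simp at h3

end Pool.Agent.GBL
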